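import Pool.Agent.helper54.SOG.Back

namespace Pool.Agent.helper54.SOG

open Finset

variable {l : ℕ}

/-- For even `l` a strongly orthogonal subset of `B_l` with `l` elements has no short root. -/
theorem no_short {h : ℕ} {S : Finset (Fin (2 * h) → ℝ)} (hS : IsSOS (rootsB (2 * h)) S)
    (hc : S.card = 2 * h) : ∀ a ∈ S, a ∈ rootsD (2 * h) := by
  classical
  intro e he
  rcases hS.1 e he with h1 | ⟨i, s, hs, hes⟩
  · exact h1
  exfalso
  have hs0 : s ≠ 0 := by rcases hs with h | h <;> rw [h] <;> norm_num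
  -- every other element is a long root vanishing at i
  have hother : ∀ b ∈ S, b ≠ e → b ∈ rootsD (2 * h) ∧ b i = 0 := by
    intro b hb hbe
    obtain ⟨h2, h3, h4⟩ := hS.2 b hb e he hbe
    rcases hS.1 b hb with h5 | ⟨j, t, ht, hbt⟩
    · refine ⟨h5, ?_⟩
      by_contra hbi
      obtain ⟨hb1, hb2⟩ := (mem_rootsD_iff b).1 h5
      have hbi' := (hb1 i).resolve_left hbi
      have hi : i ∈ sp b := mem_sp.2 hbi
      obtain ⟨j, hj⟩ : ∃ j, (sp b).erase i = {j} := by
        rw [← card_eq_one, card_erase_of_mem hi, hb2]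
      have hj1 : j ∈ (sp b).erase i := by rw [hj]; simp
      have hji : j ≠ i := (mem_erase.1 hj1).1
      have hbj' := (hb1 j).resolve_left (mem_sp.1 (mem_erase.1 hj1).2)
      have hbz : ∀ x, x ≠ i → x ≠ j → b x = 0 := by
        intro x hxi hxj
        by_contra h0
        have : x ∈ (sp b).erase i := mem_erase.2 ⟨hxi, mem_sp.2 h0⟩
        rw [hj, mem_singleton] at this
        exact hxj this
      have hsi : s = b i ∨ s = - b i := by
        rcases hs with h | h <;> rcases hbi' with h' | h' <;> rw [h, h'] <;> norm_num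
      rcases hsi with h6 | h6
      · apply h4
        right
        refine ⟨j, b j, hbj', ?_⟩
        funext x
        rw [Pi.sub_apply, hes]
        by_cases hxi : x = i
        · subst hxi
          rw [Pi.single_eq_same, h6, sub_self, Pi.single_eq_of_ne hji.symm]
        · rw [Pi.single_eq_of_ne hxi, sub_zero]
          by_cases hxj : x = j
          · subst hxj; rw [Pi.single_eq_same]
          · rw [hbz x hxi hxj, Pi.single_eq_of_ne hxj]
      · apply h3
        right
        refine ⟨j, b j, hbj', ?_⟩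
        funext x
        rw [Pi.add_apply, hes]
        by_cases hxi : x = i
        · subst hxi
          rw [Pi.single_eq_same, h6, add_neg_cancel, Pi.single_eq_of_ne hji.symm]
        · rw [Pi.single_eq_of_ne hxi, add_zero]
          by_cases hxj : x = j
          · subst hxj; rw [Pi.single_eq_same]
          · rw [hbz x hxi hxj, Pi.single_eq_of_ne hxj]
    · exfalso
      by_cases hij : j = i
      · subst hij
        have : s = t ∨ s = - t := by
          rcases hs with h | h <;> rcases ht with h' | h' <;> rw [h, h'] <;> norm_num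
        rcases this with h6 | h6
        · exact hbe (by rw [hbt, hes, h6])
        · apply h2
          rw [hbt, hes, h6, ← Pi.single_add, add_neg_cancel, Pi.single_zero]
      · apply h3
        left
        exact ⟨j, i, hij, t, s, ht, hs, by rw [hbt, hes]⟩
  have hS' : IsSOS (rootsD (2 * h)) (S.erase e) := by
    refine ⟨?_, ?_⟩
    · intro a ha
      exact (hother a (mem_erase.1 ha).2 (mem_erase.1 ha).1).1
    · intro a ha b hb hab
      obtain ⟨h1, h2, h3⟩ := hS.2 a (mem_erase.1 ha).2 b (mem_erase.1 hb).2 hab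
      exact ⟨h1, fun h => h2 (Or.inl h), fun h => h3 (Or.inl h)⟩
  have h1 := card_le_two_mul hS'
  have h2 := two_mul_le hS' (univ.erase i) (by
    intro a ha x hx
    rw [mem_erase]
    refine ⟨?_, mem_univ _⟩
    rintro rfl
    exact (mem_sp.1 hx) (hother a (mem_erase.1 ha).2 (mem_erase.1 ha).1).2)
  rw [card_erase_of_mem (mem_univ _), card_univ, Fintype.card_fin] at h2
  rw [card_erase_of_mem he, hc] at h1
  have h3 : 0 < 2 * h := i.pos
  omega

/-- For even `l` the vertex sets of `Γ(B_l, l)` and `Γ(D_l, l)` are equal. -/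
theorem sosSums_B_eq_D (h : ℕ) :
    sosSums (rootsB (2 * h)) (2 * h) = sosSums (rootsD (2 * h)) (2 * h) := by
  ext v
  constructor
  · rintro ⟨S, hc, hS, rfl⟩
    exact ⟨S, hc, isSOS_D_of_B hS (no_short hS hc), rfl⟩
  · intro hv
    rw [sosSums_D_full (le_refl _) (by omega)] at hv
    obtain ⟨u, hu, rfl⟩ := hv
    obtain ⟨S, hc, hD, hB, hsum⟩ := full_bwd hu (le_refl _)
    exact ⟨S, hc, hB, hsum⟩

theorem sum_sq_of_UU {h : ℕ} {u : Fin l → ℝ} (hu : u ∈ UU l h) : ∑ x, u x * u x = h := by
  classical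
  rw [← hu.2, card_eq_sum_ones, Nat.cast_sum]
  rw [← Finset.sum_subset (subset_univ (sp u))]
  · apply sum_congr rfl
    intro x hx
    rcases (hu.1 x).resolve_left (mem_sp.1 hx) with h | h <;> rw [h] <;> norm_num
  · intro x _ hx
    rw [mem_sp, not_not] at hx
    rw [hx, mul_zero]

theorem int_dot {u u' : Fin l → ℝ} (hu : ∀ x, u x = 0 ∨ u x = 1 ∨ u x = -1)
    (hu' : ∀ x, u' x = 0 ∨ u' x = 1 ∨ u' x = -1) : ∃ z : ℤ, ∑ x, u x * u' x = z := by
  have h1 : ∀ x, ∃ z : ℤ, u x * u' x = z := by
    intro x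
    have h2 : ∀ r : ℝ, (r = 0 ∨ r = 1 ∨ r = -1) → ∃ z : ℤ, r = z := by
      intro r hr
      rcases hr with h | h | h
      · exact ⟨0, by rw [h]; simp⟩
      · exact ⟨1, by rw [h]; simp⟩
      · exact ⟨-1, by rw [h]; simp⟩
    obtain ⟨p, hp⟩ := h2 _ (hu x)
    obtain ⟨q, hq⟩ := h2 _ (hu' x)
    exact ⟨p * q, by rw [hp, hq]; push_cast; ring⟩
  choose z hz using h1
  refine ⟨∑ x, z x, ?_⟩
  rw [Int.cast_sum]
  exact sum_congr rfl (fun x _ => hz x)

/-- An edge of `Γ(D_l, l)`, `l` even, forces `4 ∣ l`. -/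
theorem four_dvd_of_edge {h : ℕ} {v w : sosSums (rootsD (2 * h)) (2 * h)}
    (hvw : (sosGraph (rootsD (2 * h)) (2 * h)).Adj v w) : 4 ∣ 2 * h := by
  have key : ∀ a b : Fin (2 * h) → ℝ, a ∈ sosSums (rootsD (2 * h)) (2 * h) →
      b ∈ sosSums (rootsD (2 * h)) (2 * h) → a - b ∈ sosSums (rootsD (2 * h)) (2 * h) →
      4 ∣ 2 * h := by
    intro a b ha hb hab
    rw [sosSums_D_full (le_refl _) (by omega)] at ha hb hab
    obtain ⟨u, hu, rfl⟩ := ha
    obtain ⟨u', hu', rfl⟩ := hb
    obtain ⟨w, hw, huw⟩ := hab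
    have hw' : w = u - u' := by
      rw [← smul_sub] at huw
      exact (smul_right_injective _ (by norm_num : (2 : ℝ) ≠ 0) huw).symm
    have e1 := sum_sq_of_UU hu
    have e2 := sum_sq_of_UU hu'
    have e3 := sum_sq_of_UU hw
    obtain ⟨z, hz⟩ := int_dot hu.1 hu'.1
    have e4 : ∑ x, w x * w x = ∑ x, u x * u x + ∑ x, u' x * u' x - 2 * ∑ x, u x * u' x := by
      rw [hw', mul_sum, ← sum_add_distrib, ← sum_sub_distrib]
      apply sum_congr rfl
      intro x _
      rw [Pi.sub_apply]; ring
    rw [e1, e2, e3, hz] at e4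
    have e5 : (h : ℝ) = 2 * (z : ℝ) := by linarith
    have e6 : (h : ℤ) = 2 * z := by exact_mod_cast e5
    omega
  rw [adj_iff] at hvw
  rcases hvw.2 with h1 | h1
  · exact key _ _ v.2 w.2 h1
  · exact key _ _ w.2 v.2 h1

theorem card_filter_lt (n m : ℕ) (hm : m ≤ n) :
    (univ.filter (fun x : Fin n => x.val < m)).card = m := by
  rw [Fin.card_filter_val_lt]
  exact min_eq_right hm

/-- `Γ(D_l, l)` has an edge when `4 ∣ l` and `l > 0`. -/
theorem edge_of_four_dvd {m : ℕ} (hm : 0 < m) :
    ∃ v w : sosSums (rootsD (2 * (2 * m))) (2 * (2 * m)),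
      (sosGraph (rootsD (2 * (2 * m))) (2 * (2 * m))).Adj v w := by
  classical
  set n := 2 * (2 * m) with hn
  let u : Fin n → ℝ := fun x => if x.val < 2 * m then 1 else 0
  let u' : Fin n → ℝ := fun x => if x.val < m then 1 else if x.val < 2 * m then 0 else
    if x.val < 3 * m then 1 else 0
  have hA : ∀ j, j ≤ n → (univ.filter (fun x : Fin n => x.val < j)).card = j :=
    fun j hj => card_filter_lt n j hj
  have hu : u ∈ UU n (2 * m) := by
    refine ⟨?_, ?_⟩
    · intro x; simp only [u]; split_ifs <;> norm_num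
    · rw [← hA (2 * m) (by omega)]
      congr 1
      ext x
      rw [mem_sp, mem_filter]
      simp [u]
  have hu' : u' ∈ UU n (2 * m) := by
    refine ⟨?_, ?_⟩
    · intro x; simp only [u']; split_ifs <;> norm_num
    · have hsp : sp u' = (univ.filter (fun x : Fin n => x.val < m)) ∪
          ((univ.filter (fun x : Fin n => x.val < 3 * m)) \
            (univ.filter (fun x : Fin n => x.val < 2 * m))) := by
        ext x
        rw [mem_sp, mem_union, mem_sdiff]
        simp only [u', mem_filter, mem_univ, true_and]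
        split_ifs with h1 h2 h3 <;> simp <;> omega
      rw [hsp, card_union_of_disjoint, card_sdiff_of_subset, hA _ (by omega), hA _ (by omega),
        hA _ (by omega)]
      · omega
      · intro x hx
        rw [mem_filter] at hx ⊢
        exact ⟨mem_univ _, by omega⟩
      · rw [Finset.disjoint_left]
        intro x hx hx'
        rw [mem_filter] at hx
        rw [mem_sdiff, mem_filter, mem_filter] at hx'
        exact hx'.2 ⟨mem_univ _, by omega⟩
  have hd : u - u' ∈ UU n (2 * m) := by
    refine ⟨?_, ?_⟩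
    · intro x; simp only [u, u', Pi.sub_apply]; split_ifs <;> norm_num
    · have hsp : sp (u - u') = (univ.filter (fun x : Fin n => x.val < 3 * m)) \
            (univ.filter (fun x : Fin n => x.val < m)) := by
        ext x
        rw [mem_sp, mem_sdiff]
        simp only [u, u', Pi.sub_apply, mem_filter, mem_univ, true_and]
        split_ifs with h1 h2 h3 h4 <;> simp <;> omega
      rw [hsp, card_sdiff_of_subset, hA _ (by omega), hA _ (by omega)]
      · omega
      · intro x hx
        rw [mem_filter] at hx ⊢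
        exact ⟨mem_univ _, by omega⟩
  have hV : ∀ a ∈ UU n (2 * m), (2 : ℝ) • a ∈ sosSums (rootsD n) n := by
    intro a ha
    have := sosSums_D_full (l := n) (h := 2 * m) (by omega) (by omega)
    rw [← hn] at this
    rw [this]
    exact ⟨a, ha, rfl⟩
  refine ⟨⟨_, hV u hu⟩, ⟨_, hV u' hu'⟩, ?_⟩
  rw [adj_iff]
  refine ⟨?_, Or.inl ?_⟩
  · intro h0
    have h1 : (2 : ℝ) • u = (2 : ℝ) • u' := congrArg Subtype.val h0
    have h2 : u = u' := smul_right_injective _ (by norm_num : (2 : ℝ) ≠ 0) h1
    have h3 := congrFun h2 ⟨m, by omega⟩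
    simp only [u, u'] at h3
    rw [if_pos (by omega), if_neg (by omega), if_pos (by omega)] at h3
    norm_num at h3
  · show (2 : ℝ) • u - (2 : ℝ) • u' ∈ _
    rw [← smul_sub]
    exact hV _ hd

end Pool.Agent.helper54.SOG
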