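import Pool.Agent.helper54.SOG.Defs

/-!
Abstract root systems, as in the problem file, and simply laced ones.
-/

namespace Pool.Agent.helper54.SOG

open Finset

section Defs

variable {E : Type*} [NormedAddCommGroup E] [InnerProductSpace ℝ E]

/-- A root system in the real inner product space `E`, as in the problem file: finite, spanning,
`0` is not a root, only trivial multiples, closed under its reflections, integral. -/
structure IsRootSystem (R : Set E) : Prop where
  finite : R.Finite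
  span_eq : Submodule.span ℝ R = ⊤
  zero_notMem : (0 : E) ∉ R
  multiple : ∀ a ∈ R, ∀ c : ℝ, c • a ∈ R → c = 1 ∨ c = -1
  refl : ∀ a ∈ R, ∀ b ∈ R, b - (2 * inner ℝ b a / inner ℝ a a) • a ∈ R
  integral : ∀ a ∈ R, ∀ b ∈ R, ∃ z : ℤ, 2 * inner ℝ b a / inner ℝ a a = z

/-- `R` is irreducible: nonempty and not the union of two nonempty orthogonal parts. -/
def IsIrred (R : Set E) : Prop :=
  R.Nonempty ∧ ∀ A B : Set E, A ∪ B = R → (∀ a ∈ A, ∀ b ∈ B, inner ℝ a b = 0) →
    A = ∅ ∨ B = ∅

/-- `R` is simply laced: all its elements have the same length. -/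
def IsSimplyLaced (R : Set E) : Prop := ∀ a ∈ R, ∀ b ∈ R, ‖a‖ = ‖b‖

/-- Working form: the part of the axioms used below, all roots having `⟪a,a⟫ = c`. -/
structure SL (R : Set E) (c : ℝ) : Prop where
  pos : 0 < c
  norm : ∀ a ∈ R, inner ℝ a a = c
  refl : ∀ a ∈ R, ∀ b ∈ R, b - (2 * inner ℝ b a / c) • a ∈ R
  integral : ∀ a ∈ R, ∀ b ∈ R, ∃ z : ℤ, 2 * inner ℝ b a / c = z

theorem exists_SL {R : Set E} (h : IsRootSystem R) (hi : IsIrred R) (hs : IsSimplyLaced R) :
    ∃ c, SL R c := by
  obtain ⟨a, ha⟩ := hi.1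
  have hn : ∀ b ∈ R, inner ℝ b b = inner ℝ a a := by
    intro b hb
    rw [real_inner_self_eq_norm_sq, real_inner_self_eq_norm_sq, hs b hb a ha]
  refine ⟨inner ℝ a a, ?_, hn, ?_, ?_⟩
  · rw [real_inner_self_eq_norm_sq]
    have h0 : a ≠ 0 := by
      rintro rfl
      exact h.zero_notMem ha
    have := norm_pos_iff.2 h0
    positivity
  · intro b hb d hd
    have := h.refl b hb d hd
    rwa [hn b hb] at this
  · intro b hb d hd
    have := h.integral b hb d hd
    rwa [hn b hb] at this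

end Defs

namespace SL

variable {E : Type*} [NormedAddCommGroup E] [InnerProductSpace ℝ E] {R : Set E} {c : ℝ}

theorem neg_mem (h : SL R c) {a : E} (ha : a ∈ R) : -a ∈ R := by
  have h1 := h.refl a ha a ha
  rw [h.norm a ha, mul_div_assoc, div_self h.pos.ne', mul_one, two_smul] at h1
  have h2 : a - (a + a) = -a := by abel
  rwa [h2] at h1

theorem ne_zero (h : SL R c) {a : E} (ha : a ∈ R) : a ≠ 0 := by
  rintro rfl
  have := h.norm 0 ha
  rw [inner_zero_left] at this
  exact h.pos.ne this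

/-- inner products of two roots -/
theorem inner_cases (h : SL R c) {a b : E} (ha : a ∈ R) (hb : b ∈ R) :
    inner ℝ a b = 0 ∨ inner ℝ a b = c / 2 ∨ inner ℝ a b = -(c / 2) ∨ a = b ∨ a = -b := by
  have hc := h.pos
  obtain ⟨z, hz⟩ := h.integral b hb a ha
  have hab : inner ℝ a b = z * c / 2 := by
    field_simp at hz
    linarith
  have hna := h.norm a ha
  have hnb := h.norm b hb
  have hsub : 0 ≤ inner ℝ (a - b) (a - b) := real_inner_self_nonneg
  have hadd : 0 ≤ inner ℝ (a + b) (a + b) := real_inner_self_nonneg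
  have e1 : inner ℝ (a - b) (a - b) = 2 * c - z * c := by
    rw [real_inner_sub_sub_self, hna, hnb, hab]; ring
  have e2 : inner ℝ (a + b) (a + b) = 2 * c + z * c := by
    rw [real_inner_add_add_self, hna, hnb, hab]; ring
  have hz1 : (z : ℝ) ≤ 2 := by
    rw [e1] at hsub
    have : 0 ≤ (2 - z) * c := by linarith
    have := nonneg_of_mul_nonneg_left this hc
    linarith
  have hz2 : (-2 : ℝ) ≤ z := by
    rw [e2] at hadd
    have : 0 ≤ (2 + z) * c := by linarith
    have := nonneg_of_mul_nonneg_left this hc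
    linarith
  have hz1' : z ≤ 2 := by exact_mod_cast hz1
  have hz2' : -2 ≤ z := by exact_mod_cast hz2
  have hz3 : z = -2 ∨ z = -1 ∨ z = 0 ∨ z = 1 ∨ z = 2 := by omega
  rcases hz3 with rfl | rfl | rfl | rfl | rfl
  · right; right; right; right
    have : inner ℝ (a + b) (a + b) = 0 := by rw [e2]; push_cast; ring
    exact eq_neg_of_add_eq_zero_left (inner_self_eq_zero.1 this)
  · right; right; left
    rw [hab]; push_cast; ring
  · left
    rw [hab]; push_cast; ring
  · right; left
    rw [hab]; push_cast; ring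
  · right; right; right; left
    have : inner ℝ (a - b) (a - b) = 0 := by rw [e1]; push_cast; ring
    exact sub_eq_zero.1 (inner_self_eq_zero.1 this)

theorem sub_mem (h : SL R c) {a b : E} (ha : a ∈ R) (hb : b ∈ R) (hab : inner ℝ a b = c / 2) :
    a - b ∈ R := by
  have h1 := h.refl b hb a ha
  rw [hab] at h1
  have h2 : 2 * (c / 2) / c = 1 := by
    have := h.pos.ne'
    field_simp
  rwa [h2, one_smul] at h1

theorem add_mem (h : SL R c) {a b : E} (ha : a ∈ R) (hb : b ∈ R)
    (hab : inner ℝ a b = -(c / 2)) : a + b ∈ R := by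
  have h1 := h.sub_mem ha (h.neg_mem hb) (by rw [inner_neg_right, hab, neg_neg])
  rwa [sub_neg_eq_add] at h1

theorem inner_of_sub_mem (h : SL R c) {a b : E} (ha : a ∈ R) (hb : b ∈ R) (hab : a - b ∈ R) :
    inner ℝ a b = c / 2 := by
  have h1 := h.norm _ hab
  rw [real_inner_sub_sub_self, h.norm a ha, h.norm b hb] at h1
  linarith

theorem inner_of_add_mem (h : SL R c) {a b : E} (ha : a ∈ R) (hb : b ∈ R) (hab : a + b ∈ R) :
    inner ℝ a b = -(c / 2) := by
  have h1 := h.norm _ hab
  rw [real_inner_add_add_self, h.norm a ha, h.norm b hb] at h1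
  linarith

/-- In a simply laced root system strongly orthogonal roots are orthogonal. -/
theorem inner_of_so (h : SL R c) {a b : E} (ha : a ∈ R) (hb : b ∈ R) (h0 : a ≠ b)
    (h1 : a + b ≠ 0) (h2 : a + b ∉ R) (h3 : a - b ∉ R) : inner ℝ a b = 0 := by
  rcases h.inner_cases ha hb with h4 | h4 | h4 | h4 | h4
  · exact h4
  · exact absurd (h.sub_mem ha hb h4) h3
  · exact absurd (h.add_mem ha hb h4) h2
  · exact absurd h4 h0
  · exact absurd (by rw [h4, neg_add_cancel]) h1

/-- Conversely orthogonal roots are strongly orthogonal. -/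
theorem so_of_inner (h : SL R c) {a b : E} (ha : a ∈ R) (hb : b ∈ R)
    (hab : inner ℝ a b = 0) : a + b ≠ 0 ∧ a + b ∉ R ∧ a - b ∉ R := by
  have hc := h.pos
  have e1 : inner ℝ (a + b) (a + b) = 2 * c := by
    rw [real_inner_add_add_self, h.norm a ha, h.norm b hb, hab]; ring
  have e2 : inner ℝ (a - b) (a - b) = 2 * c := by
    rw [real_inner_sub_sub_self, h.norm a ha, h.norm b hb, hab]; ring
  refine ⟨?_, ?_, ?_⟩
  · intro h0
    rw [h0, inner_zero_left] at e1
    linarith
  · intro h0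
    rw [h.norm _ h0] at e1
    linarith
  · intro h0
    rw [h.norm _ h0] at e2
    linarith

/-- norm of a sum of a strongly orthogonal set -/
theorem norm_sum (h : SL R c) {S : Finset E} (hS : IsSOS R S) :
    inner ℝ (∑ a ∈ S, a) (∑ a ∈ S, a) = S.card * c := by
  classical
  rw [sum_inner]
  have h1 : ∀ a ∈ S, inner ℝ a (∑ b ∈ S, b) = c := by
    intro a ha
    rw [inner_sum, ← h.norm a (hS.1 a ha)]
    rw [sum_eq_single a]
    · intro b hb hba
      obtain ⟨h2, h3, h4⟩ := hS.2 a ha b hb (Ne.symm hba)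
      exact h.inner_of_so (hS.1 a ha) (hS.1 b hb) (Ne.symm hba) h2 h3 h4
    · intro h2; exact absurd ha h2
  rw [sum_congr rfl h1, sum_const, nsmul_eq_mul]

theorem norm_sosSums (h : SL R c) {m : ℕ} {v : E} (hv : v ∈ sosSums R m) :
    inner ℝ v v = m * c := by
  obtain ⟨S, hc, hS, rfl⟩ := hv
  rw [h.norm_sum hS, hc]

theorem neg_mem_sosSums (h : SL R c) {m : ℕ} {v : E} (hv : v ∈ sosSums R m) :
    -v ∈ sosSums R m := by
  classical
  obtain ⟨S, hc, hS, rfl⟩ := hv
  refine ⟨S.image (fun a => -a), ?_, ⟨?_, ?_⟩, ?_⟩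
  · rw [card_image_of_injective _ neg_injective, hc]
  · intro a ha
    obtain ⟨b, hb, rfl⟩ := mem_image.1 ha
    exact h.neg_mem (hS.1 b hb)
  · intro a0 ha0 b0 hb0 hab
    obtain ⟨a, ha, rfl⟩ := mem_image.1 ha0
    obtain ⟨b, hb, rfl⟩ := mem_image.1 hb0
    have hab' : a ≠ b := fun h0 => hab (by rw [h0])
    obtain ⟨h1, h2, h3⟩ := hS.2 a ha b hb hab'
    have h4 := h.inner_of_so (hS.1 a ha) (hS.1 b hb) hab' h1 h2 h3
    exact h.so_of_inner (h.neg_mem (hS.1 a ha)) (h.neg_mem (hS.1 b hb))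
      (by rw [inner_neg_neg, h4])
  · rw [sum_image (fun a _ b _ h0 => neg_injective h0), sum_neg_distrib]

theorem adj_iff' (h : SL R c) {m : ℕ} (v w : sosSums R m) :
    (sosGraph R m).Adj v w ↔ v ≠ w ∧ (v : E) - w ∈ sosSums R m := by
  rw [adj_iff]
  constructor
  · rintro ⟨h1, h2 | h2⟩
    · exact ⟨h1, h2⟩
    · have h3 := h.neg_mem_sosSums h2
      rw [neg_sub] at h3
      exact ⟨h1, h3⟩
  · rintro ⟨h1, h2⟩
    exact ⟨h1, Or.inl h2⟩

/-- inner product along an edge -/
theorem inner_of_adj (h : SL R c) {m : ℕ} {v w : sosSums R m} (hvw : (sosGraph R m).Adj v w) :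
    inner ℝ (v : E) (w : E) = m * c / 2 := by
  have h1 := h.norm_sosSums ((h.adj_iff' v w).1 hvw).2
  rw [real_inner_sub_sub_self, h.norm_sosSums v.2, h.norm_sosSums w.2] at h1
  linarith

/-- Two orthogonal roots of an irreducible simply laced root system have a common neighbour. -/
theorem exists_common (h : SL R c) (hi : IsIrred R) {a b : E} (ha : a ∈ R) (hb : b ∈ R)
    (hab : inner ℝ a b = 0) : ∃ g ∈ R, inner ℝ g a = c / 2 ∧ inner ℝ g b = c / 2 := by
  have hc := h.pos
  -- some root is orthogonal to neither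
  have key : ∃ g ∈ R, inner ℝ g a ≠ 0 ∧ inner ℝ g b ≠ 0 := by
    by_contra hcon
    let A : Set E := {x ∈ R | ∃ g ∈ R, inner ℝ g a ≠ 0 ∧ inner ℝ g x ≠ 0}
    let B : Set E := {x ∈ R | ¬ ∃ g ∈ R, inner ℝ g a ≠ 0 ∧ inner ℝ g x ≠ 0}
    have hAB : A ∪ B = R := by
      ext x
      constructor
      · rintro (hx | hx)
        · exact hx.1
        · exact hx.1
      · intro hx
        by_cases h1 : ∃ g ∈ R, inner ℝ g a ≠ 0 ∧ inner ℝ g x ≠ 0
        · exact Or.inl ⟨hx, h1⟩
        · exact Or.inr ⟨hx, h1⟩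
    have hort : ∀ x ∈ A, ∀ y ∈ B, inner ℝ x y = 0 := by
      rintro x ⟨hx, g, hg, hga, hgx⟩ y ⟨hy, hy2⟩
      by_contra hxy
      have hgy : inner ℝ g y = 0 := by
        by_contra h0
        exact hy2 ⟨g, hg, hga, h0⟩
      have hxa : inner ℝ x a = 0 := by
        by_contra h0
        exact hy2 ⟨x, hx, h0, hxy⟩
      apply hy2
      refine ⟨_, h.refl x hx g hg, ?_, ?_⟩
      · rw [inner_sub_left, inner_smul_left, hxa, mul_zero, sub_zero]
        exact hga
      · rw [inner_sub_left, inner_smul_left, hgy, zero_sub, neg_ne_zero]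
        refine mul_ne_zero ?_ hxy
        simp only [conj_trivial]
        exact div_ne_zero (mul_ne_zero two_ne_zero hgx) hc.ne'
    rcases hi.2 A B hAB hort with h1 | h1
    · have : a ∈ A := by
        refine ⟨ha, a, ha, ?_, ?_⟩ <;> rw [h.norm a ha] <;> exact hc.ne'
      rw [h1] at this
      exact this
    · have : b ∈ B := ⟨hb, hcon⟩
      rw [h1] at this
      exact this
  obtain ⟨g, hg, hga, hgb⟩ := key
  have hga' : inner ℝ g a = c / 2 ∨ inner ℝ g a = -(c / 2) := by
    rcases h.inner_cases hg ha with h1 | h1 | h1 | h1 | h1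
    · exact absurd h1 hga
    · exact Or.inl h1
    · exact Or.inr h1
    · exact absurd (by rw [h1, hab]) hgb
    · exact absurd (by rw [h1, inner_neg_left, hab, neg_zero]) hgb
  have hgb' : inner ℝ g b = c / 2 ∨ inner ℝ g b = -(c / 2) := by
    rcases h.inner_cases hg hb with h1 | h1 | h1 | h1 | h1
    · exact absurd h1 hgb
    · exact Or.inl h1
    · exact Or.inr h1
    · exact absurd (by rw [h1, real_inner_comm, hab]) hga
    · exact absurd (by rw [h1, inner_neg_left, real_inner_comm, hab, neg_zero]) hga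
  have hba : inner ℝ b a = 0 := by rw [real_inner_comm, hab]
  rcases hga' with h1 | h1 <;> rcases hgb' with h2 | h2
  · exact ⟨g, hg, h1, h2⟩
  · refine ⟨g + b, h.add_mem hg hb h2, ?_, ?_⟩
    · rw [inner_add_left, h1, hba, add_zero]
    · rw [inner_add_left, h2, h.norm b hb]; ring
  · refine ⟨g + a, h.add_mem hg ha h1, ?_, ?_⟩
    · rw [inner_add_left, h1, h.norm a ha]; ring
    · rw [inner_add_left, h2, hab, add_zero]
  · refine ⟨-g, h.neg_mem hg, ?_, ?_⟩
    · rw [inner_neg_left, h1, neg_neg]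
    · rw [inner_neg_left, h2, neg_neg]

end SL

end Pool.Agent.helper54.SOG
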