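import Pool.Agent.helper54.SOG.Full

namespace Pool.Agent.helper54.SOG

open Finset

variable {l : ℕ}

theorem card_sp_le_two_of_mem_rootsB {a : Fin l → ℝ} (ha : a ∈ rootsB l) :
    (sp a).card ≤ 2 := by
  rcases ha with ha | ⟨i, s, hs, rfl⟩
  · exact ((mem_rootsD_iff a).1 ha).2.le
  · have : sp (Pi.single i s : Fin l → ℝ) ⊆ {i} := by
      intro x hx
      rw [mem_sp] at hx
      rw [mem_singleton]
      by_contra hxi
      exact hx (by simp [Pi.single_apply, hxi])
    have := card_le_card this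
    rw [card_singleton] at this
    omega

theorem entry_of_mem_rootsB {a : Fin l → ℝ} (ha : a ∈ rootsB l) (x : Fin l) :
    a x = 0 ∨ a x = 1 ∨ a x = -1 := by
  rcases ha with ha | ⟨i, s, hs, rfl⟩
  · exact ((mem_rootsD_iff a).1 ha).1 x
  · by_cases hx : x = i
    · subst hx
      rw [Pi.single_eq_same]
      exact Or.inr hs
    · left
      simp [Pi.single_apply, hx]

/-- Twice a `0, 1, -1` vector with at most `l / 2` nonzero entries is the sum of a strongly
orthogonal set of long roots of `B_l`. -/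
theorem full_bwd {u : Fin l → ℝ} {h : ℕ} (hu : u ∈ UU l h) (hl : 2 * h ≤ l) :
    ∃ S : Finset (Fin l → ℝ), S.card = 2 * h ∧ (∀ a ∈ S, a ∈ rootsD l) ∧
      IsSOS (rootsB l) S ∧ ∑ a ∈ S, a = (2 : ℝ) • u := by
  classical
  obtain ⟨hu1, hu2⟩ := hu
  -- an injection of the support into its complement
  have hcard : (sp u).card ≤ ((sp u)ᶜ).card := by
    rw [card_compl, Fintype.card_fin, hu2]; omega
  obtain ⟨T, hT, hTc⟩ := exists_subset_card_eq hcard
  obtain ⟨e⟩ : Nonempty (sp u ≃ T) := by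
    rw [← Fintype.card_eq]
    simp [hTc]
  obtain ⟨p, hp1, hp2⟩ : ∃ p : Fin l → Fin l, (∀ x ∈ sp u, p x ∉ sp u) ∧
      (∀ x ∈ sp u, ∀ y ∈ sp u, p x = p y → x = y) := by
    refine ⟨fun x => if hx : x ∈ sp u then (e ⟨x, hx⟩ : Fin l) else x, ?_, ?_⟩
    · intro x hx
      simp only [hx, dif_pos]
      have := hT (e ⟨x, hx⟩).2
      rwa [mem_compl] at this
    · intro x hx y hy hxy
      simp only [hx, hy, dif_pos] at hxy
      have := e.injective (Subtype.ext hxy)
      exact congrArg Subtype.val this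
  let r : Fin l × ℝ → (Fin l → ℝ) := fun q => Pi.single q.1 (u q.1) + Pi.single (p q.1) q.2
  let D : Finset (Fin l × ℝ) := (sp u) ×ˢ ({1, -1} : Finset ℝ)
  have hmemD : ∀ q ∈ D, q.1 ∈ sp u ∧ (q.2 = 1 ∨ q.2 = -1) := by
    intro q hq
    have := mem_product.1 hq
    refine ⟨this.1, ?_⟩
    have h2 := this.2
    rw [mem_insert, mem_singleton] at h2
    exact h2
  have hpx : ∀ x ∈ sp u, p x ≠ x := by
    intro x hx h0
    exact hp1 x hx (by rw [h0]; exact hx)
  have hr1 : ∀ q ∈ D, r q q.1 = u q.1 := by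
    intro q hq
    have h1 := hpx q.1 (hmemD q hq).1
    simp [r, Pi.single_apply, Ne.symm h1]
  have hr2 : ∀ q ∈ D, r q (p q.1) = q.2 := by
    intro q hq
    have h1 := hpx q.1 (hmemD q hq).1
    simp [r, Pi.single_apply, h1]
  have hr3 : ∀ q x, x ≠ q.1 → x ≠ p q.1 → r q x = 0 := by
    intro q x h1 h2
    simp [r, Pi.single_apply, h1, h2]
  have hux : ∀ x ∈ sp u, u x = 1 ∨ u x = -1 := fun x hx => (hu1 x).resolve_left (mem_sp.1 hx)
  -- the sum and the difference of two different members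
  have hpair : ∀ q ∈ D, ∀ q' ∈ D, q ≠ q' → ∀ c : ℝ, (c = 1 ∨ c = -1) →
      r q + c • r q' ∉ rootsB l ∧ r q + c • r q' ≠ 0 := by
    intro q hq q' hq' hne c hc
    have hq1 := hmemD q hq
    have hq1' := hmemD q' hq'
    have hc0 : c ≠ 0 := by rcases hc with h | h <;> rw [h] <;> norm_num
    by_cases hx : q.1 = q'.1
    · have h2 : q.2 ≠ q'.2 := fun h2 => hne (Prod.ext hx h2)
      have hq2 : q'.2 = - q.2 := by
        rcases hq1.2 with h | h <;> rcases hq1'.2 with h' | h'
        · exact absurd (h.trans h'.symm) h2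
        · rw [h, h']
        · rw [h, h', neg_neg]
        · exact absurd (h.trans h'.symm) h2
      have e1 : (r q + c • r q') q.1 = (1 + c) * u q.1 := by
        rw [Pi.add_apply, Pi.smul_apply, hr1 q hq, hx, hr1 q' hq', smul_eq_mul]; ring
      have e2 : (r q + c • r q') (p q.1) = (1 - c) * q.2 := by
        rw [Pi.add_apply, Pi.smul_apply, hr2 q hq, hx, hr2 q' hq', smul_eq_mul, hq2]; ring
      have key : ∃ x, (r q + c • r q') x = 2 ∨ (r q + c • r q') x = -2 := by
        rcases hc with h | h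
        · refine ⟨q.1, ?_⟩
          rw [e1, h]
          rcases hux _ hq1.1 with h3 | h3 <;> rw [h3] <;> norm_num
        · refine ⟨p q.1, ?_⟩
          rw [e2, h]
          rcases hq1.2 with h3 | h3 <;> rw [h3] <;> norm_num
      obtain ⟨x, hx2⟩ := key
      constructor
      · intro hB
        have := entry_of_mem_rootsB hB x
        rcases hx2 with h3 | h3 <;> rw [h3] at this <;> norm_num at this
      · intro h0
        rw [h0] at hx2
        rcases hx2 with h3 | h3 <;> norm_num at h3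
    · have hpp : p q.1 ≠ p q'.1 := fun h0 => hx (hp2 _ hq1.1 _ hq1'.1 h0)
      have hn1 : q.1 ≠ p q'.1 := by
        intro h0
        exact hp1 _ hq1'.1 (by rw [← h0]; exact hq1.1)
      have hn2 : q'.1 ≠ p q.1 := by
        intro h0
        exact hp1 _ hq1.1 (by rw [← h0]; exact hq1'.1)
      have f1 : (r q + c • r q') q.1 ≠ 0 := by
        rw [Pi.add_apply, Pi.smul_apply, hr1 q hq, hr3 q' q.1 hx hn1, smul_zero, add_zero]
        exact mem_sp.1 hq1.1
      have f2 : (r q + c • r q') q'.1 ≠ 0 := by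
        rw [Pi.add_apply, Pi.smul_apply, hr1 q' hq', hr3 q q'.1 (Ne.symm hx) hn2, zero_add,
          smul_eq_mul]
        exact mul_ne_zero hc0 (mem_sp.1 hq1'.1)
      have f3 : (r q + c • r q') (p q.1) ≠ 0 := by
        rw [Pi.add_apply, Pi.smul_apply, hr2 q hq, hr3 q' (p q.1) (Ne.symm hn2) hpp, smul_zero,
          add_zero]
        rcases hq1.2 with h | h <;> rw [h] <;> norm_num
      constructor
      · intro hB
        have h2 := card_sp_le_two_of_mem_rootsB hB
        have h3 : 2 < (sp (r q + c • r q')).card := by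
          rw [two_lt_card]
          exact ⟨q.1, mem_sp.2 f1, q'.1, mem_sp.2 f2, p q.1, mem_sp.2 f3, hx,
            (hpx _ hq1.1).symm, hn2⟩
        omega
      · intro h0
        apply f1
        rw [h0]; rfl
  have hinj : ∀ q ∈ D, ∀ q' ∈ D, r q = r q' → q = q' := by
    intro q hq q' hq' hrr
    by_contra hne
    apply (hpair q hq q' hq' hne (-1) (Or.inr rfl)).2
    rw [hrr, neg_smul, one_smul, add_neg_cancel]
  have hrD : ∀ q ∈ D, r q ∈ rootsD l := by
    intro q hq
    have hq1 := hmemD q hq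
    exact ⟨q.1, p q.1, (hpx _ hq1.1).symm, u q.1, q.2, hux _ hq1.1, hq1.2, rfl⟩
  refine ⟨D.image r, ?_, ?_, ⟨?_, ?_⟩, ?_⟩
  · rw [card_image_of_injOn (fun q hq q' hq' h0 => hinj q hq q' hq' h0), card_product, hu2]
    have : ({1, -1} : Finset ℝ).card = 2 := card_pair (by norm_num)
    rw [this]; ring
  · intro a ha
    obtain ⟨q, hq, rfl⟩ := mem_image.1 ha
    exact hrD q hq
  · intro a ha
    obtain ⟨q, hq, rfl⟩ := mem_image.1 ha
    exact Or.inl (hrD q hq)
  · intro a ha b hb hab
    obtain ⟨q, hq, rfl⟩ := mem_image.1 ha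
    obtain ⟨q', hq', rfl⟩ := mem_image.1 hb
    have hne : q ≠ q' := fun h0 => hab (by rw [h0])
    have h1 := hpair q hq q' hq' hne 1 (Or.inl rfl)
    have h2 := hpair q hq q' hq' hne (-1) (Or.inr rfl)
    rw [one_smul] at h1
    rw [neg_smul, one_smul, ← sub_eq_add_neg] at h2
    exact ⟨h1.2, h1.1, h2.1⟩
  · rw [sum_image (fun q hq q' hq' h0 => hinj q hq q' hq' h0), sum_product]
    have h1 : ∀ x ∈ sp u, ∑ y ∈ ({1, -1} : Finset ℝ), r (x, y) = (2 : ℝ) • Pi.single x (u x) := by
      intro x hx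
      rw [sum_pair (by norm_num)]
      funext z
      simp only [r, Pi.add_apply, Pi.smul_apply, smul_eq_mul]
      by_cases hz : z = p x
      · subst hz
        rw [Pi.single_eq_same, Pi.single_eq_same, Pi.single_apply]
        split_ifs <;> ring
      · rw [Pi.single_apply, Pi.single_apply, Pi.single_apply, if_neg hz]
        split_ifs <;> ring
    rw [sum_congr rfl h1, ← smul_sum]
    congr 1
    funext z
    rw [Finset.sum_apply]
    by_cases hz : z ∈ sp u
    · rw [sum_eq_single z]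
      · simp
      · intro b _ hbz
        simp [Pi.single_apply, Ne.symm hbz]
      · intro h0; exact absurd hz h0
    · rw [sum_eq_zero]
      · rw [mem_sp, not_not] at hz; exact hz.symm
      · intro x hx
        have : z ≠ x := by rintro rfl; exact hz hx
        simp [Pi.single_apply, this]

theorem isSOS_D_of_B {S : Finset (Fin l → ℝ)} (hS : IsSOS (rootsB l) S)
    (hD : ∀ a ∈ S, a ∈ rootsD l) : IsSOS (rootsD l) S := by
  refine ⟨hD, ?_⟩
  intro a ha b hb hab
  obtain ⟨h1, h2, h3⟩ := hS.2 a ha b hb hab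
  exact ⟨h1, fun h => h2 (Or.inl h), fun h => h3 (Or.inl h)⟩

/-- For even `k` with `k ≤ l ≤ k + 1` the sums are exactly the vectors `2u`. -/
theorem sosSums_D_full {h : ℕ} (h1 : 2 * h ≤ l) (h2 : l ≤ 2 * h + 1) :
    sosSums (rootsD l) (2 * h) = {v | ∃ u ∈ UU l h, v = (2 : ℝ) • u} := by
  ext v
  constructor
  · rintro ⟨S, hc, hS, rfl⟩
    exact full_fwd hS hc h2
  · rintro ⟨u, hu, rfl⟩
    obtain ⟨S, hc, hD, hB, hsum⟩ := full_bwd hu h1
    exact ⟨S, hc, isSOS_D_of_B hB hD, hsum⟩

end Pool.Agent.helper54.SOG
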