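import Pool.Agent.helper54.SOG.Defs

namespace Pool.Agent.helper54.SOG

open Finset

open scoped Classical in
/-- support of a vector -/
noncomputable def sp {l : ℕ} (a : Fin l → ℝ) : Finset (Fin l) := univ.filter (fun x => a x ≠ 0)

theorem mem_sp {l : ℕ} {a : Fin l → ℝ} {x : Fin l} : x ∈ sp a ↔ a x ≠ 0 := by
  simp [sp]

/-- vectors with entries `0, 1, -1` and exactly `h` nonzero entries -/
def UU (l h : ℕ) : Set (Fin l → ℝ) :=
  {u | (∀ x, u x = 0 ∨ u x = 1 ∨ u x = -1) ∧ (sp u).card = h}

theorem sp_pair {l : ℕ} {i j : Fin l} (hij : i ≠ j) {s t : ℝ} (hs : s = 1 ∨ s = -1)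
    (ht : t = 1 ∨ t = -1) : sp (Pi.single i s + Pi.single j t : Fin l → ℝ) = {i, j} := by
  have hs0 : s ≠ 0 := by rcases hs with h | h <;> rw [h] <;> norm_num
  have ht0 : t ≠ 0 := by rcases ht with h | h <;> rw [h] <;> norm_num
  ext x
  rw [mem_sp]
  simp only [Pi.add_apply, mem_insert, mem_singleton]
  by_cases hi : x = i
  · subst hi
    simp [Pi.single_apply, hij, hs0]
  · by_cases hj : x = j
    · subst hj
      simp [Pi.single_apply, hi, ht0]
    · simp [Pi.single_apply, hi, hj]

theorem mem_rootsD_iff {l : ℕ} (a : Fin l → ℝ) : a ∈ rootsD l ↔ a ∈ UU l 2 := by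
  constructor
  · rintro ⟨i, j, hij, s, t, hs, ht, rfl⟩
    refine ⟨?_, ?_⟩
    · intro x
      simp only [Pi.add_apply]
      by_cases hi : x = i
      · subst hi
        simp only [Pi.single_apply, hij, if_true, if_false, add_zero]
        exact Or.inr hs
      · by_cases hj : x = j
        · subst hj
          simp only [Pi.single_apply, hi, if_true, if_false, zero_add]
          exact Or.inr ht
        · left
          simp [Pi.single_apply, hi, hj]
    · rw [sp_pair hij hs ht]
      exact card_pair hij
  · rintro ⟨h1, h2⟩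
    obtain ⟨i, j, hij, hs⟩ := card_eq_two.1 h2
    have hi : a i ≠ 0 := mem_sp.1 (by rw [hs]; simp)
    have hj : a j ≠ 0 := mem_sp.1 (by rw [hs]; simp)
    refine ⟨i, j, hij, a i, a j, (h1 i).resolve_left hi, (h1 j).resolve_left hj, ?_⟩
    funext x
    simp only [Pi.add_apply]
    by_cases hxi : x = i
    · subst hxi
      simp [Pi.single_apply, hij]
    · by_cases hxj : x = j
      · subst hxj
        simp [Pi.single_apply, hxi]
      · have hx : x ∉ sp a := by rw [hs]; simp [hxi, hxj]
        rw [mem_sp, not_not] at hx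
        simp [Pi.single_apply, hxi, hxj, hx]

/-- Two strongly orthogonal roots of `D_l` have equal or disjoint supports. -/
theorem so_support {l : ℕ} {a b : Fin l → ℝ} (ha : a ∈ rootsD l) (hb : b ∈ rootsD l)
    (h1 : a + b ∉ rootsD l) (h2 : a - b ∉ rootsD l) :
    sp a = sp b ∨ Disjoint (sp a) (sp b) := by
  classical
  rw [mem_rootsD_iff] at ha hb h1 h2
  obtain ⟨ha1, ha2⟩ := ha
  obtain ⟨hb1, hb2⟩ := hb
  by_contra hcon
  rw [not_or] at hcon
  obtain ⟨hne, hdis⟩ := hcon
  rw [Finset.not_disjoint_iff] at hdis
  obtain ⟨i, hia, hib⟩ := hdis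
  -- the intersection is exactly {i}
  have hint : sp a ∩ sp b = {i} := by
    have hsub : {i} ⊆ sp a ∩ sp b := by simp [hia, hib]
    have hle : (sp a ∩ sp b).card ≤ 1 := by
      by_contra hc
      have h3 : (sp a ∩ sp b).card ≤ (sp a).card := card_le_card inter_subset_left
      have h4 : (sp a ∩ sp b).card = 2 := by omega
      have h5 : sp a ∩ sp b = sp a := eq_of_subset_of_card_le inter_subset_left (by omega)
      have h6 : sp a ∩ sp b = sp b := eq_of_subset_of_card_le inter_subset_right (by omega)
      exact hne (h5.symm.trans h6)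
    exact (eq_of_subset_of_card_le hsub (by simpa using hle)).symm
  have hcard : (sp a ∪ sp b).card = 3 := by
    have := card_union_add_card_inter (sp a) (sp b)
    rw [hint, card_singleton] at this
    omega
  have hval : ∀ x, x ∈ sp a → x ≠ i → b x = 0 := by
    intro x hx hxi
    by_contra hbx
    have : x ∈ sp a ∩ sp b := mem_inter.2 ⟨hx, mem_sp.2 hbx⟩
    rw [hint, mem_singleton] at this
    exact hxi this
  have hval' : ∀ x, b x = 0 ∨ a x = 0 ∨ x = i := by
    intro x
    by_cases hx : a x = 0
    · exact Or.inr (Or.inl hx)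
    · by_cases hxi : x = i
      · exact Or.inr (Or.inr hxi)
      · exact Or.inl (hval x (mem_sp.2 hx) hxi)
  have hai : a i ≠ 0 := mem_sp.1 hia
  have hbi : b i ≠ 0 := mem_sp.1 hib
  have herase : ((sp a ∪ sp b).erase i).card = 2 := by
    rw [card_erase_of_mem (mem_union_left _ hia), hcard]
  by_cases hsame : a i = b i
  · apply h2
    refine ⟨?_, ?_⟩
    · intro x
      simp only [Pi.sub_apply]
      rcases hval' x with h | h | h
      · rw [h, sub_zero]; exact ha1 x
      · rw [h, zero_sub]
        rcases hb1 x with h | h | h <;> rw [h] <;> norm_num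
      · subst h; left; rw [hsame, sub_self]
    · rw [← herase]
      congr 1
      ext x
      rw [mem_sp, mem_erase, mem_union, mem_sp, mem_sp, Pi.sub_apply]
      rcases hval' x with h | h | h
      · rw [h, sub_zero]
        constructor
        · intro hx
          refine ⟨?_, Or.inl hx⟩
          rintro rfl
          exact hbi h
        · rintro ⟨_, h3 | h3⟩
          · exact h3
          · exact absurd rfl h3
      · rw [h, zero_sub]
        constructor
        · intro hx
          refine ⟨?_, Or.inr (by intro h0; apply hx; rw [h0, neg_zero])⟩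
          rintro rfl
          exact hai h
        · rintro ⟨_, h3 | h3⟩
          · exact absurd rfl h3
          · exact neg_ne_zero.2 h3
      · subst h
        simp [hsame]
  · apply h1
    have hopp : a i = - b i := by
      rcases (ha1 i).resolve_left hai with h | h <;> rcases (hb1 i).resolve_left hbi with h' | h'
      · exact absurd (h.trans h'.symm) hsame
      · rw [h, h']; norm_num
      · rw [h, h']
      · exact absurd (h.trans h'.symm) hsame
    refine ⟨?_, ?_⟩
    · intro x
      simp only [Pi.add_apply]
      rcases hval' x with h | h | h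
      · rw [h, add_zero]; exact ha1 x
      · rw [h, zero_add]; exact hb1 x
      · subst h; left; rw [hopp, neg_add_cancel]
    · rw [← herase]
      congr 1
      ext x
      rw [mem_sp, mem_erase, mem_union, mem_sp, mem_sp, Pi.add_apply]
      rcases hval' x with h | h | h
      · rw [h, add_zero]
        constructor
        · intro hx
          refine ⟨?_, Or.inl hx⟩
          rintro rfl
          exact hbi h
        · rintro ⟨_, h3 | h3⟩
          · exact h3
          · exact absurd rfl h3
      · rw [h, zero_add]
        constructor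
        · intro hx
          refine ⟨?_, Or.inr hx⟩
          rintro rfl
          exact hai h
        · rintro ⟨_, h3 | h3⟩
          · exact absurd rfl h3
          · exact h3
      · subst h
        simp [hopp]

/-- Two strongly orthogonal roots of `D_l` with the same support are orthogonal. -/
theorem so_same {l : ℕ} {a b : Fin l → ℝ} (ha : a ∈ rootsD l) (hb : b ∈ rootsD l)
    (hne : a ≠ b) (hne' : a + b ≠ 0) (hs : sp a = sp b) :
    ∃ i j : Fin l, i ≠ j ∧ sp a = {i, j} ∧ a i = b i ∧ a j = - b j ∧
      (a i = 1 ∨ a i = -1) ∧ (a j = 1 ∨ a j = -1) := by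
  classical
  rw [mem_rootsD_iff] at ha hb
  obtain ⟨ha1, ha2⟩ := ha
  obtain ⟨hb1, hb2⟩ := hb
  obtain ⟨i, j, hij, hsp⟩ := card_eq_two.1 ha2
  have hai : a i ≠ 0 := mem_sp.1 (by rw [hsp]; simp)
  have haj : a j ≠ 0 := mem_sp.1 (by rw [hsp]; simp)
  have hbi : b i ≠ 0 := mem_sp.1 (by rw [← hs, hsp]; simp)
  have hbj : b j ≠ 0 := mem_sp.1 (by rw [← hs, hsp]; simp)
  have hai' := (ha1 i).resolve_left hai
  have haj' := (ha1 j).resolve_left haj
  have hbi' := (hb1 i).resolve_left hbi
  have hbj' := (hb1 j).resolve_left hbj
  have hout : ∀ x, x ≠ i → x ≠ j → a x = 0 ∧ b x = 0 := by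
    intro x hxi hxj
    have hx : x ∉ sp a := by rw [hsp]; simp [hxi, hxj]
    refine ⟨?_, ?_⟩
    · rwa [mem_sp, not_not] at hx
    · rwa [hs, mem_sp, not_not] at hx
  have heqi : a i = b i ∨ a i = - b i := by
    rcases hai' with h | h <;> rcases hbi' with h' | h' <;> rw [h, h'] <;> norm_num
  have heqj : a j = b j ∨ a j = - b j := by
    rcases haj' with h | h <;> rcases hbj' with h' | h' <;> rw [h, h'] <;> norm_num
  rcases heqi with h1 | h1
  · rcases heqj with h2 | h2
    · exfalso
      apply hne
      funext x
      by_cases hxi : x = i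
      · rw [hxi, h1]
      · by_cases hxj : x = j
        · rw [hxj, h2]
        · rw [(hout x hxi hxj).1, (hout x hxi hxj).2]
    · exact ⟨i, j, hij, hsp, h1, h2, hai', haj'⟩
  · rcases heqj with h2 | h2
    · exact ⟨j, i, hij.symm, by rw [hsp, pair_comm], h2, h1, haj', hai'⟩
    · exfalso
      apply hne'
      funext x
      simp only [Pi.add_apply, Pi.zero_apply]
      by_cases hxi : x = i
      · rw [hxi, h1, neg_add_cancel]
      · by_cases hxj : x = j
        · rw [hxj, h2, neg_add_cancel]
        · rw [(hout x hxi hxj).1, (hout x hxi hxj).2, add_zero]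

end Pool.Agent.helper54.SOG
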