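import Pool.Agent.helper54.SOG.Frame

/-!
Structure of a simply laced root system with respect to a frame.
-/

namespace Pool.Agent.helper54.SOG

open Finset

section

variable {E : Type*} [NormedAddCommGroup E] [InnerProductSpace ℝ E] {R : Set E} {c : ℝ}

theorem eq_zero_of_orth (hR : Submodule.span ℝ R = ⊤) {x : E} (hx : ∀ r ∈ R, inner ℝ r x = 0) :
    x = 0 := by
  have h1 : ∀ u ∈ Submodule.span ℝ R, inner ℝ u x = 0 := by
    intro u hu
    induction hu using Submodule.span_induction with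
    | mem s hs => exact hx s hs
    | zero => rw [inner_zero_left]
    | add a b _ _ ha hb => rw [inner_add_left, ha, hb, add_zero]
    | smul r a _ ha => rw [inner_smul_left, ha, mul_zero]
  exact inner_self_eq_zero.1 (h1 x (by rw [hR]; exact Submodule.mem_top))

/-- coordinates are in `ℤ/2`, with constant parity -/
theorem Frame.quarter (h : SL R c) {l : ℕ} (hl : 2 ≤ l) {e : Fin l → E} (F : Frame R c e)
    {g : E} (hg : g ∈ R) : ∃ n : Fin l → ℤ, (∀ i, inner ℝ g (e i) = n i * (c / 4)) ∧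
      ∀ i j, ∃ q, n i - n j = 2 * q := by
  have hc := h.pos
  have hnt : Nontrivial (Fin l) := Fin.nontrivial_iff_two_le.2 hl
  have h1 : ∀ i, ∃ n : ℤ, inner ℝ g (e i) = n * (c / 4) := by
    intro i
    obtain ⟨j, hj⟩ := exists_ne i
    obtain ⟨p, hp⟩ := h.integral _ (F.add i j (Ne.symm hj)) g hg
    obtain ⟨q, hq⟩ := h.integral _ (F.sub i j (Ne.symm hj)) g hg
    rw [inner_add_right] at hp
    rw [inner_sub_right] at hq
    refine ⟨p + q, ?_⟩
    push_cast
    rw [← hp, ← hq]
    field_simp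
    ring
  choose n hn using h1
  refine ⟨n, hn, ?_⟩
  intro i j
  by_cases hij : i = j
  · exact ⟨0, by rw [hij]; ring⟩
  · obtain ⟨q, hq⟩ := h.integral _ (F.sub i j hij) g hg
    refine ⟨q, ?_⟩
    rw [inner_sub_right, hn, hn] at hq
    have h2 : ((n i : ℝ) - n j) = 2 * q := by
      rw [← hq]
      field_simp
      ring
    exact_mod_cast h2

/-- orthogonal projection to the span of a frame -/
theorem Frame.proj {l : ℕ} {e : Fin l → E} (hn : ∀ i, inner ℝ (e i) (e i) = c / 2)
    (ho : ∀ i j, i ≠ j → inner ℝ (e i) (e j) = 0) (g : E) (a : Fin l → ℝ)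
    (ha : ∀ i, inner ℝ g (e i) = a i * (c / 2)) :
    (∀ j, inner ℝ (e j) (g - ∑ i, a i • e i) = 0) ∧
      inner ℝ (g - ∑ i, a i • e i) (g - ∑ i, a i • e i) =
        inner ℝ g g - (c / 2) * ∑ i, a i ^ 2 := by
  have h1 : ∀ j, inner ℝ (e j) (∑ i, a i • e i) = a j * (c / 2) := by
    intro j
    rw [inner_sum, sum_eq_single j]
    · rw [inner_smul_right, hn]
    · intro i _ hij
      rw [inner_smul_right, ho j i (Ne.symm hij), mul_zero]
    · intro h0; exact absurd (mem_univ j) h0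
  have h2 : ∀ j, inner ℝ (e j) (g - ∑ i, a i • e i) = 0 := by
    intro j
    rw [inner_sub_right, h1, real_inner_comm, ha, sub_self]
  refine ⟨h2, ?_⟩
  have h3 : inner ℝ (∑ i, a i • e i) (g - ∑ i, a i • e i) = 0 := by
    rw [sum_inner]
    apply sum_eq_zero
    intro i _
    rw [inner_smul_left, h2, mul_zero]
  rw [inner_sub_left, h3, sub_zero, inner_sub_right, inner_sum]
  congr 1
  rw [mul_sum]
  apply sum_congr rfl
  intro i _
  rw [inner_smul_right, ha]
  ring

/-- roots with half integral coordinates -/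
theorem Frame.half (h : SL R c) {l : ℕ} {e : Fin l → E} (F : Frame R c e)
    {g : E} (hg : g ∈ R) {n : Fin l → ℤ} (hn : ∀ i, inner ℝ g (e i) = n i * (c / 4))
    (hodd : ∀ i, n i % 2 = 1) :
    (∀ i, n i = 1 ∨ n i = -1) ∧ ∃ x, (∀ j, inner ℝ (e j) x = 0) ∧
      inner ℝ x x = c - l * (c / 8) ∧ g = (1 / 2 : ℝ) • (∑ i, (n i : ℝ) • e i) + x := by
  have hc := h.pos
  obtain ⟨h1, h2⟩ := Frame.proj F.norm F.orth g (fun i => (n i : ℝ) / 2)
    (fun i => by rw [hn]; ring)
  have h3 : 0 ≤ inner ℝ g g - (c / 2) * ∑ i, ((n i : ℝ) / 2) ^ 2 := by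
    rw [← h2]; exact real_inner_self_nonneg
  have h4 : ∀ i, n i = 1 ∨ n i = -1 := by
    intro i
    by_contra hcon
    rw [not_or] at hcon
    have h5 : (9 : ℤ) ≤ n i ^ 2 := by
      have h6 := hodd i
      have h7 : 3 ≤ n i ∨ n i ≤ -3 := by omega
      rcases h7 with h7 | h7 <;> nlinarith
    have h5' : (9 : ℝ) ≤ (n i : ℝ) ^ 2 := by exact_mod_cast h5
    have h6 : ((n i : ℝ) / 2) ^ 2 ≤ ∑ i, ((n i : ℝ) / 2) ^ 2 :=
      single_le_sum (f := fun i => ((n i : ℝ) / 2) ^ 2) (fun j _ => sq_nonneg _) (mem_univ i)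
    rw [h.norm g hg] at h3
    nlinarith
  refine ⟨h4, g - ∑ i, ((n i : ℝ) / 2) • e i, h1, ?_, ?_⟩
  · rw [h2, h.norm g hg]
    have h5 : ∀ i, ((n i : ℝ) / 2) ^ 2 = 1 / 4 := by
      intro i
      rcases h4 i with h6 | h6 <;> rw [h6] <;> norm_num
    rw [sum_congr rfl (fun i _ => h5 i), sum_const, card_univ, Fintype.card_fin, nsmul_eq_mul]
    ring
  · rw [smul_sum]
    have h5 : ∀ i, (1 / 2 : ℝ) • ((n i : ℝ) • e i) = ((n i : ℝ) / 2) • e i := by
      intro i
      rw [smul_smul]
      congr 1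
      ring
    rw [sum_congr rfl (fun i _ => h5 i)]
    abel

/-- If the frame spans and `l < 8`, `l ≥ 2`, then `R` is the subsystem of type `D_l`. -/
theorem Frame.eq_dset_of_span (h : SL R c) {l : ℕ} (hl : 2 ≤ l) (hl8 : l < 8) {e : Fin l → E}
    (F : Frame R c e) (hsp : ∀ x, (∀ i, inner ℝ (e i) x = 0) → x = 0) : R = Dset e := by
  have hc := h.pos
  apply Set.Subset.antisymm
  · intro g hg
    obtain ⟨n, hn, hpar⟩ := F.quarter h hl hg
    by_cases hint : ∀ i, n i % 2 = 0
    · have h1 : ∀ i, ∃ z : ℤ, inner ℝ g (e i) = z * (c / 2) := by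
        intro i
        refine ⟨n i / 2, ?_⟩
        have h2 : n i = 2 * (n i / 2) := by have := hint i; omega
        have h3 : ((n i : ℤ) : ℝ) = 2 * ((n i / 2 : ℤ) : ℝ) := by exact_mod_cast h2
        rw [hn, h3]; ring
      rcases F.int_cases h hl hg h1 with h2 | h2 | ⟨x, h2⟩
      · have h3 := hsp g (fun i => by rw [real_inner_comm]; exact h2 i)
        exact absurd h3 (h.ne_zero hg)
      · exact h2
      · exfalso
        have h3 : x = 0 := by
          apply hsp
          intro i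
          have h4 := h2.orth (Fin.castSucc i) (Fin.last l) (Fin.castSucc_lt_last i).ne
          rwa [Fin.snoc_castSucc, Fin.snoc_last] at h4
        have h5 := h2.norm (Fin.last l)
        rw [Fin.snoc_last, h3, inner_zero_left] at h5
        linarith
    · exfalso
      push Not at hint
      obtain ⟨i, hi⟩ := hint
      have hodd : ∀ j, n j % 2 = 1 := by
        intro j
        obtain ⟨q, hq⟩ := hpar i j
        omega
      obtain ⟨_, x, hx1, hx2, _⟩ := F.half h hg hn hodd
      rw [hsp x hx1, inner_zero_left] at hx2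
      have h3 : (l : ℝ) < 8 := by exact_mod_cast hl8
      nlinarith
  · exact F.dset_subset h

/-- frame of length two from two orthogonal roots -/
theorem frame_two (h : SL R c) {a b : E} (ha : a ∈ R) (hb : b ∈ R) (hab : inner ℝ a b = 0) :
    Frame R c ![(1 / 2 : ℝ) • (a + b), (1 / 2 : ℝ) • (a - b)] := by
  have hba : inner ℝ b a = 0 := by rw [real_inner_comm]; exact hab
  have e1 : (1 / 2 : ℝ) • (a + b) + (1 / 2 : ℝ) • (a - b) = a := by module
  have e2 : (1 / 2 : ℝ) • (a + b) - (1 / 2 : ℝ) • (a - b) = b := by module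
  have e3 : inner ℝ ((1 / 2 : ℝ) • (a + b)) ((1 / 2 : ℝ) • (a + b)) = c / 2 := by
    rw [inner_smul_left, inner_smul_right, real_inner_add_add_self, h.norm a ha, h.norm b hb, hab]
    simp only [conj_trivial]
    ring
  have e4 : inner ℝ ((1 / 2 : ℝ) • (a - b)) ((1 / 2 : ℝ) • (a - b)) = c / 2 := by
    rw [inner_smul_left, inner_smul_right, real_inner_sub_sub_self, h.norm a ha, h.norm b hb, hab]
    simp only [conj_trivial]
    ring
  have e5 : inner ℝ ((1 / 2 : ℝ) • (a + b)) ((1 / 2 : ℝ) • (a - b)) = 0 := by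
    rw [inner_smul_left, inner_smul_right, inner_add_left, inner_sub_right, inner_sub_right,
      h.norm a ha, h.norm b hb, hab, hba]
    ring
  constructor
  · intro i
    fin_cases i
    · exact e3
    · exact e4
  · intro i j hij
    fin_cases i <;> fin_cases j
    · exact absurd rfl hij
    · exact e5
    · rw [real_inner_comm]; exact e5
    · exact absurd rfl hij
  · intro i j hij
    fin_cases i <;> fin_cases j
    · exact absurd rfl hij
    · change (1 / 2 : ℝ) • (a + b) + (1 / 2 : ℝ) • (a - b) ∈ R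
      rw [e1]; exact ha
    · change (1 / 2 : ℝ) • (a - b) + (1 / 2 : ℝ) • (a + b) ∈ R
      rw [add_comm, e1]; exact ha
    · exact absurd rfl hij
  · intro i j hij
    fin_cases i <;> fin_cases j
    · exact absurd rfl hij
    · change (1 / 2 : ℝ) • (a + b) - (1 / 2 : ℝ) • (a - b) ∈ R
      rw [e2]; exact hb
    · change (1 / 2 : ℝ) • (a - b) - (1 / 2 : ℝ) • (a + b) ∈ R
      have h3 := h.neg_mem hb
      rw [← e2, neg_sub] at h3
      exact h3
    · exact absurd rfl hij

/-- frame of length three from two orthogonal roots -/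
theorem frame_three (h : SL R c) (hi : IsIrred R) {a b : E} (ha : a ∈ R) (hb : b ∈ R)
    (hab : inner ℝ a b = 0) : ∃ x, Frame R c
      (Fin.snoc ![(1 / 2 : ℝ) • (a + b), (1 / 2 : ℝ) • (a - b)] x : Fin 3 → E) := by
  have hba : inner ℝ b a = 0 := by rw [real_inner_comm]; exact hab
  obtain ⟨g, hg, hga, hgb⟩ := h.exists_common hi ha hb hab
  have F := frame_two h ha hb hab
  have g0 : inner ℝ g ((1 / 2 : ℝ) • (a + b)) = c / 2 := by
    rw [inner_smul_right, inner_add_right, hga, hgb]; ring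
  have g1 : inner ℝ g ((1 / 2 : ℝ) • (a - b)) = 0 := by
    rw [inner_smul_right, inner_sub_right, hga, hgb]; ring
  have n0 : inner ℝ ((1 / 2 : ℝ) • (a + b)) ((1 / 2 : ℝ) • (a + b)) = c / 2 := F.norm 0
  have n1 : inner ℝ ((1 / 2 : ℝ) • (a + b)) ((1 / 2 : ℝ) • (a - b)) = 0 :=
    F.orth 0 1 (by decide)
  refine ⟨g - (1 / 2 : ℝ) • (a + b), F.extend h le_rfl (i₀ := 0) ?_ ?_ ?_⟩
  · rw [real_inner_sub_sub_self, g0, n0, h.norm g hg]; ring
  · intro j
    fin_cases j
    · change inner ℝ ((1 / 2 : ℝ) • (a + b)) (g - (1 / 2 : ℝ) • (a + b)) = 0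
      rw [inner_sub_right, n0, real_inner_comm, g0, sub_self]
    · change inner ℝ ((1 / 2 : ℝ) • (a - b)) (g - (1 / 2 : ℝ) • (a + b)) = 0
      rw [inner_sub_right, real_inner_comm, g1, real_inner_comm, n1, sub_self]
  · change (1 / 2 : ℝ) • (a + b) + (g - (1 / 2 : ℝ) • (a + b)) ∈ R
    rw [add_sub_cancel]; exact hg

/-- frame of length four from four orthogonal roots, half of whose sum is a root -/
theorem frame_four (h : SL R c) {a b x y : E} (ha : a ∈ R) (hb : b ∈ R) (hx : x ∈ R) (hy : y ∈ R)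
    (hab : inner ℝ a b = 0) (hax : inner ℝ a x = 0) (hay : inner ℝ a y = 0)
    (hbx : inner ℝ b x = 0) (hby : inner ℝ b y = 0) (hxy : inner ℝ x y = 0)
    (hg : (1 / 2 : ℝ) • (a + b + x + y) ∈ R) :
    Frame R c (Fin.snoc (Fin.snoc ![(1 / 2 : ℝ) • (a + b), (1 / 2 : ℝ) • (a - b)]
      ((1 / 2 : ℝ) • (x + y)) : Fin 3 → E) ((1 / 2 : ℝ) • (x - y)) : Fin 4 → E) := by
  have F := frame_two h ha hb hab
  have G := frame_two h hx hy hxy
  have n2 : inner ℝ ((1 / 2 : ℝ) • (x + y)) ((1 / 2 : ℝ) • (x + y)) = c / 2 := G.norm 0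
  have n3 : inner ℝ ((1 / 2 : ℝ) • (x - y)) ((1 / 2 : ℝ) • (x - y)) = c / 2 := G.norm 1
  have n23 : inner ℝ ((1 / 2 : ℝ) • (x + y)) ((1 / 2 : ℝ) • (x - y)) = 0 :=
    G.orth 0 1 (by decide)
  have F3 : Frame R c (Fin.snoc ![(1 / 2 : ℝ) • (a + b), (1 / 2 : ℝ) • (a - b)]
      ((1 / 2 : ℝ) • (x + y)) : Fin 3 → E) := by
    refine F.extend h le_rfl (i₀ := 0) n2 ?_ ?_
    · intro j
      fin_cases j
      · change inner ℝ ((1 / 2 : ℝ) • (a + b)) ((1 / 2 : ℝ) • (x + y)) = 0
        rw [inner_smul_left, inner_smul_right, inner_add_left, inner_add_right, inner_add_right,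
          hax, hay, hbx, hby]
        ring
      · change inner ℝ ((1 / 2 : ℝ) • (a - b)) ((1 / 2 : ℝ) • (x + y)) = 0
        rw [inner_smul_left, inner_smul_right, inner_sub_left, inner_add_right, inner_add_right,
          hax, hay, hbx, hby]
        ring
    · change (1 / 2 : ℝ) • (a + b) + (1 / 2 : ℝ) • (x + y) ∈ R
      have h1 : (1 / 2 : ℝ) • (a + b) + (1 / 2 : ℝ) • (x + y) = (1 / 2 : ℝ) • (a + b + x + y) := by
        module
      rw [h1]; exact hg
  refine F3.extend h (by norm_num) (i₀ := Fin.last 2) n3 ?_ ?_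
  · intro j
    refine Fin.lastCases ?_ (fun j => ?_) j
    · rw [Fin.snoc_last]; exact n23
    · rw [Fin.snoc_castSucc]
      fin_cases j
      · change inner ℝ ((1 / 2 : ℝ) • (a + b)) ((1 / 2 : ℝ) • (x - y)) = 0
        rw [inner_smul_left, inner_smul_right, inner_add_left, inner_sub_right, inner_sub_right,
          hax, hay, hbx, hby]
        ring
      · change inner ℝ ((1 / 2 : ℝ) • (a - b)) ((1 / 2 : ℝ) • (x - y)) = 0
        rw [inner_smul_left, inner_smul_right, inner_sub_left, inner_sub_right, inner_sub_right,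
          hax, hay, hbx, hby]
        ring
  · rw [Fin.snoc_last]
    have h1 : (1 / 2 : ℝ) • (x + y) + (1 / 2 : ℝ) • (x - y) = x := by module
    rw [h1]; exact hx

end

end Pool.Agent.helper54.SOG
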