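import Pool.Agent.helper54.SOG.Defs

namespace Pool.Agent.helper54.SOG

open Finset

theorem sosSums_one {E : Type*} [AddCommGroup E] (R : Set E) : sosSums R 1 = R := by
  ext v
  constructor
  · rintro ⟨S, hc, hS, rfl⟩
    obtain ⟨a, rfl⟩ := card_eq_one.1 hc
    rw [sum_singleton]
    exact hS.1 a (mem_singleton_self a)
  · intro hv
    refine ⟨{v}, card_singleton v, ⟨?_, ?_⟩, sum_singleton _ _⟩
    · intro a ha
      rw [mem_singleton] at ha
      rw [ha]; exact hv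
    · intro a ha b hb hab
      rw [mem_singleton] at ha hb
      exact absurd (ha.trans hb.symm) hab

/-- coordinates of the roots of `A_2` -/
def PA (x y z : ℝ) : Prop :=
  (x = 1 ∧ y = -1 ∧ z = 0) ∨ (x = -1 ∧ y = 1 ∧ z = 0) ∨ (x = 1 ∧ y = 0 ∧ z = -1) ∨
  (x = -1 ∧ y = 0 ∧ z = 1) ∨ (x = 0 ∧ y = 1 ∧ z = -1) ∨ (x = 0 ∧ y = -1 ∧ z = 1)

/-- coordinates of the long roots of `G_2` -/
def PL (x y z : ℝ) : Prop :=
  (x = 2 ∧ y = -1 ∧ z = -1) ∨ (x = -2 ∧ y = 1 ∧ z = 1) ∨ (x = -1 ∧ y = 2 ∧ z = -1) ∨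
  (x = 1 ∧ y = -2 ∧ z = 1) ∨ (x = -1 ∧ y = -1 ∧ z = 2) ∨ (x = 1 ∧ y = 1 ∧ z = -2)

theorem eq_vec (v : Fin 3 → ℝ) : v = ![v 0, v 1, v 2] := by
  funext i; fin_cases i <;> rfl

theorem vec_eq_iff (v w : Fin 3 → ℝ) : v = w ↔ v 0 = w 0 ∧ v 1 = w 1 ∧ v 2 = w 2 := by
  constructor
  · rintro rfl; exact ⟨rfl, rfl, rfl⟩
  · rintro ⟨h0, h1, h2⟩
    rw [eq_vec v, eq_vec w, h0, h1, h2]

theorem mem_A (v : Fin 3 → ℝ) : v ∈ rootsA 3 ↔ PA (v 0) (v 1) (v 2) := by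
  constructor
  · rintro ⟨i, j, hij, rfl⟩
    fin_cases i <;> fin_cases j <;> simp [PA, Pi.single_apply] at hij ⊢
  · rintro (⟨h0, h1, h2⟩ | ⟨h0, h1, h2⟩ | ⟨h0, h1, h2⟩ | ⟨h0, h1, h2⟩ | ⟨h0, h1, h2⟩ |
      ⟨h0, h1, h2⟩)
    · exact ⟨0, 1, by decide, by rw [vec_eq_iff]; simp [h0, h1, h2, Pi.single_apply]⟩
    · exact ⟨1, 0, by decide, by rw [vec_eq_iff]; simp [h0, h1, h2, Pi.single_apply]⟩
    · exact ⟨0, 2, by decide, by rw [vec_eq_iff]; simp [h0, h1, h2, Pi.single_apply]⟩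
    · exact ⟨2, 0, by decide, by rw [vec_eq_iff]; simp [h0, h1, h2, Pi.single_apply]⟩
    · exact ⟨1, 2, by decide, by rw [vec_eq_iff]; simp [h0, h1, h2, Pi.single_apply]⟩
    · exact ⟨2, 1, by decide, by rw [vec_eq_iff]; simp [h0, h1, h2, Pi.single_apply]⟩

theorem mem_G2 (v : Fin 3 → ℝ) : v ∈ rootsG2 ↔ PA (v 0) (v 1) (v 2) ∨ PL (v 0) (v 1) (v 2) := by
  unfold rootsG2
  rw [Set.mem_union, mem_A]
  apply or_congr Iff.rfl
  constructor
  · rintro ⟨i, j, k, hij, hik, hjk, s, hs, rfl⟩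
    fin_cases i <;> fin_cases j <;> fin_cases k <;>
      simp at hij hik hjk <;>
      rcases hs with rfl | rfl <;>
      simp [PL, Pi.single_apply]
  · rintro (⟨h0, h1, h2⟩ | ⟨h0, h1, h2⟩ | ⟨h0, h1, h2⟩ | ⟨h0, h1, h2⟩ | ⟨h0, h1, h2⟩ |
      ⟨h0, h1, h2⟩)
    · exact ⟨0, 1, 2, by decide, by decide, by decide, 1, Or.inl rfl, by
        rw [vec_eq_iff]; simp [h0, h1, h2, Pi.single_apply]⟩
    · exact ⟨0, 1, 2, by decide, by decide, by decide, -1, Or.inr rfl, by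
        rw [vec_eq_iff]; simp [h0, h1, h2, Pi.single_apply]⟩
    · exact ⟨1, 0, 2, by decide, by decide, by decide, 1, Or.inl rfl, by
        rw [vec_eq_iff]; simp [h0, h1, h2, Pi.single_apply]⟩
    · exact ⟨1, 0, 2, by decide, by decide, by decide, -1, Or.inr rfl, by
        rw [vec_eq_iff]; simp [h0, h1, h2, Pi.single_apply]⟩
    · exact ⟨2, 0, 1, by decide, by decide, by decide, 1, Or.inl rfl, by
        rw [vec_eq_iff]; simp [h0, h1, h2, Pi.single_apply]⟩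
    · exact ⟨2, 0, 1, by decide, by decide, by decide, -1, Or.inr rfl, by
        rw [vec_eq_iff]; simp [h0, h1, h2, Pi.single_apply]⟩

/-- Two strongly orthogonal roots of `G_2` add up to twice a short root. -/
theorem so_G2 (a b : Fin 3 → ℝ) (ha : a ∈ rootsG2) (hb : b ∈ rootsG2) (hne : a ≠ b)
    (h0 : a + b ≠ 0) (h1 : a + b ∉ rootsG2) (h2 : a - b ∉ rootsG2) :
    PA ((a 0 + b 0) / 2) ((a 1 + b 1) / 2) ((a 2 + b 2) / 2) := by
  rw [mem_G2] at ha hb h1 h2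
  rw [Ne, vec_eq_iff] at hne h0
  simp only [Pi.add_apply, Pi.sub_apply, Pi.zero_apply] at h0 h1 h2
  generalize a 0 = a0 at *
  generalize a 1 = a1 at *
  generalize a 2 = a2 at *
  generalize b 0 = b0 at *
  generalize b 1 = b1 at *
  generalize b 2 = b2 at *
  unfold PA PL at *
  rcases ha with (⟨rfl, rfl, rfl⟩ | ⟨rfl, rfl, rfl⟩ | ⟨rfl, rfl, rfl⟩ | ⟨rfl, rfl, rfl⟩ |
    ⟨rfl, rfl, rfl⟩ | ⟨rfl, rfl, rfl⟩) | (⟨rfl, rfl, rfl⟩ | ⟨rfl, rfl, rfl⟩ |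
    ⟨rfl, rfl, rfl⟩ | ⟨rfl, rfl, rfl⟩ | ⟨rfl, rfl, rfl⟩ | ⟨rfl, rfl, rfl⟩) <;>
  rcases hb with (⟨rfl, rfl, rfl⟩ | ⟨rfl, rfl, rfl⟩ | ⟨rfl, rfl, rfl⟩ | ⟨rfl, rfl, rfl⟩ |
    ⟨rfl, rfl, rfl⟩ | ⟨rfl, rfl, rfl⟩) | (⟨rfl, rfl, rfl⟩ | ⟨rfl, rfl, rfl⟩ |
    ⟨rfl, rfl, rfl⟩ | ⟨rfl, rfl, rfl⟩ | ⟨rfl, rfl, rfl⟩ | ⟨rfl, rfl, rfl⟩) <;>
  first
    | (exfalso; apply hne; norm_num; done)
    | (exfalso; apply h0; norm_num; done)
    | (exfalso; apply h1; norm_num; done)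
    | (exfalso; apply h2; norm_num; done)
    | (norm_num; done)

/-- `Γ(A_2, 1) ≅ Γ(G_2, 2)`. -/
theorem iso_A2_G2 : Nonempty (sosGraph (rootsA 3) 1 ≃g sosGraph rootsG2 2) := by
  classical
  have hinj : Function.Injective
      (DistribSMul.toAddMonoidHom (Fin 3 → ℝ) (2 : ℝ)) := by
    intro v w hvw
    exact smul_right_injective _ (by norm_num : (2 : ℝ) ≠ 0) hvw
  apply iso_of_image (DistribSMul.toAddMonoidHom (Fin 3 → ℝ) (2 : ℝ)) hinj
  rw [sosSums_one]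
  ext v
  constructor
  · rintro ⟨a, ha, rfl⟩
    rw [DistribSMul.toAddMonoidHom_apply]
    -- 2 (e_i - e_j) = (e_k - e_j) + (2 e_i - e_j - e_k)
    obtain ⟨i, j, hij, rfl⟩ := ha
    obtain ⟨k, hki, hkj⟩ : ∃ k : Fin 3, k ≠ i ∧ k ≠ j := by
      revert i j; decide
    have hs : (Pi.single k 1 - Pi.single j 1 : Fin 3 → ℝ) ∈ rootsG2 := Or.inl ⟨k, j, hkj, rfl⟩
    have hl : (Pi.single i (2 * 1) - Pi.single j 1 - Pi.single k 1 : Fin 3 → ℝ) ∈ rootsG2 :=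
      Or.inr ⟨i, j, k, hij, hki.symm, hkj.symm, 1, Or.inl rfl, rfl⟩
    set a : Fin 3 → ℝ := Pi.single k 1 - Pi.single j 1 with ha
    set b : Fin 3 → ℝ := Pi.single i (2 * 1) - Pi.single j 1 - Pi.single k 1 with hb
    have hai : a i = 0 := by simp [ha, Pi.single_apply, hki.symm, hij]
    have haj : a j = -1 := by simp [ha, Pi.single_apply, hkj.symm]
    have hak : a k = 1 := by simp [ha, Pi.single_apply, hkj]
    have hbi : b i = 2 := by simp [hb, Pi.single_apply, hki.symm, hij]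
    have hbj : b j = -1 := by simp [hb, Pi.single_apply, hkj.symm, hij.symm]
    have hbk : b k = -1 := by simp [hb, Pi.single_apply, hki, hkj]
    have hG : ∀ w : Fin 3 → ℝ, w ∈ rootsG2 →
        (w 0) ^ 2 + (w 1) ^ 2 + (w 2) ^ 2 = 2 ∨ (w 0) ^ 2 + (w 1) ^ 2 + (w 2) ^ 2 = 6 := by
      intro w hw
      rw [mem_G2] at hw
      unfold PA PL at hw
      rcases hw with (⟨h0, h1, h2⟩ | ⟨h0, h1, h2⟩ | ⟨h0, h1, h2⟩ | ⟨h0, h1, h2⟩ |
        ⟨h0, h1, h2⟩ | ⟨h0, h1, h2⟩) | (⟨h0, h1, h2⟩ | ⟨h0, h1, h2⟩ |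
        ⟨h0, h1, h2⟩ | ⟨h0, h1, h2⟩ | ⟨h0, h1, h2⟩ | ⟨h0, h1, h2⟩) <;>
      rw [h0, h1, h2] <;> norm_num
    have hsum : ∀ w : Fin 3 → ℝ, (w 0) ^ 2 + (w 1) ^ 2 + (w 2) ^ 2
        = (w i) ^ 2 + (w j) ^ 2 + (w k) ^ 2 := by
      intro w
      clear_value a b
      clear hG hs hl hai haj hak hbi hbj hbk ha hb
      fin_cases i <;> fin_cases j <;> fin_cases k <;> simp at hij hki hkj ⊢ <;> ring
    have habs : a + b = (2 : ℝ) • (Pi.single i 1 - Pi.single j 1 : Fin 3 → ℝ) := by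
      funext x
      simp only [ha, hb, Pi.add_apply, Pi.sub_apply, Pi.smul_apply, smul_eq_mul,
        Pi.single_apply]
      split_ifs <;> norm_num
    have e1 : a + b ∉ rootsG2 := by
      intro h0
      have := hG _ h0
      rw [hsum] at this
      simp only [Pi.add_apply, hai, haj, hak, hbi, hbj, hbk] at this
      norm_num at this
    have e2 : a - b ∉ rootsG2 := by
      intro h0
      have := hG _ h0
      rw [hsum] at this
      simp only [Pi.sub_apply, hai, haj, hak, hbi, hbj, hbk] at this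
      norm_num at this
    have e3 : a + b ≠ 0 := by
      intro h0
      have := congrFun h0 i
      simp only [Pi.add_apply, hai, hbi, Pi.zero_apply] at this
      norm_num at this
    have e4 : a ≠ b := by
      intro h0
      have := congrFun h0 i
      rw [hai, hbi] at this
      norm_num at this
    have e5 : b - a ∉ rootsG2 := by
      intro h0
      have := hG _ h0
      rw [hsum] at this
      simp only [Pi.sub_apply, hai, haj, hak, hbi, hbj, hbk] at this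
      norm_num at this
    refine ⟨{a, b}, card_pair e4, ⟨?_, ?_⟩, by rw [sum_pair e4, habs]⟩
    · intro c hc
      rw [mem_insert, mem_singleton] at hc
      rcases hc with rfl | rfl
      · exact hs
      · exact hl
    · intro c hc d hd hcd
      rw [mem_insert, mem_singleton] at hc hd
      rcases hc with rfl | rfl <;> rcases hd with rfl | rfl
      · exact absurd rfl hcd
      · exact ⟨e3, e1, e2⟩
      · rw [add_comm]; exact ⟨e3, e1, e5⟩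
      · exact absurd rfl hcd
  · rintro ⟨S, hc, hS, rfl⟩
    obtain ⟨a, b, hab, rfl⟩ := card_eq_two.1 hc
    rw [sum_pair hab]
    obtain ⟨h0, h1, h2⟩ := hS.2 a (by simp) b (by simp) hab
    have h3 := so_G2 a b (hS.1 a (by simp)) (hS.1 b (by simp)) hab h0 h1 h2
    refine ⟨(1 / 2 : ℝ) • (a + b), ?_, ?_⟩
    · rw [mem_A]
      have e : ∀ x, ((1 / 2 : ℝ) • (a + b)) x = (a x + b x) / 2 := by
        intro x
        rw [Pi.smul_apply, Pi.add_apply, smul_eq_mul]; ring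
      rw [e, e, e]
      exact h3
    · rw [DistribSMul.toAddMonoidHom_apply, smul_smul]
      norm_num

/-- `Γ(A_2, 1)` has an edge. -/
theorem edge_A2 : ∃ v w : sosSums (rootsA 3) 1, (sosGraph (rootsA 3) 1).Adj v w := by
  refine ⟨⟨Pi.single 0 1 - Pi.single 1 1, ?_⟩, ⟨Pi.single 0 1 - Pi.single 2 1, ?_⟩, ?_⟩
  · rw [sosSums_one]; exact ⟨0, 1, by decide, rfl⟩
  · rw [sosSums_one]; exact ⟨0, 2, by decide, rfl⟩
  · rw [adj_iff]
    refine ⟨?_, Or.inl ?_⟩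
    · intro h
      have h1 := congrFun (congrArg Subtype.val h) 1
      simp at h1
    · have h : (Pi.single 0 1 - Pi.single 1 1 : Fin 3 → ℝ) - (Pi.single 0 1 - Pi.single 2 1)
          ∈ sosSums (rootsA 3) 1 := by
        rw [sosSums_one]
        exact ⟨2, 1, by decide, by simp⟩
      exact h

end Pool.Agent.helper54.SOG
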