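import Pool.Agent.helper54.SOG.Back
import Pool.Agent.helper54.SOG.G2

namespace Pool.Agent.helper54.SOG

open Finset

/-- Scaling by two: `Γ(D_l, 1) ≅ Γ(D_l, 4)` for `l = 4, 5`. -/
theorem iso_D_one_four {l : ℕ} (h1 : 4 ≤ l) (h2 : l ≤ 5) :
    Nonempty (sosGraph (rootsD l) 1 ≃g sosGraph (rootsD l) 4) := by
  have hinj : Function.Injective
      (DistribSMul.toAddMonoidHom (Fin l → ℝ) (2 : ℝ)) := by
    intro v w hvw
    exact smul_right_injective _ (by norm_num : (2 : ℝ) ≠ 0) hvw
  apply iso_of_image (DistribSMul.toAddMonoidHom (Fin l → ℝ) (2 : ℝ)) hinj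
  have h3 := sosSums_D_full (l := l) (h := 2) (by omega) (by omega)
  rw [show 2 * 2 = 4 from rfl] at h3
  rw [h3, sosSums_one]
  ext v
  constructor
  · rintro ⟨a, ha, rfl⟩
    exact ⟨a, (mem_rootsD_iff a).1 ha, rfl⟩
  · rintro ⟨a, ha, rfl⟩
    exact ⟨a, (mem_rootsD_iff a).2 ha, rfl⟩

/-- `Γ(D_l, 1)` has an edge for `l ≥ 3`. -/
theorem edge_D_one {l : ℕ} (h : 3 ≤ l) :
    ∃ v w : sosSums (rootsD l) 1, (sosGraph (rootsD l) 1).Adj v w := by
  let i : Fin l := ⟨0, by omega⟩
  let j : Fin l := ⟨1, by omega⟩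
  let k : Fin l := ⟨2, by omega⟩
  have hij : i ≠ j := by simp [i, j]
  have hik : i ≠ k := by simp [i, k]
  have hjk : j ≠ k := by simp [j, k]
  have e1 : (Pi.single i 1 + Pi.single j 1 : Fin l → ℝ) ∈ sosSums (rootsD l) 1 := by
    rw [sosSums_one]; exact ⟨i, j, hij, 1, 1, Or.inl rfl, Or.inl rfl, rfl⟩
  have e2 : (Pi.single i 1 + Pi.single k 1 : Fin l → ℝ) ∈ sosSums (rootsD l) 1 := by
    rw [sosSums_one]; exact ⟨i, k, hik, 1, 1, Or.inl rfl, Or.inl rfl, rfl⟩
  have e3 : (Pi.single i 1 + Pi.single j 1 : Fin l → ℝ) - (Pi.single i 1 + Pi.single k 1)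
      ∈ sosSums (rootsD l) 1 := by
    rw [sosSums_one]
    refine ⟨j, k, hjk, 1, -1, Or.inl rfl, Or.inr rfl, ?_⟩
    rw [Pi.single_neg]
    abel
  refine ⟨⟨_, e1⟩, ⟨_, e2⟩, ?_⟩
  rw [adj_iff]
  refine ⟨?_, Or.inl e3⟩
  intro h0
  have h1 := congrFun (congrArg Subtype.val h0) j
  simp [Pi.single_apply, hij.symm, hjk] at h1

/-- The similarity `x ↦ (x0 + x1, x0 - x1, x2 + x3, x2 - x3)`. -/
def simM : (Fin 4 → ℝ) →+ (Fin 4 → ℝ) where
  toFun x := ![x 0 + x 1, x 0 - x 1, x 2 + x 3, x 2 - x 3]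
  map_zero' := by
    funext i; fin_cases i <;> simp
  map_add' x y := by
    funext i; fin_cases i <;> simp <;> ring

theorem simM_0 (x : Fin 4 → ℝ) : simM x 0 = x 0 + x 1 := rfl
theorem simM_1 (x : Fin 4 → ℝ) : simM x 1 = x 0 - x 1 := rfl
theorem simM_2 (x : Fin 4 → ℝ) : simM x 2 = x 2 + x 3 := rfl
theorem simM_3 (x : Fin 4 → ℝ) : simM x 3 = x 2 - x 3 := rfl

theorem vec4_eq_iff (v w : Fin 4 → ℝ) :
    v = w ↔ v 0 = w 0 ∧ v 1 = w 1 ∧ v 2 = w 2 ∧ v 3 = w 3 := by
  constructor
  · rintro rfl; exact ⟨rfl, rfl, rfl, rfl⟩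
  · rintro ⟨h0, h1, h2, h3⟩
    funext i; fin_cases i <;> assumption

theorem simM_simM (x : Fin 4 → ℝ) : simM (simM x) = (2 : ℝ) • x := by
  rw [vec4_eq_iff]
  simp only [simM_0, simM_1, simM_2, simM_3, Pi.smul_apply, smul_eq_mul]
  refine ⟨?_, ?_, ?_, ?_⟩ <;> ring

theorem simM_injective : Function.Injective simM := by
  intro x y hxy
  have h : (2 : ℝ) • x = (2 : ℝ) • y := by rw [← simM_simM, ← simM_simM, hxy]
  exact smul_right_injective _ (by norm_num : (2 : ℝ) ≠ 0) h

theorem norm_simM (x : Fin 4 → ℝ) : ∑ i, simM x i * simM x i = 2 * ∑ i, x i * x i := by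
  rw [Fin.sum_univ_four, Fin.sum_univ_four]
  simp only [simM_0, simM_1, simM_2, simM_3]
  ring

theorem norm_rootsD {l : ℕ} {a : Fin l → ℝ} (ha : a ∈ rootsD l) : ∑ i, a i * a i = 2 := by
  classical
  obtain ⟨i, j, hij, s, t, hs, ht, rfl⟩ := ha
  have h : ∀ x, (Pi.single i s + Pi.single j t : Fin l → ℝ) x *
      (Pi.single i s + Pi.single j t : Fin l → ℝ) x
      = (if x = i then s * s else 0) + (if x = j then t * t else 0) := by
    intro x
    rw [Pi.add_apply, Pi.single_apply, Pi.single_apply]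
    by_cases hi : x = i
    · have hj : x ≠ j := fun h => hij (hi.symm.trans h)
      simp [hi, hij]
    · by_cases hj : x = j
      · simp [hj, hij.symm]
      · simp [hi, hj]
  rw [sum_congr rfl (fun x _ => h x), sum_add_distrib, sum_ite_eq' univ i, sum_ite_eq' univ j]
  simp only [mem_univ, if_true]
  rcases hs with h | h <;> rcases ht with h' | h' <;> rw [h, h'] <;> norm_num

theorem simM_single_mem (i : Fin 4) (s : ℝ) (hs : s = 1 ∨ s = -1) :
    simM (Pi.single i s) ∈ rootsD 4 := by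
  have hs' : -s = 1 ∨ -s = -1 := by
    rcases hs with h | h
    · right; rw [h]
    · left; rw [h, neg_neg]
  fin_cases i
  · refine ⟨0, 1, by decide, s, s, hs, hs, ?_⟩
    rw [vec4_eq_iff]; simp [simM_0, simM_1, simM_2, simM_3, Pi.single_apply]
  · refine ⟨0, 1, by decide, s, -s, hs, hs', ?_⟩
    rw [vec4_eq_iff]; simp [simM_0, simM_1, simM_2, simM_3, Pi.single_apply]
  · refine ⟨2, 3, by decide, s, s, hs, hs, ?_⟩
    rw [vec4_eq_iff]; simp [simM_0, simM_1, simM_2, simM_3, Pi.single_apply]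
  · refine ⟨2, 3, by decide, s, -s, hs, hs', ?_⟩
    rw [vec4_eq_iff]; simp [simM_0, simM_1, simM_2, simM_3, Pi.single_apply]

/-- entries of a sum of two strongly orthogonal roots of `D_4` -/
theorem half_simM_mem {v : Fin 4 → ℝ}
    (hv : (∃ x, (v x = 2 ∨ v x = -2) ∧ ∀ y, y ≠ x → v y = 0) ∨
      ∀ x, v x = 1 ∨ v x = -1) : (1 / 2 : ℝ) • simM v ∈ rootsD 4 := by
  have e : ∀ x, ((1 / 2 : ℝ) • simM v) x = simM v x / 2 := by
    intro x; rw [Pi.smul_apply, smul_eq_mul]; ring
  rcases hv with ⟨x, hx, hy⟩ | hv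
  · have key : ∀ s : ℝ, (s = 1 ∨ s = -1) → v = Pi.single x (2 * s) →
        (1 / 2 : ℝ) • simM v ∈ rootsD 4 := by
      intro s hs hvs
      have : (1 / 2 : ℝ) • simM v = simM (Pi.single x s) := by
        apply simM_injective
        have h2 : simM ((1 / 2 : ℝ) • simM v) = v := by
          rw [vec4_eq_iff]
          simp only [simM_0, simM_1, simM_2, simM_3, Pi.smul_apply, smul_eq_mul]
          refine ⟨?_, ?_, ?_, ?_⟩ <;> ring
        rw [h2, simM_simM, hvs]
        funext y
        rw [Pi.smul_apply, Pi.single_apply, Pi.single_apply, smul_eq_mul]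
        split_ifs <;> ring
      rw [this]
      exact simM_single_mem x s hs
    rcases hx with h | h
    · apply key 1 (Or.inl rfl)
      funext y
      by_cases hyx : y = x
      · rw [hyx, h, Pi.single_eq_same]; norm_num
      · rw [hy y hyx, Pi.single_eq_of_ne hyx]
    · apply key (-1) (Or.inr rfl)
      funext y
      by_cases hyx : y = x
      · rw [hyx, h, Pi.single_eq_same]; norm_num
      · rw [hy y hyx, Pi.single_eq_of_ne hyx]
  · have aux : ∀ p q : ℝ, (p = 1 ∨ p = -1) → (q = 1 ∨ q = -1) →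
        (((p + q) / 2 = 1 ∨ (p + q) / 2 = -1) ∧ (p - q) / 2 = 0) ∨
        (((p - q) / 2 = 1 ∨ (p - q) / 2 = -1) ∧ (p + q) / 2 = 0) := by
      rintro p q (rfl | rfl) (rfl | rfl) <;> norm_num
    rcases aux _ _ (hv 0) (hv 1) with ⟨h1, h2⟩ | ⟨h1, h2⟩ <;>
    rcases aux _ _ (hv 2) (hv 3) with ⟨h3, h4⟩ | ⟨h3, h4⟩
    · refine ⟨0, 2, by decide, _, _, h1, h3, ?_⟩
      rw [vec4_eq_iff, e, e, e, e, simM_0, simM_1, simM_2, simM_3]
      simp [Pi.single_apply, h2, h4]
    · refine ⟨0, 3, by decide, _, _, h1, h3, ?_⟩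
      rw [vec4_eq_iff, e, e, e, e, simM_0, simM_1, simM_2, simM_3]
      simp [Pi.single_apply, h2, h4]
    · refine ⟨1, 2, by decide, _, _, h1, h3, ?_⟩
      rw [vec4_eq_iff, e, e, e, e, simM_0, simM_1, simM_2, simM_3]
      simp [Pi.single_apply, h2, h4]
    · refine ⟨1, 3, by decide, _, _, h1, h3, ?_⟩
      rw [vec4_eq_iff, e, e, e, e, simM_0, simM_1, simM_2, simM_3]
      simp [Pi.single_apply, h2, h4]

/-- `Γ(D_4, 1) ≅ Γ(D_4, 2)`. -/
theorem iso_D4_one_two : Nonempty (sosGraph (rootsD 4) 1 ≃g sosGraph (rootsD 4) 2) := by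
  classical
  apply iso_of_image simM simM_injective
  rw [sosSums_one]
  ext v
  constructor
  · rintro ⟨a, ⟨i, j, hij, s, t, hs, ht, rfl⟩, rfl⟩
    have hn : ∀ c : ℝ, (c = 1 ∨ c = -1) →
        ∑ x, simM (Pi.single i s + Pi.single j (c * t)) x *
          simM (Pi.single i s + Pi.single j (c * t)) x = 4 := by
      intro c hc
      rw [norm_simM, norm_rootsD ⟨i, j, hij, s, c * t, hs, ?_, rfl⟩]
      · norm_num
      · rcases hc with h | h <;> rcases ht with h' | h' <;> rw [h, h'] <;> norm_num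
    have hnot : ∀ c : ℝ, (c = 1 ∨ c = -1) →
        simM (Pi.single i s) + simM (Pi.single j (c * t)) ∉ rootsD 4 ∧
        simM (Pi.single i s) + simM (Pi.single j (c * t)) ≠ 0 := by
      intro c hc
      rw [← map_add]
      constructor
      · intro h0
        have h1 := norm_rootsD h0
        rw [hn c hc] at h1
        norm_num at h1
      · intro h0
        have h1 := hn c hc
        rw [h0] at h1
        simp at h1
    have e1 := hnot 1 (Or.inl rfl)
    have e2 := hnot (-1) (Or.inr rfl)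
    rw [one_mul] at e1
    rw [neg_one_mul, Pi.single_neg, map_neg, ← sub_eq_add_neg] at e2
    have hab : simM (Pi.single i s) ≠ simM (Pi.single j t) := by
      intro h0
      exact e2.2 (by rw [h0, sub_self])
    have e3 : simM (Pi.single j t) - simM (Pi.single i s) ∉ rootsD 4 := by
      intro h0
      apply e2.1
      rw [mem_rootsD_iff] at h0 ⊢
      obtain ⟨h1, h2⟩ := h0
      refine ⟨?_, ?_⟩
      · intro x
        have := h1 x
        rw [Pi.sub_apply] at this ⊢
        rcases this with h | h | h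
        · left; linarith
        · right; right; linarith
        · right; left; linarith
      · rw [← h2]
        congr 1
        ext x
        rw [mem_sp, mem_sp, Pi.sub_apply, Pi.sub_apply, sub_ne_zero, sub_ne_zero]
        exact ne_comm
    refine ⟨{simM (Pi.single i s), simM (Pi.single j t)}, card_pair hab, ⟨?_, ?_⟩, ?_⟩
    · intro c hc
      rw [mem_insert, mem_singleton] at hc
      rcases hc with rfl | rfl
      · exact simM_single_mem i s hs
      · exact simM_single_mem j t ht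
    · intro c hc d hd hcd
      rw [mem_insert, mem_singleton] at hc hd
      rcases hc with rfl | rfl <;> rcases hd with rfl | rfl
      · exact absurd rfl hcd
      · exact ⟨e1.2, e1.1, e2.1⟩
      · rw [add_comm]; exact ⟨e1.2, e1.1, e3⟩
      · exact absurd rfl hcd
    · rw [sum_pair hab, map_add]
  · rintro ⟨S, hc, hS, rfl⟩
    obtain ⟨a, b, hab, rfl⟩ := card_eq_two.1 hc
    rw [sum_pair hab]
    have ha : a ∈ rootsD 4 := hS.1 a (by simp)
    have hb : b ∈ rootsD 4 := hS.1 b (by simp)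
    obtain ⟨h0, h1, h2⟩ := hS.2 a (by simp) b (by simp) hab
    refine ⟨(1 / 2 : ℝ) • simM (a + b), half_simM_mem ?_, ?_⟩
    · rcases so_support ha hb h1 h2 with h3 | h3
      · left
        obtain ⟨i, j, hij, hsp, hi, hj, hi', hj'⟩ := so_same ha hb hab h0 h3
        refine ⟨i, ?_, ?_⟩
        · rw [Pi.add_apply, ← hi]
          rcases hi' with h | h <;> rw [h] <;> norm_num
        · intro y hy
          rw [Pi.add_apply]
          by_cases hyj : y = j
          · rw [hyj, hj, neg_add_cancel]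
          · have e1 : y ∉ sp a := by rw [hsp]; simp [hy, hyj]
            have e2 : y ∉ sp b := by rw [← h3, hsp]; simp [hy, hyj]
            rw [mem_sp, not_not] at e1 e2
            rw [e1, e2, add_zero]
      · right
        have ha' := (mem_rootsD_iff a).1 ha
        have hb' := (mem_rootsD_iff b).1 hb
        have hcov : sp a ∪ sp b = univ := by
          rw [← card_eq_iff_eq_univ, card_union_of_disjoint h3, ha'.2, hb'.2]
          simp
        intro x
        rw [Pi.add_apply]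
        have hx : x ∈ sp a ∪ sp b := by rw [hcov]; exact mem_univ _
        rw [Finset.disjoint_left] at h3
        rcases mem_union.1 hx with h4 | h4
        · have e1 : x ∉ sp b := h3 h4
          rw [mem_sp, not_not] at e1
          rw [e1, add_zero]
          exact (ha'.1 x).resolve_left (mem_sp.1 h4)
        · have e1 : x ∉ sp a := fun h5 => h3 h5 h4
          rw [mem_sp, not_not] at e1
          rw [e1, zero_add]
          exact (hb'.1 x).resolve_left (mem_sp.1 h4)
    · apply simM_injective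
      rw [vec4_eq_iff]
      simp only [simM_0, simM_1, simM_2, simM_3, Pi.smul_apply, smul_eq_mul]
      refine ⟨?_, ?_, ?_, ?_⟩ <;> ring

end Pool.Agent.helper54.SOG
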