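import Mathlib

/-!
Strongly orthogonal sum graphs of root systems (problem MP_cad530_co): definitions and the
elementary facts used by the hand-in.
-/

namespace Pool.Agent.helper54.SOG

open Finset

section Defs

variable {E : Type*} [AddCommGroup E]

/-- `S` is a strongly orthogonal subset of `R`: a finite set of elements of `R`, any two distinct
elements `a`, `b` of which satisfy `a ≠ -b` and `a + b ∉ R`, `a - b ∉ R`. -/
def IsSOS (R : Set E) (S : Finset E) : Prop :=
  (∀ a ∈ S, a ∈ R) ∧ ∀ a ∈ S, ∀ b ∈ S, a ≠ b → a + b ≠ 0 ∧ a + b ∉ R ∧ a - b ∉ R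

/-- The set of all sums of `k`-element strongly orthogonal subsets of `R`. -/
def sosSums (R : Set E) (k : ℕ) : Set E :=
  {v | ∃ S : Finset E, S.card = k ∧ IsSOS R S ∧ ∑ a ∈ S, a = v}

/-- The strongly orthogonal sum graph: distinct vertices are adjacent when their difference is
again a vertex. -/
def sosGraph (R : Set E) (k : ℕ) : SimpleGraph (sosSums R k) :=
  SimpleGraph.fromRel (fun v w => (v : E) - (w : E) ∈ sosSums R k)

end Defs

/-- Root system of type `A_{n-1}` in `ℝ^n`. -/
def rootsA (n : ℕ) : Set (Fin n → ℝ) :=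
  {v | ∃ i j : Fin n, i ≠ j ∧ v = Pi.single i 1 - Pi.single j 1}

/-- Root system of type `D_l` in `ℝ^l` (for `l = 2, 3` these are `A_1 × A_1` and `A_3`). -/
def rootsD (l : ℕ) : Set (Fin l → ℝ) :=
  {v | ∃ i j : Fin l, i ≠ j ∧ ∃ s t : ℝ, (s = 1 ∨ s = -1) ∧ (t = 1 ∨ t = -1) ∧
    v = Pi.single i s + Pi.single j t}

/-- Root system of type `B_l` in `ℝ^l`. -/
def rootsB (l : ℕ) : Set (Fin l → ℝ) :=
  rootsD l ∪ {v | ∃ i : Fin l, ∃ s : ℝ, (s = 1 ∨ s = -1) ∧ v = Pi.single i s}

/-- Root system of type `G_2` in the plane of sum zero in `ℝ^3`. -/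
def rootsG2 : Set (Fin 3 → ℝ) :=
  rootsA 3 ∪ {v | ∃ i j k : Fin 3, i ≠ j ∧ i ≠ k ∧ j ≠ k ∧ ∃ s : ℝ, (s = 1 ∨ s = -1) ∧
    v = Pi.single i (2 * s) - Pi.single j s - Pi.single k s}

section General

variable {E E' : Type*} [AddCommGroup E] [AddCommGroup E']

theorem adj_iff (R : Set E) (k : ℕ) (v w : sosSums R k) :
    (sosGraph R k).Adj v w ↔ v ≠ w ∧ ((v : E) - w ∈ sosSums R k ∨ (w : E) - v ∈ sosSums R k) := by
  simp [sosGraph]

/-- An injective additive map carrying one vertex set onto another one is a graph isomorphism. -/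
theorem iso_of_image (f : E →+ E') (hf : Function.Injective f) (R : Set E) (R' : Set E')
    (k k' : ℕ) (h : f '' sosSums R k = sosSums R' k') :
    Nonempty (sosGraph R k ≃g sosGraph R' k') := by
  classical
  have hm : ∀ x : E, f x ∈ sosSums R' k' ↔ x ∈ sosSums R k := by
    intro x
    rw [← h]
    constructor
    · rintro ⟨y, hy, hyx⟩
      rwa [← hf hyx]
    · intro hx
      exact ⟨x, hx, rfl⟩
  let e : sosSums R k ≃ sosSums R' k' := Equiv.ofBijective
    (fun v => ⟨f v, (hm v).2 v.2⟩) (by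
      constructor
      · intro v w hvw
        apply Subtype.ext
        apply hf
        exact congrArg Subtype.val hvw
      · intro w
        have hw : (w : E') ∈ f '' sosSums R k := by rw [h]; exact w.2
        obtain ⟨x, hx, hxw⟩ := hw
        exact ⟨⟨x, hx⟩, Subtype.ext hxw⟩)
  refine ⟨⟨e, ?_⟩⟩
  intro v w
  have he : ∀ v : sosSums R k, ((e v : sosSums R' k') : E') = f v := fun v => rfl
  rw [adj_iff, adj_iff, he, he, ← map_sub, ← map_sub, hm, hm]
  constructor
  · rintro ⟨h1, h2⟩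
    exact ⟨fun h => h1 (by rw [h]), h2⟩
  · rintro ⟨h1, h2⟩
    exact ⟨fun h => h1 (e.injective h), h2⟩

end General

end Pool.Agent.helper54.SOG
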