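import Pool.Agent.helper54.SOG.Class

/-!
Irreducible simply laced root systems with a maximal frame of length four or five.
-/

namespace Pool.Agent.helper54.SOG

open Finset

section

variable {E : Type*} [NormedAddCommGroup E] [InnerProductSpace ℝ E] {R : Set E} {c : ℝ}

/-- all coordinates integral or all half integral -/
theorem Frame.types (h : SL R c) {l : ℕ} (hl : 2 ≤ l) {e : Fin l → E} (F : Frame R c e)
    {g : E} (hg : g ∈ R) : (∀ i, ∃ z : ℤ, inner ℝ g (e i) = z * (c / 2)) ∨
      ∃ n : Fin l → ℤ, (∀ i, n i = 1 ∨ n i = -1) ∧ ∃ x, (∀ j, inner ℝ (e j) x = 0) ∧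
      inner ℝ x x = c - l * (c / 8) ∧ g = (1 / 2 : ℝ) • (∑ i, (n i : ℝ) • e i) + x := by
  obtain ⟨n, hn, hpar⟩ := F.quarter h hl hg
  by_cases hint : ∀ i, n i % 2 = 0
  · left
    intro i
    refine ⟨n i / 2, ?_⟩
    have h2 : n i = 2 * (n i / 2) := by have := hint i; omega
    have h3 : ((n i : ℤ) : ℝ) = 2 * ((n i / 2 : ℤ) : ℝ) := by exact_mod_cast h2
    rw [hn, h3]; ring
  · right
    push Not at hint
    obtain ⟨i, hi⟩ := hint
    have hodd : ∀ j, n j % 2 = 1 := by
      intro j
      obtain ⟨q, hq⟩ := hpar i j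
      omega
    obtain ⟨h1, h2⟩ := F.half h hg hn hodd
    exact ⟨n, h1, h2⟩

theorem dset_nonempty {l : ℕ} (hl : 2 ≤ l) (e : Fin l → E) : (Dset e).Nonempty := by
  have hnt : Nontrivial (Fin l) := Fin.nontrivial_iff_two_le.2 hl
  obtain ⟨i, j, hij⟩ := exists_pair_ne (Fin l)
  exact ⟨_, i, j, hij, 1, 1, Or.inl rfl, Or.inl rfl, rfl⟩

theorem inner_dset {l : ℕ} {e : Fin l → E} {g a : E} (hg : ∀ i, inner ℝ g (e i) = 0)
    (ha : a ∈ Dset e) : inner ℝ a g = 0 := by
  obtain ⟨i, j, _, s, t, _, _, rfl⟩ := ha
  rw [inner_add_left, inner_smul_left, inner_smul_left, real_inner_comm, hg i,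
    real_inner_comm, hg j, mul_zero, mul_zero, add_zero]

/-- If all coordinates are integral and the frame does not extend, `R` is of type `D_l`. -/
theorem eq_dset_of_int (h : SL R c) (hi : IsIrred R) {l : ℕ} (hl : 2 ≤ l) {e : Fin l → E}
    (F : Frame R c e) (hmax : ∀ x, ¬ Frame R c (Fin.snoc e x : Fin (l + 1) → E))
    (hint : ∀ g ∈ R, ∀ i, ∃ z : ℤ, inner ℝ g (e i) = z * (c / 2)) : R = Dset e := by
  apply hi.eq_of_orth (dset_nonempty hl e) (F.dset_subset h)
  intro g hg hgA a ha
  rcases F.int_cases h hl hg (hint g hg) with h1 | h1 | ⟨x, h1⟩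
  · exact inner_dset h1 ha
  · exact absurd h1 hgA
  · exact absurd h1 (hmax x)

/-- An irreducible simply laced root system with a frame of length four and none of length five
is of type `D_4`. -/
theorem eq_dset_four (h : SL R c) (hi : IsIrred R) {e : Fin 4 → E}
    (F : Frame R c e) (hmax : ∀ e' : Fin 5 → E, ¬ Frame R c e') : R = Dset e := by
  apply eq_dset_of_int h hi (by norm_num) F (fun x => hmax _)
  intro g hg
  rcases F.types h (by norm_num) hg with h1 | ⟨n, hn, x, hx1, hx2, hx3⟩
  · exact h1
  · exfalso
    have hs : ∀ i, ((n i : ℝ) = 1 ∨ (n i : ℝ) = -1) := by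
      intro i
      rcases hn i with h2 | h2 <;> rw [h2]
      · left; norm_num
      · right; norm_num
    have G := F.signs h hs
    obtain ⟨f, hf⟩ : ∃ f : Fin 4 → E, f = fun i => (n i : ℝ) • e i := ⟨_, rfl⟩
    rw [← hf] at G
    have hfx : ∀ i, inner ℝ (f i) x = 0 := by
      intro i
      rw [hf]
      simp only
      rw [inner_smul_left, hx1, mul_zero]
    have hor : ∀ i j, i ≠ j → inner ℝ (f i + f j) (f i - f j) = 0 := by
      intro i j hij
      rw [inner_add_left, inner_sub_right, inner_sub_right, G.norm, G.norm, G.orth i j hij,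
        G.orth j i (Ne.symm hij)]
      ring
    have hq : ∀ i j k m, i ≠ k → i ≠ m → j ≠ k → j ≠ m → ∀ s t : ℝ,
        inner ℝ (f i + s • f j) (f k + t • f m) = 0 := by
      intro i j k m h3 h4 h5 h6 s t
      rw [inner_add_left, inner_add_right, inner_add_right, inner_smul_left, inner_smul_right,
        inner_smul_left, inner_smul_right, G.orth i k h3, G.orth i m h4, G.orth j k h5,
        G.orth j m h6]
      ring
    have a1 := G.add 0 1 (by decide)
    have a2 := G.add 2 3 (by decide)
    have a3 := G.sub 0 1 (by decide)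
    have a4 := G.sub 2 3 (by decide)
    have q1 : inner ℝ (f 0 + f 1) (f 2 + f 3) = 0 := by
      have := hq 0 1 2 3 (by decide) (by decide) (by decide) (by decide) 1 1
      rwa [one_smul, one_smul] at this
    have q2 : inner ℝ (f 0 + f 1) (f 2 - f 3) = 0 := by
      have := hq 0 1 2 3 (by decide) (by decide) (by decide) (by decide) 1 (-1)
      rwa [one_smul, neg_one_smul, ← sub_eq_add_neg] at this
    have q3 : inner ℝ (f 2 + f 3) (f 0 - f 1) = 0 := by
      have := hq 2 3 0 1 (by decide) (by decide) (by decide) (by decide) 1 (-1)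
      rwa [one_smul, neg_one_smul, ← sub_eq_add_neg] at this
    have q4 : inner ℝ (f 0 - f 1) (f 2 - f 3) = 0 := by
      have := hq 0 1 2 3 (by decide) (by decide) (by decide) (by decide) (-1) (-1)
      rwa [neg_one_smul, neg_one_smul, ← sub_eq_add_neg, ← sub_eq_add_neg] at this
    have hsum : (1 / 2 : ℝ) • (f 0 + f 1 + (f 2 + f 3) + (f 0 - f 1) + (f 2 - f 3)) =
        f 0 + f 2 := by module
    have K := frame_four h a1 a2 a3 a4 q1 (hor 0 1 (by decide)) q2 q3 (hor 2 3 (by decide)) q4
      (by rw [hsum]; exact G.add 0 2 (by decide))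
    have hsum2 : (1 / 2 : ℝ) • (f 0 + f 1 + (f 2 + f 3)) + x = g := by
      rw [hx3, Fin.sum_univ_four]
      congr 2
      simp only [hf]
      abel
    refine hmax _ (K.extend h (by norm_num) (i₀ := Fin.castSucc (Fin.castSucc 0)) (x := x) ?_ ?_ ?_)
    · rw [hx2]; push_cast; ring
    · intro j
      refine Fin.lastCases ?_ (fun j => ?_) j
      · rw [Fin.snoc_last, inner_smul_left, inner_sub_left, inner_sub_left, inner_sub_left,
          hfx, hfx, hfx, hfx]
        ring
      · rw [Fin.snoc_castSucc]
        refine Fin.lastCases ?_ (fun j => ?_) j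
        · rw [Fin.snoc_last, inner_smul_left, inner_add_left, inner_sub_left, inner_sub_left,
            hfx, hfx, hfx, hfx]
          ring
        · rw [Fin.snoc_castSucc]
          fin_cases j
          · change inner ℝ ((1 / 2 : ℝ) • (f 0 + f 1 + (f 2 + f 3))) x = 0
            rw [inner_smul_left, inner_add_left, inner_add_left, inner_add_left,
              hfx, hfx, hfx, hfx]
            ring
          · change inner ℝ ((1 / 2 : ℝ) • (f 0 + f 1 - (f 2 + f 3))) x = 0
            rw [inner_smul_left, inner_sub_left, inner_add_left, inner_add_left,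
              hfx, hfx, hfx, hfx]
            ring
    · rw [Fin.snoc_castSucc, Fin.snoc_castSucc]
      change (1 / 2 : ℝ) • (f 0 + f 1 + (f 2 + f 3)) + x ∈ R
      rw [hsum2]; exact hg

/-! ### Half integral vectors -/

/-- the half integral vector with minus signs in `P` and component `x` orthogonal to the frame -/
noncomputable def hv {l : ℕ} (e : Fin l → E) (x : E) (P : Finset (Fin l)) : E :=
  (1 / 2 : ℝ) • ∑ i, e i - ∑ i ∈ P, e i + x

theorem inner_sum_frame {l : ℕ} {e : Fin l → E} (hn : ∀ i, inner ℝ (e i) (e i) = c / 2)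
    (ho : ∀ i j, i ≠ j → inner ℝ (e i) (e j) = 0) (P : Finset (Fin l)) (k : Fin l) :
    inner ℝ (∑ i ∈ P, e i) (e k) = if k ∈ P then c / 2 else 0 := by
  rw [sum_inner]
  split_ifs with hk
  · rw [sum_eq_single k]
    · exact hn k
    · intro i _ hik
      exact ho i k hik
    · intro h0; exact absurd hk h0
  · apply sum_eq_zero
    intro i hi
    apply ho
    rintro rfl
    exact hk hi

theorem inner_hv {l : ℕ} {e : Fin l → E} (hn : ∀ i, inner ℝ (e i) (e i) = c / 2)
    (ho : ∀ i j, i ≠ j → inner ℝ (e i) (e j) = 0) {x : E} (hx : ∀ j, inner ℝ (e j) x = 0)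
    (P : Finset (Fin l)) (k : Fin l) :
    inner ℝ (hv e x P) (e k) = if k ∈ P then -(c / 4) else c / 4 := by
  unfold hv
  rw [inner_add_left, inner_sub_left, inner_smul_left, inner_sum_frame hn ho,
    inner_sum_frame hn ho, real_inner_comm, hx k]
  simp only [mem_univ, if_true, conj_trivial]
  split_ifs <;> ring

theorem hv_insert {l : ℕ} (e : Fin l → E) (x : E) {P : Finset (Fin l)} {i j : Fin l}
    (hij : i ≠ j) (hi : i ∉ P) (hj : j ∉ P) :
    hv e x (insert i (insert j P)) = hv e x P - (e i + e j) := by
  classical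
  unfold hv
  have h1 : i ∉ insert j P := by
    rw [mem_insert, not_or]; exact ⟨hij, hi⟩
  rw [sum_insert h1, sum_insert hj]
  abel

theorem hv_step (h : SL R c) {l : ℕ} {e : Fin l → E} (F : Frame R c e) {x : E}
    (hx : ∀ j, inner ℝ (e j) x = 0) {P : Finset (Fin l)} {i j : Fin l}
    (hij : i ≠ j) (hi : i ∉ P) (hj : j ∉ P) :
    hv e x (insert i (insert j P)) ∈ R ↔ hv e x P ∈ R := by
  classical
  constructor
  · intro h1
    have h2 : inner ℝ (hv e x (insert i (insert j P))) (e i + e j) = -(c / 2) := by
      rw [inner_add_right, inner_hv F.norm F.orth hx, inner_hv F.norm F.orth hx,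
        if_pos (mem_insert_self _ _), if_pos (mem_insert_of_mem (mem_insert_self _ _))]
      ring
    have h3 := h.add_mem h1 (F.add i j hij) h2
    rwa [hv_insert e x hij hi hj, sub_add_cancel] at h3
  · intro h1
    have h2 : inner ℝ (hv e x P) (e i + e j) = c / 2 := by
      rw [inner_add_right, inner_hv F.norm F.orth hx, inner_hv F.norm F.orth hx,
        if_neg hi, if_neg hj]
      ring
    rw [hv_insert e x hij hi hj]
    exact h.sub_mem h1 (F.add i j hij) h2

theorem hv_even (h : SL R c) {l : ℕ} {e : Fin l → E} (F : Frame R c e) {x : E}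
    (hx : ∀ j, inner ℝ (e j) x = 0) : ∀ (n : ℕ) (P : Finset (Fin l)), P.card = 2 * n →
    (hv e x P ∈ R ↔ hv e x ∅ ∈ R) := by
  classical
  intro n
  induction n with
  | zero =>
    intro P hP
    have h0 : P = ∅ := card_eq_zero.1 (by simpa using hP)
    rw [h0]
  | succ n ih =>
    intro P hP
    obtain ⟨i, P₁, hi, rfl, hP₁⟩ := card_eq_succ.1 (show P.card = (2 * n + 1) + 1 by omega)
    obtain ⟨j, P₂, hj, rfl, hP₂⟩ := card_eq_succ.1 hP₁
    rw [mem_insert, not_or] at hi
    rw [hv_step h F hx hi.1 hi.2 hj]
    exact ih P₂ hP₂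

theorem norm_hv {l : ℕ} {e : Fin l → E} (hn : ∀ i, inner ℝ (e i) (e i) = c / 2)
    (ho : ∀ i j, i ≠ j → inner ℝ (e i) (e j) = 0) {x : E} (hx : ∀ j, inner ℝ (e j) x = 0)
    {y : E} (hy : ∀ j, inner ℝ (e j) y = 0) (P Q : Finset (Fin l)) :
    inner ℝ (hv e x P) (hv e y Q) = inner ℝ x y +
      (l : ℝ) * (c / 8) - (P.card : ℝ) * (c / 4) - ∑ k ∈ Q, (if k ∈ P then -(c / 4) else c / 4) := by
  have hxs : ∀ S : Finset (Fin l), inner ℝ x (∑ i ∈ S, e i) = 0 := by
    intro S
    rw [inner_sum]
    apply sum_eq_zero
    intro i _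
    rw [real_inner_comm]; exact hx i
  have hys : ∀ S : Finset (Fin l), inner ℝ (∑ i ∈ S, e i) y = 0 := by
    intro S
    rw [sum_inner]
    apply sum_eq_zero
    intro i _
    exact hy i
  have h1 : inner ℝ (hv e x P) (hv e y Q) = (1 / 2 : ℝ) * ∑ k, inner ℝ (hv e x P) (e k) -
      ∑ k ∈ Q, inner ℝ (hv e x P) (e k) + inner ℝ x y := by
    conv_lhs => rw [hv.eq_1 e y Q]
    rw [inner_add_right, inner_sub_right, inner_smul_right, inner_sum, inner_sum]
    congr 1
    unfold hv
    rw [inner_add_left, inner_sub_left, inner_smul_left, hys, hys]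
    ring
  rw [h1, sum_congr rfl (fun k _ => inner_hv hn ho hx P k),
    sum_congr rfl (fun k _ => inner_hv hn ho hx P k)]
  have h2 : ∑ k : Fin l, (if k ∈ P then -(c / 4) else c / 4) = l * (c / 4) - P.card * (c / 2) := by
    have h3 : ∀ k : Fin l, (if k ∈ P then -(c / 4) else c / 4) =
        c / 4 - if k ∈ P then c / 2 else 0 := by
      intro k
      split_ifs <;> ring
    rw [sum_congr rfl (fun k _ => h3 k), sum_sub_distrib, sum_const, card_univ, Fintype.card_fin,
      nsmul_eq_mul]
    congr 1
    rw [sum_ite_mem, univ_inter, sum_const, nsmul_eq_mul]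
  rw [h2]
  ring

/-- the root system of type `E_6` containing a given frame of length five -/
def E6set (e : Fin 5 → E) (x : E) : Set E :=
  Dset e ∪ {v | ∃ P : Finset (Fin 5), Even P.card ∧ (v = hv e x P ∨ v = -hv e x P)}

/-- two half integral roots with the same parity have the same orthogonal component -/
theorem comp_eq (h : SL R c) {e : Fin 5 → E} (F : Frame R c e)
    (hmax : ∀ x, ¬ Frame R c (Fin.snoc e x : Fin 6 → E)) {x y : E}
    (hx : ∀ j, inner ℝ (e j) x = 0) (hy : ∀ j, inner ℝ (e j) y = 0)
    (hxR : hv e x ∅ ∈ R) (hyR : hv e y ∅ ∈ R) : x = y := by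
  have hc := h.pos
  have hxx : inner ℝ x x = 3 * (c / 8) := by
    have h1 := norm_hv F.norm F.orth hx hx ∅ ∅
    rw [h.norm _ hxR] at h1
    simp only [card_empty, sum_empty] at h1
    push_cast at h1
    linarith
  have hyy : inner ℝ y y = 3 * (c / 8) := by
    have h1 := norm_hv F.norm F.orth hy hy ∅ ∅
    rw [h.norm _ hyR] at h1
    simp only [card_empty, sum_empty] at h1
    push_cast at h1
    linarith
  have hxy : inner ℝ (hv e x ∅) (hv e y ∅) = inner ℝ x y + 5 * (c / 8) := by
    have h1 := norm_hv F.norm F.orth hx hy ∅ ∅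
    simp only [card_empty, sum_empty] at h1
    push_cast at h1
    linarith
  have hpos : 0 ≤ inner ℝ (x + y) (x + y) := real_inner_self_nonneg
  rw [real_inner_add_add_self, hxx, hyy] at hpos
  rcases h.inner_cases hxR hyR with h1 | h1 | h1 | h1 | h1
  · exfalso; rw [hxy] at h1; linarith
  · exfalso
    rw [hxy] at h1
    have hxy' : inner ℝ x y = -(c / 8) := by linarith
    let Q : Finset (Fin 5) := {1, 2, 3, 4}
    have hQR : hv e x Q ∈ R := (hv_even h F hx 2 Q (by decide)).2 hxR
    have h2 : inner ℝ (hv e x Q) (hv e y ∅) = -(c / 2) := by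
      have h3 := norm_hv F.norm F.orth hx hy Q ∅
      have hQc : Q.card = 4 := by decide
      rw [hQc] at h3
      simp only [sum_empty] at h3
      push_cast at h3
      rw [h3, hxy']
      ring
    have h3 := h.add_mem hQR hyR h2
    have h4 : hv e x Q + hv e y ∅ = e 0 + (x + y) := by
      unfold hv
      have h5 : ∑ i ∈ Q, e i = e 1 + (e 2 + (e 3 + e 4)) := by
        have h6 : Q = {1, 2, 3, 4} := rfl
        rw [h6, sum_insert (by decide), sum_insert (by decide), sum_insert (by decide),
          sum_singleton]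
      rw [h5, sum_empty, Fin.sum_univ_five]
      module
    rw [h4] at h3
    refine hmax (x + y) (F.extend h (by norm_num) (i₀ := 0) ?_ ?_ h3)
    · rw [real_inner_add_add_self, hxx, hyy, hxy']; ring
    · intro j
      rw [inner_add_right, hx, hy, add_zero]
  · exfalso; rw [hxy] at h1; linarith
  · have h2 : x = y := by
      unfold hv at h1
      exact add_left_cancel h1
    exact h2
  · exfalso
    rw [h1, inner_neg_left, h.norm _ hyR] at hxy
    linarith

theorem neg_hv {e : Fin 5 → E} (x : E) (P : Finset (Fin 5)) : -hv e x P = hv e (-x) Pᶜ := by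
  classical
  unfold hv
  have h1 : ∑ i, e i = ∑ i ∈ P, e i + ∑ i ∈ Pᶜ, e i := (sum_add_sum_compl P e).symm
  rw [h1]
  module

/-- An irreducible simply laced root system with a maximal frame of length five which has a half
integral root is of type `E_6`. -/
theorem eq_E6set (h : SL R c) (hi : IsIrred R) {e : Fin 5 → E} (F : Frame R c e)
    (hmax : ∀ x, ¬ Frame R c (Fin.snoc e x : Fin 6 → E)) {x : E}
    (hx : ∀ j, inner ℝ (e j) x = 0) (hxR : hv e x ∅ ∈ R) : R = E6set e x := by
  classical
  have hc := h.pos
  have hsub : E6set e x ⊆ R := by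
    rintro v (hv' | ⟨P, ⟨n, hn⟩, rfl | rfl⟩)
    · exact F.dset_subset h hv'
    · exact (hv_even h F hx n P (by omega)).2 hxR
    · exact h.neg_mem ((hv_even h F hx n P (by omega)).2 hxR)
  refine hi.eq_of_orth ?_ hsub ?_
  · exact (dset_nonempty (by norm_num) e).mono Set.subset_union_left
  · intro g hg hgA a ha
    rcases F.types h (by norm_num) hg with h1 | ⟨n, hn, y, hy1, hy2, hy3⟩
    · rcases F.int_cases h (by norm_num) hg h1 with h2 | h2 | ⟨z, h2⟩
      · -- orthogonal to the frame
        have h2' : ∀ i, inner ℝ (e i) g = 0 := fun i => by rw [real_inner_comm]; exact h2 i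
        have hin : ∀ P : Finset (Fin 5), inner ℝ (hv e x P) g = inner ℝ x g := by
          intro P
          unfold hv
          have h3 : ∀ S : Finset (Fin 5), inner ℝ (∑ i ∈ S, e i) g = 0 := by
            intro S
            rw [sum_inner]
            exact sum_eq_zero (fun i _ => h2' i)
          rw [inner_add_left, inner_sub_left, inner_smul_left, h3, h3]
          ring
        have hxg : inner ℝ x g = 0 := by
          rw [← hin ∅]
          rcases h.inner_cases hxR hg with h3 | h3 | h3 | h3 | h3
          · exact h3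
          · exfalso
            have h4 := h.sub_mem hxR hg h3
            have h5 : hv e x ∅ - g = hv e (x - g) ∅ := by
              unfold hv; abel
            rw [h5] at h4
            have h6 := comp_eq h F hmax hx
              (fun j => by rw [inner_sub_right, hx, h2', sub_zero]) hxR h4
            have h7 : g = 0 := by
              have h8 : g = x - (x - g) := by abel
              rw [h8, ← h6, sub_self]
            exact h.ne_zero hg h7
          · exfalso
            have h4 := h.add_mem hxR hg h3
            have h5 : hv e x ∅ + g = hv e (x + g) ∅ := by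
              unfold hv; abel
            rw [h5] at h4
            have h6 := comp_eq h F hmax hx
              (fun j => by rw [inner_add_right, hx, h2', add_zero]) hxR h4
            have h7 : g = 0 := by
              have h8 : g = x + g - x := by abel
              rw [h8, ← h6, sub_self]
            exact h.ne_zero hg h7
          · exfalso
            exact hgA (Or.inr ⟨∅, by simp, Or.inl h3.symm⟩)
          · exfalso
            exact hgA (Or.inr ⟨∅, by simp, Or.inr (by rw [h3, neg_neg])⟩)
        rcases ha with ha | ⟨P, _, rfl | rfl⟩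
        · exact inner_dset h2 ha
        · rw [hin, hxg]
        · rw [inner_neg_left, hin, hxg, neg_zero]
      · exact absurd (Or.inl h2) hgA
      · exact absurd h2 (hmax z)
    · exfalso
      -- half integral
      let P : Finset (Fin 5) := univ.filter (fun i => n i = -1)
      have hgP : g = hv e y P := by
        rw [hy3]
        unfold hv
        have h3 : ∀ i, (n i : ℝ) • e i = e i - (2 : ℝ) • (if i ∈ P then e i else 0) := by
          intro i
          rcases hn i with h4 | h4
          · have h5 : i ∉ P := by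
              simp only [P, mem_filter, mem_univ, true_and, h4]
              norm_num
            rw [h4, if_neg h5]
            module
          · have h5 : i ∈ P := by
              simp only [P, mem_filter, mem_univ, true_and, h4]
            rw [h4, if_pos h5]
            module
        have h6 : ∑ i, (n i : ℝ) • e i = ∑ i, e i - (2 : ℝ) • ∑ i ∈ P, e i := by
          rw [sum_congr rfl (fun i _ => h3 i), sum_sub_distrib, ← smul_sum, sum_ite_mem,
            univ_inter]
        rw [h6]
        module
      rcases Nat.even_or_odd P.card with ⟨m, hm⟩ | ⟨m, hm⟩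
      · have h4 : hv e y ∅ ∈ R := (hv_even h F hy1 m P (by omega)).1 (by rw [← hgP]; exact hg)
        have h5 := comp_eq h F hmax hx hy1 hxR h4
        apply hgA
        right
        exact ⟨P, ⟨m, hm⟩, Or.inl (by rw [h5, hgP])⟩
      · have h3 : Pᶜ.card = 5 - P.card := by rw [card_compl, Fintype.card_fin]
        have hPle : P.card ≤ 5 := by
          have := card_le_univ P
          rwa [Fintype.card_fin] at this
        have h4 := h.neg_mem hg
        rw [hgP, neg_hv] at h4
        have hy1' : ∀ j, inner ℝ (e j) (-y) = 0 := fun j => by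
          rw [inner_neg_right, hy1, neg_zero]
        have h5 : hv e (-y) ∅ ∈ R := (hv_even h F hy1' (2 - m) Pᶜ (by omega)).1 h4
        have h6 := comp_eq h F hmax hx hy1' hxR h5
        apply hgA
        right
        refine ⟨Pᶜ, ⟨2 - m, by omega⟩, Or.inr ?_⟩
        rw [h6, ← neg_hv, neg_neg, hgP]

end

end Pool.Agent.helper54.SOG
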