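import Pool.Agent.helper54.SOG.M24

/-!
Classification of the simply laced root systems `R` for which the sums of four strongly orthogonal
roots form an irreducible simply laced root system.
-/

namespace Pool.Agent.helper54.SOG

open Finset

section

variable {E : Type*} [NormedAddCommGroup E] [InnerProductSpace ℝ E] {R : Set E} {c : ℝ}

theorem Frame.double {l : ℕ} {e : Fin l → E} (F : Frame R c e)
    (h2 : ∀ b ∈ R, (2 : ℝ) • b ∈ sosSums R 4) :
    Frame (sosSums R 4) ((4 : ℕ) * c) (fun i => (2 : ℝ) • e i) where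
  norm i := by
    rw [inner_smul_left, inner_smul_right, F.norm]
    simp only [conj_trivial]
    push_cast
    ring
  orth i j hij := by
    rw [inner_smul_left, inner_smul_right, F.orth i j hij, mul_zero, mul_zero]
  add i j hij := by
    have h3 := h2 _ (F.add i j hij)
    rwa [smul_add] at h3
  sub i j hij := by
    have h3 := h2 _ (F.sub i j hij)
    rwa [smul_sub] at h3

theorem dset_double {l : ℕ} {e : Fin l → E} {v : E} (hv : v ∈ Dset (fun i => (2 : ℝ) • e i)) :
    ∃ r ∈ Dset e, v = (2 : ℝ) • r := by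
  obtain ⟨i, j, hij, s, t, hs, ht, rfl⟩ := hv
  refine ⟨s • e i + t • e j, ⟨i, j, hij, s, t, hs, ht, rfl⟩, ?_⟩
  module

theorem hv_double {l : ℕ} (e : Fin l → E) (x : E) (P : Finset (Fin l)) :
    hv (fun i => (2 : ℝ) • e i) ((2 : ℝ) • x) P = (2 : ℝ) • hv e x P := by
  unfold hv
  rw [← smul_sum, ← smul_sum]
  module

/-- the case where `R` is of type `D_l` -/
theorem sums_four_dset (h : SL R c) (hR : Submodule.span ℝ R = ⊤)
    (hV : SL (sosSums R 4) ((4 : ℕ) * c)) (h2 : ∀ b ∈ R, (2 : ℝ) • b ∈ sosSums R 4)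
    {l : ℕ} (hl : 2 ≤ l) (hl8 : l < 8) {e : Fin l → E} (F : Frame R c e) (hRD : R = Dset e)
    {v : E} (hv : v ∈ sosSums R 4) : ∃ r ∈ R, v = (2 : ℝ) • r := by
  have hsp : ∀ x, (∀ i, inner ℝ ((2 : ℝ) • e i) x = 0) → x = 0 := by
    intro x hx
    apply eq_zero_of_orth hR
    intro r hr
    rw [hRD] at hr
    refine inner_dset (fun i => ?_) hr
    have h3 := hx i
    rw [inner_smul_left] at h3
    simp only [conj_trivial] at h3
    rw [real_inner_comm]
    linarith
  have h3 := (F.double h2).eq_dset_of_span hV hl hl8 hsp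
  rw [h3] at hv
  obtain ⟨r, hr, hvr⟩ := dset_double hv
  exact ⟨r, by rw [hRD]; exact hr, hvr⟩

/-- the case where `R` is of type `E_6` -/
theorem sums_four_E6 (h : SL R c) (hR : Submodule.span ℝ R = ⊤)
    (hV : SL (sosSums R 4) ((4 : ℕ) * c)) (hVi : IsIrred (sosSums R 4))
    (h2 : ∀ b ∈ R, (2 : ℝ) • b ∈ sosSums R 4)
    {e : Fin 5 → E} (F : Frame R c e) {x : E} (hx : ∀ j, inner ℝ (e j) x = 0)
    (hxx : inner ℝ x x = 3 * (c / 8)) (hRE : R = E6set e x)
    {v : E} (hvV : v ∈ sosSums R 4) : ∃ r ∈ R, v = (2 : ℝ) • r := by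
  have hc := h.pos
  have hx0R : hv e x ∅ ∈ R := by
    rw [hRE]
    exact Or.inr ⟨∅, by simp, Or.inl rfl⟩
  have F2 := F.double h2
  have hmax : ∀ z, ¬ Frame (sosSums R 4) ((4 : ℕ) * c)
      (Fin.snoc (fun i => (2 : ℝ) • e i) z : Fin 6 → E) := by
    intro z G
    have hzz := G.norm (Fin.last 5)
    rw [Fin.snoc_last] at hzz
    have hez : ∀ j, inner ℝ (e j) z = 0 := by
      intro j
      have h3 := G.orth (Fin.castSucc j) (Fin.last 5) (Fin.castSucc_lt_last j).ne
      rw [Fin.snoc_castSucc, Fin.snoc_last, inner_smul_left] at h3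
      simp only [conj_trivial] at h3
      linarith
    obtain ⟨t, ht⟩ : ∃ t : ℝ, t = inner ℝ x z / (3 * (c / 8)) := ⟨_, rfl⟩
    have hxz : inner ℝ x z = t * (3 * (c / 8)) := by
      rw [ht]; field_simp
    have hy : z - t • x = 0 := by
      apply eq_zero_of_orth hR
      intro r hr
      have hey : ∀ i, inner ℝ (z - t • x) (e i) = 0 := by
        intro i
        rw [real_inner_comm, inner_sub_right, inner_smul_right, hez, hx]; ring
      have hxy : inner ℝ x (z - t • x) = 0 := by
        rw [inner_sub_right, inner_smul_right, hxz, hxx]; ring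
      have hin : ∀ P : Finset (Fin 5), inner ℝ (hv e x P) (z - t • x) = 0 := by
        intro P
        unfold hv
        have h3 : ∀ S : Finset (Fin 5), inner ℝ (∑ i ∈ S, e i) (z - t • x) = 0 := by
          intro S
          rw [sum_inner]
          exact sum_eq_zero (fun i _ => by rw [real_inner_comm]; exact hey i)
        rw [inner_add_left, inner_sub_left, inner_smul_left, h3, h3, hxy]
        ring
      rw [hRE] at hr
      rcases hr with hr | ⟨P, _, rfl | rfl⟩
      · exact inner_dset hey hr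
      · exact hin P
      · rw [inner_neg_left, hin P, neg_zero]
    have hzx : z = t • x := sub_eq_zero.1 hy
    have ht2 : t ^ 2 = 16 / 3 := by
      rw [hzx, inner_smul_left, inner_smul_right, hxx] at hzz
      simp only [conj_trivial] at hzz
      push_cast at hzz
      have h3 : (t ^ 2 * 3 - 16) * (c / 8) = 0 := by linarith
      rcases mul_eq_zero.1 h3 with h4 | h4
      · linarith
      · linarith
    -- pairing
    have hm1 := G.add (Fin.castSucc 0) (Fin.last 5) (by decide)
    rw [Fin.snoc_castSucc, Fin.snoc_last] at hm1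
    have hm2 := h2 _ hx0R
    have hin0 : inner ℝ ((2 : ℝ) • e 0 + z) ((2 : ℝ) • hv e x ∅) = (1 + 3 * t / 4) * c := by
      have h3 := inner_hv F.norm F.orth hx ∅ 0
      rw [if_neg (notMem_empty _)] at h3
      have h4 : inner ℝ z (hv e x ∅) = t * (3 * (c / 8)) := by
        unfold hv
        have h5 : ∀ S : Finset (Fin 5), inner ℝ z (∑ i ∈ S, e i) = 0 := by
          intro S
          rw [inner_sum]
          exact sum_eq_zero (fun i _ => by rw [real_inner_comm]; exact hez i)
        rw [inner_add_right, inner_sub_right, inner_smul_right, h5, h5, real_inner_comm, hxz]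
        ring
      rw [inner_add_left, inner_smul_left, inner_smul_right, inner_smul_right, real_inner_comm,
        h3, h4]
      simp only [conj_trivial]
      ring
    have hfin : ∀ k : ℝ, inner ℝ ((2 : ℝ) • e 0 + z) ((2 : ℝ) • hv e x ∅) = k * c →
        (k = 0 ∨ k = 2 ∨ k = -2 ∨ k = 4 ∨ k = -4) → False := by
      intro k hk hk2
      rw [hin0] at hk
      have h3 : (1 + 3 * t / 4 - k) * c = 0 := by linarith
      rcases mul_eq_zero.1 h3 with h4 | h4
      · have h5 : t = 4 / 3 * (k - 1) := by linarith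
        rw [h5] at ht2
        rcases hk2 with rfl | rfl | rfl | rfl | rfl <;> norm_num at ht2
      · exact hc.ne' h4
    rcases hV.inner_cases hm1 hm2 with h3 | h3 | h3 | h3 | h3
    · exact hfin 0 (by rw [h3]; ring) (by norm_num)
    · exact hfin 2 (by rw [h3]; push_cast; ring) (by norm_num)
    · exact hfin (-2) (by rw [h3]; push_cast; ring) (by norm_num)
    · exact hfin 4 (by rw [h3, hV.norm _ hm2]; push_cast; ring) (by norm_num)
    · exact hfin (-4) (by rw [h3, inner_neg_left, hV.norm _ hm2]; push_cast; ring) (by norm_num)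
  have hx2 : ∀ j, inner ℝ ((2 : ℝ) • e j) ((2 : ℝ) • x) = 0 := by
    intro j
    rw [inner_smul_left, inner_smul_right, hx]; ring
  have h3 := eq_E6set hV hVi F2 hmax hx2 (by rw [hv_double]; exact h2 _ hx0R)
  rw [h3] at hvV
  rcases hvV with h4 | ⟨P, hP, h4 | h4⟩
  · obtain ⟨r, hr, hvr⟩ := dset_double h4
    exact ⟨r, by rw [hRE]; exact Or.inl hr, hvr⟩
  · refine ⟨hv e x P, by rw [hRE]; exact Or.inr ⟨P, hP, Or.inl rfl⟩, ?_⟩
    rw [h4, hv_double]
  · refine ⟨-hv e x P, by rw [hRE]; exact Or.inr ⟨P, hP, Or.inr rfl⟩, ?_⟩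
    rw [h4, hv_double, smul_neg]

/-- classification for `m = 4` -/
theorem class_four (h : SL R c) (hi : IsIrred R) (hR : Submodule.span ℝ R = ⊤)
    (hV : SL (sosSums R 4) ((4 : ℕ) * c)) (hVi : IsIrred (sosSums R 4)) :
    ((∃ e : Fin 4 → E, Frame R c e ∧ R = Dset e) ∨ (∃ e : Fin 5 → E, Frame R c e ∧ R = Dset e) ∨
      (∃ (e : Fin 5 → E) (x : E), Frame R c e ∧ (∀ j, inner ℝ (e j) x = 0) ∧
        inner ℝ x x = 3 * (c / 8) ∧ R = E6set e x)) ∧
      ∀ v, v ∈ sosSums R 4 ↔ ∃ r ∈ R, v = (2 : ℝ) • r := by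
  have hc := h.pos
  obtain ⟨g, hg, hgV⟩ := exists_double h hi hV hVi.1
  have h2 := double_mem h hi hg hgV
  have hback : ∀ v, (∃ r ∈ R, v = (2 : ℝ) • r) → v ∈ sosSums R 4 := by
    rintro v ⟨r, hr, rfl⟩
    exact h2 r hr
  obtain ⟨e4, F4⟩ := exists_frame_four h hg hgV
  by_cases h5 : ∀ e' : Fin 5 → E, ¬ Frame R c e'
  · have hRD := eq_dset_four h hi F4 h5
    refine ⟨Or.inl ⟨e4, F4, hRD⟩, fun v => ⟨fun hv => ?_, hback v⟩⟩
    exact sums_four_dset h hR hV h2 (by norm_num) (by norm_num) F4 hRD hv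
  · push Not at h5
    obtain ⟨e, F⟩ := h5
    by_cases hint : ∀ g ∈ R, ∀ i, ∃ z : ℤ, inner ℝ g (e i) = z * (c / 2)
    · have hRD := eq_dset_of_int h hi (by norm_num) F (fun x => no_frame_six h hV _) hint
      refine ⟨Or.inr (Or.inl ⟨e, F, hRD⟩), fun v => ⟨fun hv => ?_, hback v⟩⟩
      exact sums_four_dset h hR hV h2 (by norm_num) (by norm_num) F hRD hv
    · push Not at hint
      obtain ⟨g', hg', i, hgi⟩ := hint
      rcases F.types h (by norm_num) hg' with h6 | ⟨n, hn, x, hx1, hx2, hx3⟩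
      · obtain ⟨z, hz⟩ := h6 i
        exact absurd hz (hgi z)
      · have hs : ∀ i, ((n i : ℝ) = 1 ∨ (n i : ℝ) = -1) := by
          intro i
          rcases hn i with h6 | h6 <;> rw [h6]
          · left; norm_num
          · right; norm_num
        have G := F.signs h hs
        have hfx : ∀ i, inner ℝ ((n i : ℝ) • e i) x = 0 := by
          intro i
          rw [inner_smul_left, hx1, mul_zero]
        have hgv : hv (fun i => (n i : ℝ) • e i) x ∅ ∈ R := by
          unfold hv
          rw [sum_empty, sub_zero, ← hx3]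
          exact hg'
        have hxx : inner ℝ x x = 3 * (c / 8) := by
          rw [hx2]; push_cast; ring
        have hRE := eq_E6set h hi G (fun x => no_frame_six h hV _) hfx hgv
        refine ⟨Or.inr (Or.inr ⟨_, x, G, hfx, hxx, hRE⟩), fun v => ⟨fun hv => ?_, hback v⟩⟩
        exact sums_four_E6 h hR hV hVi h2 G hfx hxx hRE hv

end

end Pool.Agent.helper54.SOG
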