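import Pool.Agent.helper54.SOG.Sums

/-!
Frames in simply laced root systems: subsystems of type `D_l` given by orthogonal vectors.
-/

namespace Pool.Agent.helper54.SOG

open Finset

section

variable {E : Type*} [NormedAddCommGroup E] [InnerProductSpace ℝ E] {R : Set E} {c : ℝ}

/-- `e` is a frame of a subsystem of type `D_l` of `R`. -/
structure Frame (R : Set E) (c : ℝ) {l : ℕ} (e : Fin l → E) : Prop where
  norm : ∀ i, inner ℝ (e i) (e i) = c / 2
  orth : ∀ i j, i ≠ j → inner ℝ (e i) (e j) = 0
  add : ∀ i j, i ≠ j → e i + e j ∈ R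
  sub : ∀ i j, i ≠ j → e i - e j ∈ R

/-- the subsystem of type `D_l` -/
def Dset {l : ℕ} (e : Fin l → E) : Set E :=
  {v | ∃ i j : Fin l, i ≠ j ∧ ∃ s t : ℝ, (s = 1 ∨ s = -1) ∧ (t = 1 ∨ t = -1) ∧
    v = s • e i + t • e j}

theorem Frame.signed (h : SL R c) {l : ℕ} {e : Fin l → E} (F : Frame R c e) {i j : Fin l}
    (hij : i ≠ j) {s t : ℝ} (hs : s = 1 ∨ s = -1) (ht : t = 1 ∨ t = -1) :
    s • e i + t • e j ∈ R := by
  rcases hs with rfl | rfl <;> rcases ht with rfl | rfl
  · rw [one_smul, one_smul]; exact F.add i j hij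
  · rw [one_smul, neg_one_smul, ← sub_eq_add_neg]; exact F.sub i j hij
  · rw [one_smul, neg_one_smul, neg_add_eq_sub]; exact F.sub j i hij.symm
  · rw [neg_one_smul, neg_one_smul, ← neg_add]; exact h.neg_mem (F.add i j hij)

theorem Frame.dset_subset (h : SL R c) {l : ℕ} {e : Fin l → E} (F : Frame R c e) :
    Dset e ⊆ R := by
  rintro _ ⟨i, j, hij, s, t, hs, ht, rfl⟩
  exact F.signed h hij hs ht

/-- changing signs in a frame -/
theorem Frame.signs (h : SL R c) {l : ℕ} {e : Fin l → E} (F : Frame R c e) {s : Fin l → ℝ}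
    (hs : ∀ i, s i = 1 ∨ s i = -1) : Frame R c (fun i => s i • e i) where
  norm i := by
    rw [inner_smul_left, inner_smul_right, F.norm]
    simp only [conj_trivial]
    rcases hs i with h1 | h1 <;> rw [h1] <;> ring
  orth i j hij := by
    rw [inner_smul_left, inner_smul_right, F.orth i j hij, mul_zero, mul_zero]
  add i j hij := F.signed h hij (hs i) (hs j)
  sub i j hij := by
    rw [sub_eq_add_neg, ← neg_smul]
    refine F.signed h hij (hs i) ?_
    rcases hs j with h1 | h1 <;> rw [h1]
    · right; rfl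
    · left; rw [neg_neg]

/-- extension of a frame -/
theorem Frame.extend (h : SL R c) {l : ℕ} (hl : 2 ≤ l) {e : Fin l → E} (F : Frame R c e)
    {i₀ : Fin l} {x : E} (hx : inner ℝ x x = c / 2) (hxe : ∀ j, inner ℝ (e j) x = 0)
    (hm : e i₀ + x ∈ R) : Frame R c (Fin.snoc e x : Fin (l + 1) → E) := by
  have hxe' : ∀ j, inner ℝ x (e j) = 0 := fun j => by rw [real_inner_comm]; exact hxe j
  have h1 : ∀ j, e j + x ∈ R := by
    intro j
    by_cases hj : j = i₀
    · rw [hj]; exact hm
    · have h2 := F.sub j i₀ hj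
      have h3 : inner ℝ (e i₀ + x) (e j - e i₀) = -(c / 2) := by
        rw [inner_add_left, inner_sub_right, inner_sub_right, F.norm, F.orth i₀ j (Ne.symm hj),
          hxe', hxe']
        ring
      have h4 := h.add_mem hm h2 h3
      have h5 : e i₀ + x + (e j - e i₀) = e j + x := by abel
      rwa [h5] at h4
  have h2 : ∀ j, x - e j ∈ R := by
    intro j
    obtain ⟨k, hk⟩ : ∃ k : Fin l, k ≠ j := by
      have : Nontrivial (Fin l) := Fin.nontrivial_iff_two_le.2 hl
      exact exists_ne j
    have h3 := h.neg_mem (F.add k j hk)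
    have h4 : inner ℝ (e k + x) (-(e k + e j)) = -(c / 2) := by
      rw [inner_neg_right, inner_add_left, inner_add_right, inner_add_right, F.norm,
        F.orth k j hk, hxe', hxe']
      ring
    have h5 := h.add_mem (h1 k) h3 h4
    have h6 : e k + x + -(e k + e j) = x - e j := by abel
    rwa [h6] at h5
  constructor
  · intro i
    refine Fin.lastCases ?_ (fun i => ?_) i
    · rw [Fin.snoc_last]; exact hx
    · rw [Fin.snoc_castSucc]; exact F.norm i
  · intro i j
    refine Fin.lastCases ?_ (fun i => ?_) i <;> refine Fin.lastCases ?_ (fun j => ?_) j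
    · intro h0; exact absurd rfl h0
    · intro _
      rw [Fin.snoc_last, Fin.snoc_castSucc]; exact hxe' j
    · intro _
      rw [Fin.snoc_last, Fin.snoc_castSucc]; exact hxe i
    · intro h0
      rw [Fin.snoc_castSucc, Fin.snoc_castSucc]
      exact F.orth i j (fun h1 => h0 (by rw [h1]))
  · intro i j
    refine Fin.lastCases ?_ (fun i => ?_) i <;> refine Fin.lastCases ?_ (fun j => ?_) j
    · intro h0; exact absurd rfl h0
    · intro _
      rw [Fin.snoc_last, Fin.snoc_castSucc, add_comm]; exact h1 j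
    · intro _
      rw [Fin.snoc_last, Fin.snoc_castSucc]; exact h1 i
    · intro h0
      rw [Fin.snoc_castSucc, Fin.snoc_castSucc]
      exact F.add i j (fun h1 => h0 (by rw [h1]))
  · intro i j
    refine Fin.lastCases ?_ (fun i => ?_) i <;> refine Fin.lastCases ?_ (fun j => ?_) j
    · intro h0; exact absurd rfl h0
    · intro _
      rw [Fin.snoc_last, Fin.snoc_castSucc]; exact h2 j
    · intro _
      rw [Fin.snoc_last, Fin.snoc_castSucc]
      have h3 := h.neg_mem (h2 i)
      rwa [neg_sub] at h3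
    · intro h0
      rw [Fin.snoc_castSucc, Fin.snoc_castSucc]
      exact F.sub i j (fun h1 => h0 (by rw [h1]))

/-- extension of a frame, with a sign -/
theorem Frame.extend' (h : SL R c) {l : ℕ} (hl : 2 ≤ l) {e : Fin l → E} (F : Frame R c e)
    {i₀ : Fin l} {x : E} (hx : inner ℝ x x = c / 2) (hxe : ∀ j, inner ℝ (e j) x = 0)
    {s : ℝ} (hs : s = 1 ∨ s = -1) (hm : s • e i₀ + x ∈ R) :
    Frame R c (Fin.snoc e x : Fin (l + 1) → E) := by
  rcases hs with rfl | rfl
  · rw [one_smul] at hm
    exact F.extend h hl hx hxe hm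
  · have hxe' : ∀ j, inner ℝ x (e j) = 0 := fun j => by rw [real_inner_comm]; exact hxe j
    obtain ⟨k, hk⟩ : ∃ k : Fin l, k ≠ i₀ := by
      have : Nontrivial (Fin l) := Fin.nontrivial_iff_two_le.2 hl
      exact exists_ne i₀
    rw [neg_one_smul] at hm
    have h3 := F.add k i₀ hk
    have h4 : inner ℝ (-e i₀ + x) (e k + e i₀) = -(c / 2) := by
      rw [inner_add_left, inner_neg_left, inner_add_right, inner_add_right, F.norm,
        F.orth i₀ k (Ne.symm hk), hxe', hxe']
      ring
    have h5 := h.add_mem hm h3 h4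
    have h6 : -e i₀ + x + (e k + e i₀) = e k + x := by abel
    rw [h6] at h5
    exact F.extend h hl hx hxe h5

/-- a sum of two squares of nonzero integers which is at most two -/
theorem pm_one_of_sq {z w : ℤ} (hz : z ≠ 0) (hw : w ≠ 0) (h : z ^ 2 + w ^ 2 ≤ 2) :
    (z = 1 ∨ z = -1) ∧ (w = 1 ∨ w = -1) := by
  have h1 : 0 < z ^ 2 := by positivity
  have h2 : 0 < w ^ 2 := by positivity
  have h5 : z < 2 := by nlinarith
  have h6 : -2 < z := by nlinarith
  have h7 : w < 2 := by nlinarith
  have h8 : -2 < w := by nlinarith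
  constructor <;> omega

/-- roots with integral coordinates with respect to a frame -/
theorem Frame.int_cases (h : SL R c) {l : ℕ} (hl : 2 ≤ l) {e : Fin l → E} (F : Frame R c e)
    {g : E} (hg : g ∈ R) (hint : ∀ i, ∃ z : ℤ, inner ℝ g (e i) = z * (c / 2)) :
    (∀ i, inner ℝ g (e i) = 0) ∨ g ∈ Dset e ∨ ∃ x, Frame R c (Fin.snoc e x : Fin (l + 1) → E) := by
  have hc := h.pos
  choose z hz using hint
  by_cases h0 : ∀ i, z i = 0
  · left
    intro i
    rw [hz, h0 i]; push_cast; ring
  · right
    push Not at h0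
    obtain ⟨i, hi⟩ := h0
    by_cases h1 : ∃ j, j ≠ i ∧ z j ≠ 0
    · left
      obtain ⟨j, hji, hj⟩ := h1
      have hn : inner ℝ (g - ((z i : ℝ) • e i + (z j : ℝ) • e j))
          (g - ((z i : ℝ) • e i + (z j : ℝ) • e j)) =
          c - ((z i : ℝ) ^ 2 + (z j : ℝ) ^ 2) * (c / 2) := by
        rw [real_inner_sub_sub_self, real_inner_add_add_self, inner_add_right, inner_smul_right,
          inner_smul_right, inner_smul_left, inner_smul_left, inner_smul_right, inner_smul_right,
          inner_smul_left, inner_smul_right, F.norm, F.norm, F.orth i j (Ne.symm hji), hz, hz,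
          h.norm g hg]
        simp only [conj_trivial]
        ring
      have hnn : 0 ≤ c - ((z i : ℝ) ^ 2 + (z j : ℝ) ^ 2) * (c / 2) := by
        rw [← hn]; exact real_inner_self_nonneg
      have h2 : ((z i : ℝ) ^ 2 + (z j : ℝ) ^ 2) ≤ 2 := by
        by_contra hcon
        push Not at hcon
        nlinarith
      have h3 : z i ^ 2 + z j ^ 2 ≤ 2 := by exact_mod_cast h2
      obtain ⟨h4, h5⟩ := pm_one_of_sq hi hj h3
      refine ⟨i, j, Ne.symm hji, z i, z j, ?_, ?_, ?_⟩
      · rcases h4 with h4 | h4 <;> rw [h4]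
        · left; norm_num
        · right; norm_num
      · rcases h5 with h5 | h5 <;> rw [h5]
        · left; norm_num
        · right; norm_num
      · have h6 : inner ℝ (g - ((z i : ℝ) • e i + (z j : ℝ) • e j))
            (g - ((z i : ℝ) • e i + (z j : ℝ) • e j)) = 0 := by
          rw [hn]
          rcases h4 with h4 | h4 <;> rcases h5 with h5 | h5 <;> rw [h4, h5] <;> push_cast <;> ring
        exact sub_eq_zero.1 (inner_self_eq_zero.1 h6)
    · right
      push Not at h1
      have hn : inner ℝ (g - (z i : ℝ) • e i) (g - (z i : ℝ) • e i) =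
          c - ((z i : ℝ) ^ 2) * (c / 2) := by
        rw [real_inner_sub_sub_self, inner_smul_right, inner_smul_left, inner_smul_right, F.norm,
          hz, h.norm g hg]
        simp only [conj_trivial]
        ring
      have hnn : 0 ≤ c - ((z i : ℝ) ^ 2) * (c / 2) := by
        rw [← hn]; exact real_inner_self_nonneg
      have h2 : ((z i : ℝ) ^ 2) ≤ 2 := by
        by_contra hcon
        push Not at hcon
        nlinarith
      have h3 : z i ^ 2 ≤ 2 := by exact_mod_cast h2
      have h4 : z i ^ 2 + 1 ^ 2 ≤ 3 := by omega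
      have h5 : z i = 1 ∨ z i = -1 := by
        have h6 : -2 < z i := by nlinarith
        have h7 : z i < 2 := by nlinarith
        omega
      refine ⟨g - (z i : ℝ) • e i, ?_⟩
      have hs : ((z i : ℝ) = 1 ∨ (z i : ℝ) = -1) := by
        rcases h5 with h5 | h5 <;> rw [h5]
        · left; norm_num
        · right; norm_num
      have hxe : ∀ j, inner ℝ (e j) (g - (z i : ℝ) • e i) = 0 := by
        intro j
        rw [inner_sub_right, inner_smul_right, real_inner_comm, hz]
        by_cases hj : j = i
        · rw [hj, F.norm]; ring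
        · rw [F.orth j i hj, h1 j hj]; push_cast; ring
      refine F.extend' h hl (i₀ := i) ?_ hxe hs ?_
      · rw [hn]
        rcases h5 with h5 | h5 <;> rw [h5] <;> push_cast <;> ring
      · have h8 : (z i : ℝ) • e i + (g - (z i : ℝ) • e i) = g := by abel
        rw [h8]; exact hg

/-- irreducibility: a nonempty subset orthogonal to the rest is everything -/
theorem IsIrred.eq_of_orth (hi : IsIrred R) {A : Set E} (hA : A.Nonempty) (hAR : A ⊆ R)
    (h : ∀ g ∈ R, g ∉ A → ∀ a ∈ A, inner ℝ a g = 0) : R = A := by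
  rcases hi.2 A (R \ A) (Set.union_sdiff_cancel hAR) (fun a ha b hb => h b hb.1 hb.2 a ha) with
    h1 | h1
  · rw [h1] at hA
    exact absurd hA Set.not_nonempty_empty
  · exact Set.Subset.antisymm (Set.sdiff_eq_empty.1 h1) hAR

end

end Pool.Agent.helper54.SOG
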