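import Pool.Agent.helper54.SOG.Basic

namespace Pool.Agent.helper54.SOG

open Finset

section Count

variable {l : ℕ}

theorem so_of_isSOS {S : Finset (Fin l → ℝ)} (hS : IsSOS (rootsD l) S) {a b : Fin l → ℝ}
    (ha : a ∈ S) (hb : b ∈ S) : sp a = sp b ∨ Disjoint (sp a) (sp b) := by
  by_cases hab : a = b
  · left; rw [hab]
  · obtain ⟨_, h1, h2⟩ := hS.2 a ha b hb hab
    exact so_support (hS.1 a ha) (hS.1 b hb) h1 h2

open scoped Classical in
theorem fiber_le {S : Finset (Fin l → ℝ)} (hS : IsSOS (rootsD l) S) (P : Finset (Fin l)) :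
    (S.filter (fun a => sp a = P)).card ≤ 2 := by
  by_contra hc
  rw [not_le, two_lt_card] at hc
  obtain ⟨a, ha, b, hb, c, hc, hab, hac, hbc⟩ := hc
  rw [mem_filter] at ha hb hc
  have h1 := so_same (hS.1 a ha.1) (hS.1 b hb.1) hab (hS.2 a ha.1 b hb.1 hab).1
    (ha.2.trans hb.2.symm)
  have key : ∀ a b : Fin l → ℝ, a ∈ S → b ∈ S → a ≠ b → sp a = P → sp b = P →
      ∑ x ∈ P, a x * b x = 0 := by
    intro a b ha hb hab hpa hpb
    obtain ⟨i, j, hij, hsp, hi, hj, hi', hj'⟩ := so_same (hS.1 a ha) (hS.1 b hb) hab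
      (hS.2 a ha b hb hab).1 (hpa.trans hpb.symm)
    rw [← hpa, hsp, sum_pair hij, ← hi]
    have hbj : b j = - a j := by rw [hj, neg_neg]
    rw [hbj]
    rcases hi' with h | h <;> rcases hj' with h' | h' <;> rw [h, h'] <;> norm_num
  obtain ⟨i, j, hij, hsp, hi, hj, hi', hj'⟩ := h1
  have hP : P = {i, j} := ha.2.symm.trans hsp
  have e1 := key a b ha.1 hb.1 hab ha.2 hb.2
  have e2 := key a c ha.1 hc.1 hac ha.2 hc.2
  have e3 := key b c hb.1 hc.1 hbc hb.2 hc.2
  rw [hP, sum_pair hij] at e1 e2 e3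
  have hci : c i = 1 ∨ c i = -1 := by
    have := ((mem_rootsD_iff c).1 (hS.1 c hc.1)).1 i
    refine this.resolve_left (mem_sp.1 ?_)
    rw [hc.2, hP]; simp
  have hbj : b j = - a j := by rw [hj, neg_neg]
  rw [← hi, hbj] at e3
  have hz : a i * c i = 0 := by linarith
  rcases hi' with h | h <;> rcases hci with h' | h' <;> rw [h, h'] at hz <;> norm_num at hz

open scoped Classical in
theorem card_le_two_mul {S : Finset (Fin l → ℝ)} (hS : IsSOS (rootsD l) S) :
    S.card ≤ 2 * (S.image sp).card :=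
  card_le_mul_card_image S 2 (fun P _ => fiber_le hS P)

open scoped Classical in
theorem two_mul_le {S : Finset (Fin l → ℝ)} (hS : IsSOS (rootsD l) S) (A : Finset (Fin l))
    (hA : ∀ a ∈ S, sp a ⊆ A) : 2 * (S.image sp).card ≤ A.card := by
  have h1 : ((S.image sp).biUnion id).card = ∑ P ∈ S.image sp, P.card := by
    apply card_biUnion
    intro P hP Q hQ hPQ
    obtain ⟨a, ha, rfl⟩ := mem_image.1 hP
    obtain ⟨b, hb, rfl⟩ := mem_image.1 hQ
    exact (so_of_isSOS hS ha hb).resolve_left hPQ
  have h2 : ∑ P ∈ S.image sp, P.card = 2 * (S.image sp).card := by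
    rw [mul_comm, ← smul_eq_mul, ← sum_const]
    apply sum_congr rfl
    intro P hP
    obtain ⟨a, ha, rfl⟩ := mem_image.1 hP
    exact ((mem_rootsD_iff a).1 (hS.1 a ha)).2
  rw [← h2, ← h1]
  apply card_le_card
  intro x hx
  obtain ⟨P, hP, hxP⟩ := mem_biUnion.1 hx
  obtain ⟨a, ha, rfl⟩ := mem_image.1 hP
  exact hA a ha hxP

/-- If an even strongly orthogonal subset of `D_l` has at least `l - 1` elements, its sum is twice
a vector with entries `0, 1, -1` and half as many nonzero entries as the set has elements. -/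
theorem full_fwd {S : Finset (Fin l → ℝ)} (hS : IsSOS (rootsD l) S) {h : ℕ}
    (hc : S.card = 2 * h) (hl : l ≤ 2 * h + 1) : ∃ u ∈ UU l h, ∑ a ∈ S, a = (2 : ℝ) • u := by
  classical
  have h1 := card_le_two_mul hS
  have h2 := two_mul_le hS univ (fun a _ => subset_univ _)
  rw [card_univ, Fintype.card_fin] at h2
  have him : (S.image sp).card = h := by omega
  -- every fiber has exactly two elements
  have hfib : ∀ P ∈ S.image sp, (S.filter (fun a => sp a = P)).card = 2 := by
    have hsum : ∑ P ∈ S.image sp, (S.filter (fun a => sp a = P)).card = S.card := by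
      rw [← card_eq_sum_card_image]
    have hle : ∀ P ∈ S.image sp, (S.filter (fun a => sp a = P)).card ≤ 2 :=
      fun P _ => fiber_le hS P
    have heq : ∑ P ∈ S.image sp, (S.filter (fun a => sp a = P)).card
        = ∑ P ∈ S.image sp, 2 := by
      rw [hsum, sum_const, smul_eq_mul, him]; omega
    exact (sum_eq_sum_iff_of_le hle).1 heq
  set v : Fin l → ℝ := ∑ a ∈ S, a with hv
  -- coordinates
  have hcoord : ∀ P ∈ S.image sp, ∃ i j : Fin l, i ≠ j ∧ P = {i, j} ∧
      (v i = 2 ∨ v i = -2) ∧ v j = 0 := by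
    intro P hP
    obtain ⟨a, b, hab, hfab⟩ := card_eq_two.1 (hfib P hP)
    have ha : a ∈ S ∧ sp a = P := by
      have : a ∈ S.filter (fun a => sp a = P) := by rw [hfab]; simp
      exact mem_filter.1 this
    have hb : b ∈ S ∧ sp b = P := by
      have : b ∈ S.filter (fun a => sp a = P) := by rw [hfab]; simp
      exact mem_filter.1 this
    obtain ⟨i, j, hij, hsp, hi, hj, hi', hj'⟩ := so_same (hS.1 a ha.1) (hS.1 b hb.1) hab
      (hS.2 a ha.1 b hb.1 hab).1 (ha.2.trans hb.2.symm)
    have hPij : P = {i, j} := ha.2.symm.trans hsp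
    have hval : ∀ x ∈ P, v x = a x + b x := by
      intro x hx
      rw [hv, Finset.sum_apply]
      have hz : ∀ c ∈ S, c ∉ S.filter (fun a => sp a = P) → c x = 0 := by
        intro c hcS hcP
        by_contra hcx
        have hxc : x ∈ sp c := mem_sp.2 hcx
        apply hcP
        rw [mem_filter]
        refine ⟨hcS, ?_⟩
        rcases so_of_isSOS hS hcS ha.1 with h3 | h3
        · exact h3.trans ha.2
        · exfalso
          rw [Finset.disjoint_left] at h3
          exact h3 hxc (by rw [ha.2]; exact hx)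
      rw [← Finset.sum_subset (filter_subset (fun a => sp a = P) S) hz, hfab, sum_pair hab]
    refine ⟨i, j, hij, hPij, ?_, ?_⟩
    · rw [hval i (by rw [hPij]; simp), ← hi]
      rcases hi' with h3 | h3 <;> rw [h3] <;> norm_num
    · rw [hval j (by rw [hPij]; simp), hj, neg_add_cancel]
  have hout : ∀ x, (∀ P ∈ S.image sp, x ∉ P) → v x = 0 := by
    intro x hx
    rw [hv, Finset.sum_apply]
    apply sum_eq_zero
    intro a ha
    by_contra h3
    exact hx _ (mem_image_of_mem _ ha) (mem_sp.2 h3)
  have hdisj : ∀ P ∈ S.image sp, ∀ Q ∈ S.image sp, P ≠ Q → Disjoint P Q := by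
    intro P hP Q hQ hPQ
    obtain ⟨a, ha, rfl⟩ := mem_image.1 hP
    obtain ⟨b, hb, rfl⟩ := mem_image.1 hQ
    exact (so_of_isSOS hS ha hb).resolve_left hPQ
  refine ⟨(1 / 2 : ℝ) • v, ⟨?_, ?_⟩, ?_⟩
  · intro x
    simp only [Pi.smul_apply, smul_eq_mul]
    by_cases hx : ∃ P ∈ S.image sp, x ∈ P
    · obtain ⟨P, hP, hxP⟩ := hx
      obtain ⟨i, j, hij, hPij, hvi, hvj⟩ := hcoord P hP
      rw [hPij, mem_insert, mem_singleton] at hxP
      rcases hxP with rfl | rfl
      · rcases hvi with h3 | h3 <;> rw [h3] <;> norm_num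
      · rw [hvj]; norm_num
    · push Not at hx
      rw [hout x hx]; norm_num
  · have hsp : sp ((1 / 2 : ℝ) • v) = (S.image sp).biUnion (fun P => P.filter (fun x => v x ≠ 0)) := by
      ext x
      rw [mem_sp, mem_biUnion]
      simp only [Pi.smul_apply, smul_eq_mul, mem_filter]
      constructor
      · intro hx
        have hvx : v x ≠ 0 := by
          intro h0; apply hx; rw [h0, mul_zero]
        by_contra hcon
        push Not at hcon
        apply hvx
        apply hout
        intro P hP hxP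
        exact hvx (hcon P hP hxP)
      · rintro ⟨P, hP, hxP, hvx⟩
        exact mul_ne_zero (by norm_num) hvx
    rw [hsp, card_biUnion]
    · have : ∀ P ∈ S.image sp, (P.filter (fun x => v x ≠ 0)).card = 1 := by
        intro P hP
        obtain ⟨i, j, hij, hPij, hvi, hvj⟩ := hcoord P hP
        rw [card_eq_one]
        refine ⟨i, ?_⟩
        ext x
        rw [mem_filter, hPij, mem_insert, mem_singleton, mem_singleton]
        constructor
        · rintro ⟨rfl | rfl, h3⟩
          · rfl
          · exact absurd hvj h3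
        · rintro rfl
          refine ⟨Or.inl rfl, ?_⟩
          rcases hvi with h3 | h3 <;> rw [h3] <;> norm_num
      rw [sum_congr rfl this, sum_const, smul_eq_mul, mul_one, him]
    · intro P hP Q hQ hPQ
      exact (hdisj P hP Q hQ hPQ).mono (filter_subset _ _) (filter_subset _ _)
  · rw [smul_smul]; norm_num

end Count

end Pool.Agent.helper54.SOG
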