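import Pool.Agent.helper54.SOG.E6

/-!
Simply laced root systems `R` for which the sums of two, or of four, strongly orthogonal roots form
an irreducible simply laced root system.
-/

namespace Pool.Agent.helper54.SOG

open Finset

section

variable {E : Type*} [NormedAddCommGroup E] [InnerProductSpace ℝ E] {R : Set E} {c : ℝ}

/-- inner products of signed sums of frame vectors with disjoint indices -/
theorem Frame.inner_add_add {l : ℕ} {e : Fin l → E} (F : Frame R c e) {i j k m : Fin l}
    (h1 : i ≠ k) (h2 : i ≠ m) (h3 : j ≠ k) (h4 : j ≠ m) :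
    inner ℝ (e i + e j) (e k + e m) = 0 := by
  rw [inner_add_left, inner_add_right, inner_add_right, F.orth i k h1, F.orth i m h2,
    F.orth j k h3, F.orth j m h4]
  ring

theorem Frame.inner_sub_add {l : ℕ} {e : Fin l → E} (F : Frame R c e) {i j k m : Fin l}
    (h1 : i ≠ k) (h2 : i ≠ m) (h3 : j ≠ k) (h4 : j ≠ m) :
    inner ℝ (e i - e j) (e k + e m) = 0 := by
  rw [inner_sub_left, inner_add_right, inner_add_right, F.orth i k h1, F.orth i m h2,
    F.orth j k h3, F.orth j m h4]
  ring

theorem Frame.inner_add_sub {l : ℕ} {e : Fin l → E} (F : Frame R c e) {i j : Fin l}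
    (hij : i ≠ j) : inner ℝ (e i + e j) (e i - e j) = 0 := by
  rw [inner_add_left, inner_sub_right, inner_sub_right, F.norm, F.norm, F.orth i j hij,
    F.orth j i (Ne.symm hij)]
  ring

/-! ### Sums of two -/

theorem no_frame_five (h : SL R c) (hV : SL (sosSums R 2) ((2 : ℕ) * c)) (e : Fin 5 → E) :
    ¬ Frame R c e := by
  intro F
  have hc := h.pos
  have hv : (e 0 + e 1) + (e 2 + e 3) ∈ sosSums R 2 :=
    h.mem_two.2 ⟨_, F.add 0 1 (by decide), _, F.add 2 3 (by decide),
      F.inner_add_add (by decide) (by decide) (by decide) (by decide), rfl⟩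
  have hk : inner ℝ ((e 0 + e 1) + (e 2 + e 3)) (e 3 + e 4) = (1 : ℤ) * (c / 2) := by
    rw [inner_add_left, F.inner_add_add (by decide) (by decide) (by decide) (by decide),
      inner_add_left, inner_add_right, inner_add_right, F.norm, F.orth 2 3 (by decide),
      F.orth 2 4 (by decide), F.orth 3 4 (by decide)]
    push_cast; ring
  rcases even_cases h hV hv (F.add 3 4 (by decide)) hk with h1 | h1 | h1 | h1 | h1 <;> omega

theorem int_two (h : SL R c) (hV : SL (sosSums R 2) ((2 : ℕ) * c)) {l : ℕ} (hl : 2 ≤ l)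
    {e : Fin l → E} (F : Frame R c e) {g : E} (hg : g ∈ R) (i : Fin l) :
    ∃ z : ℤ, inner ℝ g (e i) = z * (c / 2) := by
  have hnt : Nontrivial (Fin l) := Fin.nontrivial_iff_two_le.2 hl
  obtain ⟨j, hj⟩ := exists_ne i
  have hv : (e i + e j) + (e i - e j) ∈ sosSums R 2 :=
    h.mem_two.2 ⟨_, F.add i j (Ne.symm hj), _, F.sub i j (Ne.symm hj),
      F.inner_add_sub (Ne.symm hj), rfl⟩
  obtain ⟨k, hk⟩ := h.int_sosSums hv hg
  have hk2 : k ^ 2 = 4 ∨ k ^ 2 = 2 ∨ k ^ 2 = 6 ∨ k = 0 ∨ k ^ 2 = 8 := by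
    rcases even_cases h hV hv hg hk with h1 | h1 | h1 | h1 | h1
    · left; rw [h1]; norm_num
    · right; left; rw [h1]; norm_num
    · right; right; left; rw [h1]; norm_num
    · right; right; right; left; exact h1
    · right; right; right; right; rw [h1]; norm_num
  have hb : k ^ 2 ≤ 8 := by
    rcases hk2 with h1 | h1 | h1 | h1 | h1
    · omega
    · omega
    · omega
    · rw [h1]; norm_num
    · omega
  have h2 : k % 2 = 0 := by
    have h4 : k < 3 := by nlinarith
    have h5 : -3 < k := by nlinarith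
    have h6 : k = -2 ∨ k = -1 ∨ k = 0 ∨ k = 1 ∨ k = 2 := by omega
    rcases h6 with rfl | rfl | rfl | rfl | rfl <;> omega
  refine ⟨k / 2, ?_⟩
  have h3 : k = 2 * (k / 2) := by omega
  have h4 : (k : ℝ) = 2 * ((k / 2 : ℤ) : ℝ) := by exact_mod_cast h3
  have h5 : (e i + e j) + (e i - e j) = (2 : ℝ) • e i := by module
  rw [h5, inner_smul_left, real_inner_comm, h4] at hk
  simp only [conj_trivial] at hk
  linarith

/-- classification for `m = 2` -/
theorem class_two (h : SL R c) (hi : IsIrred R) (hR : Submodule.span ℝ R = ⊤)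
    (hV : SL (sosSums R 2) ((2 : ℕ) * c))
    (hedge : ∃ v ∈ sosSums R 2, ∃ w ∈ sosSums R 2, inner ℝ v w = c) :
    ∃ e : Fin 4 → E, Frame R c e ∧ R = Dset e := by
  have hc := h.pos
  obtain ⟨v, hv, w, hw, hvw⟩ := hedge
  obtain ⟨a, ha, b, hb, hab, habv⟩ := h.mem_two.1 hv
  obtain ⟨x, F⟩ := frame_three h hi ha hb hab
  have hint : ∀ {l : ℕ} (hl : 2 ≤ l) {e : Fin l → E} (F : Frame R c e),
      ∀ g ∈ R, ∀ i, ∃ z : ℤ, inner ℝ g (e i) = z * (c / 2) :=
    fun hl _ F g hg i => int_two h hV hl F hg i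
  by_cases hmax : ∀ y, ¬ Frame R c (Fin.snoc (Fin.snoc ![(1 / 2 : ℝ) • (a + b),
      (1 / 2 : ℝ) • (a - b)] x : Fin 3 → E) y : Fin 4 → E)
  · exfalso
    have hRD := eq_dset_of_int h hi (by norm_num) F hmax (hint (by norm_num) F)
    generalize hedef : (Fin.snoc ![(1 / 2 : ℝ) • (a + b), (1 / 2 : ℝ) • (a - b)] x :
      Fin 3 → E) = e at F hRD
    have he0 : v = (2 : ℝ) • e 0 := by
      have h1 : e 0 = (1 / 2 : ℝ) • (a + b) := by rw [← hedef]; rfl
      rw [h1, habv, smul_smul]
      norm_num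
    -- coordinates of w
    obtain ⟨a', ha', b', hb', _, hw'⟩ := h.mem_two.1 hw
    have hz : ∀ i, ∃ z : ℤ, inner ℝ w (e i) = z * (c / 2) := by
      intro i
      obtain ⟨z1, hz1⟩ := hint (by norm_num) F a' ha' i
      obtain ⟨z2, hz2⟩ := hint (by norm_num) F b' hb' i
      refine ⟨z1 + z2, ?_⟩
      rw [← hw', inner_add_left, hz1, hz2]
      push_cast; ring
    choose z hz using hz
    obtain ⟨h1, h2⟩ := Frame.proj F.norm F.orth w (fun i => (z i : ℝ)) hz
    have h3 : w - ∑ i, (z i : ℝ) • e i = 0 := by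
      apply eq_zero_of_orth hR
      intro r hr
      rw [hRD] at hr
      exact inner_dset (fun i => by rw [real_inner_comm]; exact h1 i) hr
    rw [h3, inner_zero_left, h.norm_sosSums hw, Fin.sum_univ_three] at h2
    have h4 : (z 0 : ℝ) = 1 := by
      rw [he0, inner_smul_left, real_inner_comm, hz 0] at hvw
      simp only [conj_trivial] at hvw
      have : ((z 0 : ℝ) - 1) * c = 0 := by linarith
      rcases mul_eq_zero.1 this with h5 | h5
      · linarith
      · exact absurd h5 hc.ne'
    have h5 : (z 1 : ℝ) ^ 2 + (z 2 : ℝ) ^ 2 = 3 := by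
      rw [h4] at h2
      push_cast at h2
      have : (3 - ((z 1 : ℝ) ^ 2 + (z 2 : ℝ) ^ 2)) * (c / 2) = 0 := by linarith
      rcases mul_eq_zero.1 this with h6 | h6
      · linarith
      · linarith
    have h6 : z 1 ^ 2 + z 2 ^ 2 = 3 := by exact_mod_cast h5
    have b1 : z 1 < 2 := by nlinarith [sq_nonneg (z 2)]
    have b2 : -2 < z 1 := by nlinarith [sq_nonneg (z 2)]
    have b3 : z 2 < 2 := by nlinarith [sq_nonneg (z 1)]
    have b4 : -2 < z 2 := by nlinarith [sq_nonneg (z 1)]
    have c1 : z 1 = -1 ∨ z 1 = 0 ∨ z 1 = 1 := by omega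
    have c2 : z 2 = -1 ∨ z 2 = 0 ∨ z 2 = 1 := by omega
    rcases c1 with c1 | c1 | c1 <;> rcases c2 with c2 | c2 | c2 <;> rw [c1, c2] at h6 <;>
      norm_num at h6
  · push Not at hmax
    obtain ⟨y, G⟩ := hmax
    refine ⟨_, G, eq_dset_of_int h hi (by norm_num) G (fun z => no_frame_five h hV _)
      (hint (by norm_num) G)⟩

/-- four orthogonal roots form a frame of the sums of two -/
theorem frame_sums (h : SL R c) {l : ℕ} {f : Fin l → E} (hf : ∀ i, f i ∈ R)
    (ho : ∀ i j, i ≠ j → inner ℝ (f i) (f j) = 0) :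
    Frame (sosSums R 2) ((2 : ℕ) * c) f where
  norm i := by rw [h.norm _ (hf i)]; push_cast; ring
  orth := ho
  add i j hij := h.mem_two.2 ⟨_, hf i, _, hf j, ho i j hij, rfl⟩
  sub i j hij := h.mem_two.2 ⟨_, hf i, _, h.neg_mem (hf j),
    by rw [inner_neg_right, ho i j hij, neg_zero], (sub_eq_add_neg _ _).symm⟩

/-- the sums of two in type `D_4` -/
theorem sums_two_of_four (h : SL R c) (hR : Submodule.span ℝ R = ⊤)
    (hV : SL (sosSums R 2) ((2 : ℕ) * c)) {e : Fin 4 → E} (F : Frame R c e) (hRD : R = Dset e) :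
    ∃ f : Fin 4 → E, Frame (sosSums R 2) ((2 : ℕ) * c) f ∧ sosSums R 2 = Dset f ∧
      ∀ x, (∀ i, inner ℝ (f i) x = 0) → x = 0 := by
  have a1 := F.add 0 1 (by decide)
  have a2 := F.sub 0 1 (by decide)
  have a3 := F.add 2 3 (by decide)
  have a4 := F.sub 2 3 (by decide)
  have q12 := F.inner_add_sub (i := 0) (j := 1) (by decide)
  have q34 := F.inner_add_sub (i := 2) (j := 3) (by decide)
  have q13 : inner ℝ (e 0 + e 1) (e 2 + e 3) = 0 :=
    F.inner_add_add (by decide) (by decide) (by decide) (by decide)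
  have q23 : inner ℝ (e 0 - e 1) (e 2 + e 3) = 0 :=
    F.inner_sub_add (by decide) (by decide) (by decide) (by decide)
  have q14 : inner ℝ (e 0 + e 1) (e 2 - e 3) = 0 := by
    rw [real_inner_comm]
    exact F.inner_sub_add (by decide) (by decide) (by decide) (by decide)
  have q24 : inner ℝ (e 0 - e 1) (e 2 - e 3) = 0 := by
    rw [inner_sub_left, inner_sub_right, inner_sub_right, F.orth 0 2 (by decide),
      F.orth 0 3 (by decide), F.orth 1 2 (by decide), F.orth 1 3 (by decide)]
    ring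
  let f : Fin 4 → E := ![e 0 + e 1, e 0 - e 1, e 2 + e 3, e 2 - e 3]
  have hf : ∀ i, f i ∈ R := by
    intro i
    fin_cases i
    · exact a1
    · exact a2
    · exact a3
    · exact a4
  have ho : ∀ i j, i ≠ j → inner ℝ (f i) (f j) = 0 := by
    intro i j hij
    fin_cases i <;> fin_cases j <;>
      first
        | exact absurd rfl hij
        | assumption
        | (rw [real_inner_comm]; assumption)
  have G := frame_sums h hf ho
  have hsp : ∀ x, (∀ i, inner ℝ (f i) x = 0) → x = 0 := by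
    intro x hx
    have x0 : inner ℝ (e 0 + e 1) x = 0 := hx 0
    have x1 : inner ℝ (e 0 - e 1) x = 0 := hx 1
    have x2 : inner ℝ (e 2 + e 3) x = 0 := hx 2
    have x3 : inner ℝ (e 2 - e 3) x = 0 := hx 3
    rw [inner_add_left] at x0 x2
    rw [inner_sub_left] at x1 x3
    have hex : ∀ i, inner ℝ x (e i) = 0 := by
      intro i
      rw [real_inner_comm]
      fin_cases i
      · change inner ℝ (e 0) x = 0; linarith
      · change inner ℝ (e 1) x = 0; linarith
      · change inner ℝ (e 2) x = 0; linarith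
      · change inner ℝ (e 3) x = 0; linarith
    apply eq_zero_of_orth hR
    intro r hr
    rw [hRD] at hr
    exact inner_dset hex hr
  exact ⟨f, G, G.eq_dset_of_span hV (by norm_num) (by norm_num) hsp, hsp⟩

/-! ### Sums of four -/

theorem no_frame_six (h : SL R c) (hV : SL (sosSums R 4) ((4 : ℕ) * c)) (e : Fin 6 → E) :
    ¬ Frame R c e := by
  intro F
  have hc := h.pos
  have hv : (e 0 + e 1) + (e 0 - e 1) + (e 2 + e 4) + (e 3 + e 5) ∈ sosSums R 4 :=
    h.mem_four.2 ⟨_, F.add 0 1 (by decide), _, F.sub 0 1 (by decide), _, F.add 2 4 (by decide),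
      _, F.add 3 5 (by decide), F.inner_add_sub (by decide),
      F.inner_add_add (by decide) (by decide) (by decide) (by decide),
      F.inner_add_add (by decide) (by decide) (by decide) (by decide),
      F.inner_sub_add (by decide) (by decide) (by decide) (by decide),
      F.inner_sub_add (by decide) (by decide) (by decide) (by decide),
      F.inner_add_add (by decide) (by decide) (by decide) (by decide), rfl⟩
  have hk : inner ℝ ((e 0 + e 1) + (e 0 - e 1) + (e 2 + e 4) + (e 3 + e 5)) (e 1 + e 4) =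
      (1 : ℤ) * (c / 2) := by
    rw [inner_add_left, inner_add_left, inner_add_left, inner_add_left, inner_add_left,
      inner_add_left, inner_sub_left, inner_add_right, inner_add_right, inner_add_right,
      inner_add_right, inner_add_right, inner_add_right, F.norm, F.norm,
      F.orth 0 1 (by decide), F.orth 0 4 (by decide), F.orth 1 4 (by decide),
      F.orth 2 1 (by decide), F.orth 2 4 (by decide), F.orth 4 1 (by decide),
      F.orth 3 1 (by decide), F.orth 3 4 (by decide), F.orth 5 1 (by decide),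
      F.orth 5 4 (by decide)]
    push_cast; ring
  rcases even_cases h hV hv (F.add 1 4 (by decide)) hk with h1 | h1 | h1 | h1 | h1 <;> omega

/-- twice some root is a sum of four orthogonal roots -/
theorem exists_double (h : SL R c) (hi : IsIrred R) (hV : SL (sosSums R 4) ((4 : ℕ) * c))
    (hne : (sosSums R 4).Nonempty) : ∃ g ∈ R, (2 : ℝ) • g ∈ sosSums R 4 := by
  have hc := h.pos
  obtain ⟨v, hv⟩ := hne
  obtain ⟨a, ha, b, hb, x, hx, y, hy, hab, hax, hay, hbx, hby, hxy, rfl⟩ := h.mem_four.1 hv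
  obtain ⟨g, hg, hga, hgb⟩ := h.exists_common hi ha hb hab
  have key : ∀ z ∈ R, inner ℝ a z = 0 → inner ℝ g z = 0 ∨ inner ℝ g z = c / 2 ∨
      inner ℝ g z = -(c / 2) := by
    intro z hz haz
    have hza : inner ℝ z a = 0 := by rw [real_inner_comm]; exact haz
    rcases h.inner_cases hg hz with h1 | h1 | h1 | h1 | h1
    · exact Or.inl h1
    · exact Or.inr (Or.inl h1)
    · exact Or.inr (Or.inr h1)
    · exfalso; rw [h1, hza] at hga; linarith
    · exfalso; rw [h1, inner_neg_left, hza] at hga; linarith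
  have hvg : inner ℝ (a + b + x + y) g = c + inner ℝ g x + inner ℝ g y := by
    rw [inner_add_left, inner_add_left, inner_add_left, real_inner_comm, hga,
      real_inner_comm g b, hgb, real_inner_comm g x, real_inner_comm g y]
    ring
  have hodd : ∀ k : ℤ, (k = 1 ∨ k = 3) → inner ℝ (a + b + x + y) g = k * (c / 2) → False := by
    intro k hk hkk
    rcases even_cases h hV hv hg hkk with h1 | h1 | h1 | h1 | h1 <;>
      rcases hk with rfl | rfl <;> omega
  -- the case where `g` is not orthogonal to `x`, `y`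
  have hfour : ∀ x' ∈ R, ∀ y' ∈ R, inner ℝ a x' = 0 → inner ℝ a y' = 0 → inner ℝ b x' = 0 →
      inner ℝ b y' = 0 → inner ℝ x' y' = 0 → inner ℝ g x' = c / 2 → inner ℝ g y' = c / 2 →
      (2 : ℝ) • g ∈ sosSums R 4 := by
    intro x' hx' y' hy' h1 h2 h3 h4 h5 h6 h7
    have h8 : a + b + x' + y' ∈ sosSums R 4 :=
      h.mem_four.2 ⟨a, ha, b, hb, x', hx', y', hy', hab, h1, h2, h3, h4, h5, rfl⟩
    have h9 : inner ℝ ((2 : ℝ) • g - (a + b + x' + y')) ((2 : ℝ) • g - (a + b + x' + y')) = 0 := by
      rw [real_inner_sub_sub_self, h.norm_sosSums h8, inner_smul_left, inner_smul_left,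
        inner_smul_right, h.norm g hg, inner_add_right, inner_add_right, inner_add_right, hga,
        hgb, h6, h7]
      simp only [conj_trivial]
      push_cast
      ring
    rw [sub_eq_zero.1 (inner_self_eq_zero.1 h9)]
    exact h8
  refine ⟨g, hg, ?_⟩
  have hx_or : ∀ z, inner ℝ a z = 0 → inner ℝ a (-z) = 0 := fun z hz => by
    rw [inner_neg_right, hz, neg_zero]
  have hb_or : ∀ z, inner ℝ b z = 0 → inner ℝ b (-z) = 0 := fun z hz => by
    rw [inner_neg_right, hz, neg_zero]
  rcases key x hx hax with h1 | h1 | h1 <;> rcases key y hy hay with h2 | h2 | h2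
  · -- orthogonal to both
    have hw := h.refl_mem_sosSums hg hv
    have e0 : 2 * inner ℝ (a + b + x + y) g / c = 2 := by
      rw [hvg, h1, h2]; field_simp; ring
    rw [e0] at hw
    have e1 : inner ℝ (a + b + x + y) (a + b + x + y - (2 : ℝ) • g) = (4 : ℕ) * c / 2 := by
      rw [inner_sub_right, inner_smul_right, hvg, h1, h2, h.norm_sosSums hv]
      push_cast; ring
    have e2 := hV.sub_mem hv hw e1
    rwa [sub_sub_cancel] at e2
  · exact (hodd 3 (Or.inr rfl) (by rw [hvg, h1, h2]; push_cast; ring)).elim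
  · exact (hodd 1 (Or.inl rfl) (by rw [hvg, h1, h2]; push_cast; ring)).elim
  · exact (hodd 3 (Or.inr rfl) (by rw [hvg, h1, h2]; push_cast; ring)).elim
  · exact hfour x hx y hy hax hay hbx hby hxy h1 h2
  · exact hfour x hx (-y) (h.neg_mem hy) hax (hx_or y hay) hbx (hb_or y hby)
      (by rw [inner_neg_right, hxy, neg_zero]) h1 (by rw [inner_neg_right, h2, neg_neg])
  · exact (hodd 1 (Or.inl rfl) (by rw [hvg, h1, h2]; push_cast; ring)).elim
  · exact hfour (-x) (h.neg_mem hx) y hy (hx_or x hax) hay (hb_or x hbx) hby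
      (by rw [inner_neg_left, hxy, neg_zero]) (by rw [inner_neg_right, h1, neg_neg]) h2
  · exact hfour (-x) (h.neg_mem hx) (-y) (h.neg_mem hy) (hx_or x hax) (hx_or y hay) (hb_or x hbx)
      (hb_or y hby) (by rw [inner_neg_neg, hxy]) (by rw [inner_neg_right, h1, neg_neg])
      (by rw [inner_neg_right, h2, neg_neg])

/-- a property of roots invariant under passing to a root at sixty degrees and to the negative -/
theorem SL.all_of_one (h : SL R c) (hi : IsIrred R) {P : E → Prop} {g : E} (hg : g ∈ R) (hP : P g)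
    (h1 : ∀ a ∈ R, ∀ b ∈ R, inner ℝ a b = c / 2 → P a → P b)
    (h2 : ∀ a ∈ R, P a → P (-a)) : ∀ b ∈ R, P b := by
  intro b hb
  rcases h.inner_cases hg hb with h3 | h3 | h3 | h3 | h3
  · obtain ⟨k, hk, hkg, hkb⟩ := h.exists_common hi hg hb h3
    exact h1 k hk b hb hkb (h1 g hg k hk (by rw [real_inner_comm]; exact hkg) hP)
  · exact h1 g hg b hb h3 hP
  · have h4 := h1 g hg (-b) (h.neg_mem hb) (by rw [inner_neg_right, h3, neg_neg]) hP
    have h5 := h2 (-b) (h.neg_mem hb) h4
    rwa [neg_neg] at h5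
  · rw [← h3]; exact hP
  · have h4 := h2 g hg hP
    rwa [h3, neg_neg] at h4

theorem double_mem (h : SL R c) (hi : IsIrred R) {m : ℕ} {g : E} (hg : g ∈ R)
    (hgV : (2 : ℝ) • g ∈ sosSums R m) : ∀ b ∈ R, (2 : ℝ) • b ∈ sosSums R m := by
  have hc := h.pos
  refine h.all_of_one hi (P := fun b => (2 : ℝ) • b ∈ sosSums R m) hg hgV ?_ ?_
  · intro a ha b hb hab hPa
    have h1 := h.refl_mem_sosSums (h.sub_mem ha hb hab) hPa
    have h2 : (2 : ℝ) • a - (2 * inner ℝ ((2 : ℝ) • a) (a - b) / c) • (a - b) = (2 : ℝ) • b := by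
      have h3 : 2 * inner ℝ ((2 : ℝ) • a) (a - b) / c = 2 := by
        rw [inner_smul_left, inner_sub_right, h.norm a ha, hab]
        simp only [conj_trivial]
        field_simp
        ring
      rw [h3]
      module
    rwa [h2] at h1
  · intro a _ hPa
    have h1 := h.neg_mem_sosSums hPa
    rwa [← smul_neg] at h1

theorem exists_frame_four (h : SL R c) {g : E} (hg : g ∈ R)
    (hgV : (2 : ℝ) • g ∈ sosSums R 4) : ∃ e : Fin 4 → E, Frame R c e := by
  obtain ⟨a, ha, b, hb, x, hx, y, hy, hab, hax, hay, hbx, hby, hxy, hs⟩ := h.mem_four.1 hgV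
  refine ⟨_, frame_four h ha hb hx hy hab hax hay hbx hby hxy ?_⟩
  rw [hs, smul_smul]
  norm_num
  exact hg

end

end Pool.Agent.helper54.SOG
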