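import Pool.Agent.helper54.SOG.Four
import Pool.Agent.helper54.SOG.D4

/-!
Assembly: the coincidences `Γ(R₁, 1) ≅ Γ(R₂, m)` with `R₁`, `R₂` simply laced.
-/

namespace Pool.Agent.helper54.SOG

open Finset

/-! ### Transport of graphs -/

section Transport

variable {E E' : Type*} [AddCommGroup E] [AddCommGroup E']

omit [AddCommGroup E] [AddCommGroup E'] in
theorem mem_image_iff {f : E → E'} (hf : Function.Injective f) {R : Set E} {x : E} :
    f x ∈ f '' R ↔ x ∈ R :=
  ⟨fun ⟨y, hy, h⟩ => by rwa [← hf h], fun h => ⟨x, h, rfl⟩⟩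

theorem sosSums_image (f : E →+ E') (hf : Function.Injective f) (R : Set E) (k : ℕ) :
    sosSums (f '' R) k = f '' sosSums R k := by
  classical
  ext v
  constructor
  · rintro ⟨S, hc, hS, rfl⟩
    refine ⟨∑ a ∈ S.preimage f hf.injOn, a, ⟨S.preimage f hf.injOn, ?_, ⟨?_, ?_⟩, rfl⟩, ?_⟩
    · rw [← hc, ← card_image_of_injective _ hf, image_preimage]
      congr 1
      apply filter_true_of_mem
      intro a ha
      obtain ⟨b, _, hb⟩ := hS.1 a ha
      exact ⟨b, hb⟩
    · intro a ha
      rw [mem_preimage] at ha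
      exact (mem_image_iff hf).1 (hS.1 _ ha)
    · intro a ha b hb hab
      rw [mem_preimage] at ha hb
      obtain ⟨h1, h2, h3⟩ := hS.2 _ ha _ hb (fun h => hab (hf h))
      rw [← map_add] at h1 h2
      rw [← map_sub] at h3
      refine ⟨fun h => h1 (by rw [h, map_zero]), fun h => h2 ⟨_, h, rfl⟩, fun h => h3 ⟨_, h, rfl⟩⟩
    · rw [map_sum, ← sum_image (f := fun x => x) (s := S.preimage f hf.injOn) (g := f)
        (fun a _ b _ h => hf h), image_preimage]
      apply sum_congr _ (fun _ _ => rfl)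
      apply filter_true_of_mem
      intro a ha
      obtain ⟨b, _, hb⟩ := hS.1 a ha
      exact ⟨b, hb⟩
  · rintro ⟨_, ⟨S, hc, hS, rfl⟩, rfl⟩
    refine ⟨S.image f, ?_, ⟨?_, ?_⟩, ?_⟩
    · rw [card_image_of_injective _ hf, hc]
    · intro x hx
      obtain ⟨a, ha, rfl⟩ := mem_image.1 hx
      exact ⟨a, hS.1 a ha, rfl⟩
    · intro x hx y hy hxy
      obtain ⟨a, ha, rfl⟩ := mem_image.1 hx
      obtain ⟨b, hb, rfl⟩ := mem_image.1 hy
      obtain ⟨h1, h2, h3⟩ := hS.2 a ha b hb (fun h => hxy (by rw [h]))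
      rw [← map_add, ← map_sub]
      refine ⟨fun h => h1 (hf (by rw [h, map_zero])), fun h => h2 ((mem_image_iff hf).1 h),
        fun h => h3 ((mem_image_iff hf).1 h)⟩
    · rw [sum_image (fun a _ b _ h => hf h), map_sum]

theorem graph_iso_image (f : E →+ E') (hf : Function.Injective f) (R : Set E) (k : ℕ) :
    Nonempty (sosGraph R k ≃g sosGraph (f '' R) k) :=
  iso_of_image f hf R (f '' R) k k (sosSums_image f hf R k).symm

end Transport

/-! ### Similar root systems -/

section Similar

variable {E₁ : Type*} [NormedAddCommGroup E₁] [InnerProductSpace ℝ E₁]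
  {E₂ : Type*} [NormedAddCommGroup E₂] [InnerProductSpace ℝ E₂]
  {E₃ : Type*} [NormedAddCommGroup E₃] [InnerProductSpace ℝ E₃]

/-- `R'` is the image of `R` under a bijective linear map multiplying all inner products by the
same positive number. (For irreducible root systems this is isomorphism of root systems.) -/
def Similar (R : Set E₁) (R' : Set E₂) : Prop :=
  ∃ T : E₁ ≃ₗ[ℝ] E₂, T '' R = R' ∧ ∃ s : ℝ, 0 < s ∧ ∀ u v, inner ℝ (T u) (T v) = s * inner ℝ u v

theorem Similar.symm {R : Set E₁} {R' : Set E₂} (h : Similar R R') : Similar R' R := by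
  obtain ⟨T, hT, s, hs, hi⟩ := h
  refine ⟨T.symm, ?_, s⁻¹, inv_pos.2 hs, ?_⟩
  · rw [← hT]
    ext x
    simp
  · intro u v
    have h1 := hi (T.symm u) (T.symm v)
    rw [LinearEquiv.apply_symm_apply, LinearEquiv.apply_symm_apply] at h1
    rw [h1]
    field_simp

theorem Similar.trans {R : Set E₁} {R' : Set E₂} {R'' : Set E₃} (h : Similar R R')
    (h' : Similar R' R'') : Similar R R'' := by
  obtain ⟨T, hT, s, hs, hi⟩ := h
  obtain ⟨T', hT', s', hs', hi'⟩ := h'
  refine ⟨T.trans T', ?_, s' * s, mul_pos hs' hs, ?_⟩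
  · rw [← hT', ← hT, Set.image_image]
    rfl
  · intro u v
    rw [LinearEquiv.trans_apply, LinearEquiv.trans_apply, hi', hi]
    ring

theorem similar_of_linear {R : Set E₁} {R' : Set E₂} (L : E₁ →ₗ[ℝ] E₂) {s : ℝ} (hs : 0 < s)
    (hi : ∀ u v, inner ℝ (L u) (L v) = s * inner ℝ u v) (hsurj : Function.Surjective L)
    (hL : L '' R = R') : ∃ T : E₁ ≃ₗ[ℝ] E₂, (∀ u, T u = L u) ∧ T '' R = R' ∧
      ∃ s : ℝ, 0 < s ∧ ∀ u v, inner ℝ (T u) (T v) = s * inner ℝ u v := by
  have hinj : Function.Injective L := by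
    intro u v huv
    have h1 := hi (u - v) (u - v)
    rw [map_sub, huv, sub_self, inner_zero_left] at h1
    rcases mul_eq_zero.1 h1.symm with h2 | h2
    · exact absurd h2 hs.ne'
    · exact sub_eq_zero.1 (inner_self_eq_zero.1 h2)
  exact ⟨LinearEquiv.ofBijective L ⟨hinj, hsurj⟩, fun u => rfl, hL, s, hs, hi⟩

theorem Similar.graph_iso {R : Set E₁} {R' : Set E₂} (h : Similar R R') (k : ℕ) :
    Nonempty (sosGraph R k ≃g sosGraph R' k) := by
  obtain ⟨T, hT, _⟩ := h
  have h1 := graph_iso_image (T : E₁ →+ E₂) T.injective R k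
  have h2 : ((T : E₁ →+ E₂) : E₁ → E₂) '' R = R' := hT
  rwa [h2] at h1

end Similar

/-! ### The concrete root systems -/

/-- type `D_l` in Euclidean space -/
def typeD (l : ℕ) : Set (EuclideanSpace ℝ (Fin l)) :=
  {v | ∃ i j : Fin l, i ≠ j ∧ ∃ s t : ℝ, (s = 1 ∨ s = -1) ∧ (t = 1 ∨ t = -1) ∧
    v = s • EuclideanSpace.single i 1 + t • EuclideanSpace.single j 1}

/-- type `E_6` in Euclidean space: the vectors `±e_i±e_j` with `i ≠ j` among the first five
coordinates, and the vectors `(±1, ±1, ±1, ±1, ±1, ±√3)/2` with an even number of minus signs -/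
def typeE6 : Set (EuclideanSpace ℝ (Fin 6)) :=
  {v | ∃ i j : Fin 5, i ≠ j ∧ ∃ s t : ℝ, (s = 1 ∨ s = -1) ∧ (t = 1 ∨ t = -1) ∧
    v = s • EuclideanSpace.single i.castSucc 1 + t • EuclideanSpace.single j.castSucc 1} ∪
  {v | ∃ s : Fin 6 → ℝ, (∀ i, s i = 1 ∨ s i = -1) ∧ ∏ i, s i = 1 ∧
    v = (1 / 2 : ℝ) • (∑ i : Fin 5, s i.castSucc • EuclideanSpace.single i.castSucc 1 +
      (s 5 * √3) • EuclideanSpace.single 5 1)}

section Concrete

variable {E : Type*} [NormedAddCommGroup E] [InnerProductSpace ℝ E] {c : ℝ}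

/-- the linear map sending the standard basis to `e` -/
noncomputable def stdMap {n : ℕ} (e : Fin n → E) : EuclideanSpace ℝ (Fin n) →ₗ[ℝ] E where
  toFun v := ∑ i, v i • e i
  map_add' u v := by
    rw [← sum_add_distrib]
    apply sum_congr rfl
    intro i _
    rw [← add_smul]
    rfl
  map_smul' r u := by
    rw [smul_sum]
    apply sum_congr rfl
    intro i _
    rw [smul_smul]
    rfl

theorem stdMap_single {n : ℕ} (e : Fin n → E) (i : Fin n) :
    stdMap e (EuclideanSpace.single i 1) = e i := by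
  change ∑ j, (EuclideanSpace.single i (1 : ℝ)) j • e j = e i
  rw [sum_eq_single i]
  · simp
  · intro j _ hj
    simp [hj]
  · intro h; exact absurd (mem_univ i) h

theorem inner_stdMap {n : ℕ} {e : Fin n → E} (hn : ∀ i, inner ℝ (e i) (e i) = c / 2)
    (ho : ∀ i j, i ≠ j → inner ℝ (e i) (e j) = 0) (u v : EuclideanSpace ℝ (Fin n)) :
    inner ℝ (stdMap e u) (stdMap e v) = c / 2 * inner ℝ u v := by
  change inner ℝ (∑ i, u i • e i) (∑ i, v i • e i) = _
  rw [PiLp.inner_apply, sum_inner, mul_sum]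
  apply sum_congr rfl
  intro i _
  rw [inner_sum, sum_eq_single i]
  · rw [inner_smul_left, inner_smul_right, hn]
    simp only [conj_trivial]
    rw [RCLike.inner_apply]
    simp only [conj_trivial]
    ring
  · intro j _ hj
    rw [inner_smul_left, inner_smul_right, ho i j (Ne.symm hj), mul_zero, mul_zero]
  · intro h; exact absurd (mem_univ i) h

theorem stdMap_surjective {n : ℕ} {e : Fin n → E} (hc : 0 < c)
    (hn : ∀ i, inner ℝ (e i) (e i) = c / 2)
    (ho : ∀ i j, i ≠ j → inner ℝ (e i) (e j) = 0)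
    (hsp : ∀ x, (∀ i, inner ℝ (e i) x = 0) → x = 0) : Function.Surjective (stdMap e) := by
  intro g
  obtain ⟨h1, _⟩ := Frame.proj hn ho g (fun i => inner ℝ g (e i) / (c / 2))
    (fun i => by field_simp)
  have h2 := hsp _ h1
  refine ⟨WithLp.toLp 2 (fun i => inner ℝ g (e i) / (c / 2)), ?_⟩
  exact (sub_eq_zero.1 h2).symm

theorem similar_typeD {l : ℕ} {e : Fin l → E} (hc : 0 < c)
    (hn : ∀ i, inner ℝ (e i) (e i) = c / 2)
    (ho : ∀ i j, i ≠ j → inner ℝ (e i) (e j) = 0)
    (hsp : ∀ x, (∀ i, inner ℝ (e i) x = 0) → x = 0) : Similar (typeD l) (Dset e) := by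
  obtain ⟨T, _, h2, h3⟩ := similar_of_linear (R := typeD l) (R' := Dset e) (stdMap e)
    (half_pos hc) (inner_stdMap hn ho) (stdMap_surjective hc hn ho hsp) (by
      ext v
      constructor
      · rintro ⟨_, ⟨i, j, hij, s, t, hs, ht, rfl⟩, rfl⟩
        refine ⟨i, j, hij, s, t, hs, ht, ?_⟩
        rw [map_add, map_smul, map_smul, stdMap_single, stdMap_single]
      · rintro ⟨i, j, hij, s, t, hs, ht, rfl⟩
        refine ⟨_, ⟨i, j, hij, s, t, hs, ht, rfl⟩, ?_⟩
        rw [map_add, map_smul, map_smul, stdMap_single, stdMap_single])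
  exact ⟨T, h2, h3⟩

/-- a product of signs -/
theorem prod_signs {n : ℕ} {s : Fin n → ℝ} (hs : ∀ i, s i = 1 ∨ s i = -1) :
    ∏ i, s i = (-1) ^ (univ.filter (fun i => s i = -1)).card := by
  classical
  rw [← prod_const, prod_filter]
  apply prod_congr rfl
  intro i _
  split_ifs with h
  · exact h
  · exact (hs i).resolve_right h

theorem even_of_prod {n : ℕ} {s : Fin n → ℝ} (hs : ∀ i, s i = 1 ∨ s i = -1)
    (h : ∏ i, s i = 1) : Even (univ.filter (fun i => s i = -1)).card := by
  rw [prod_signs hs] at h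
  by_contra hodd
  rw [Nat.not_even_iff_odd] at hodd
  rw [hodd.neg_one_pow] at h
  norm_num at h

theorem hv_signs {l : ℕ} (e : Fin l → E) (x : E) {s : Fin l → ℝ}
    (hs : ∀ i, s i = 1 ∨ s i = -1) :
    hv e x (univ.filter (fun i => s i = -1)) = (1 / 2 : ℝ) • ∑ i, s i • e i + x := by
  classical
  unfold hv
  have h3 : ∀ i, s i • e i = e i - (2 : ℝ) • (if s i = -1 then e i else 0) := by
    intro i
    rcases hs i with h4 | h4
    · rw [h4, if_neg (by norm_num)]
      module
    · rw [h4, if_pos rfl]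
      module
  rw [sum_congr rfl (fun i _ => h3 i), sum_sub_distrib, ← smul_sum, ← sum_filter]
  module

theorem similar_typeE6 {e : Fin 5 → E} {x : E} (hc : 0 < c)
    (hn : ∀ i, inner ℝ (e i) (e i) = c / 2)
    (ho : ∀ i j, i ≠ j → inner ℝ (e i) (e j) = 0) (hx : ∀ j, inner ℝ (e j) x = 0)
    (hxx : inner ℝ x x = 3 * (c / 8))
    (hsp : ∀ y, (∀ i, inner ℝ (e i) y = 0) → inner ℝ x y = 0 → y = 0) :
    Similar typeE6 (E6set e x) := by
  classical
  have h3 : (√3 : ℝ) * √3 = 3 := Real.mul_self_sqrt (by norm_num)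
  have h30 : (√3 : ℝ) ≠ 0 := by positivity
  let f : Fin 6 → E := Fin.snoc e ((2 / √3) • x)
  have fc : ∀ i : Fin 5, f i.castSucc = e i := fun i => Fin.snoc_castSucc _ _ _
  have f5 : f 5 = (2 / √3) • x := Fin.snoc_last (α := fun _ => E) _ _
  have fn : ∀ i, inner ℝ (f i) (f i) = c / 2 := by
    intro i
    refine Fin.lastCases ?_ (fun i => ?_) i
    · change inner ℝ (f 5) (f 5) = c / 2
      rw [f5, inner_smul_left, inner_smul_right, hxx]
      simp only [conj_trivial]
      field_simp
      linarith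
    · rw [fc]; exact hn i
  have fo5 : ∀ i : Fin 5, inner ℝ (f i.castSucc) (f 5) = 0 := by
    intro i
    rw [fc, f5, inner_smul_right, hx, mul_zero]
  have fo : ∀ i j, i ≠ j → inner ℝ (f i) (f j) = 0 := by
    intro i j
    refine Fin.lastCases ?_ (fun i => ?_) i <;> refine Fin.lastCases ?_ (fun j => ?_) j
    · intro h0; exact absurd rfl h0
    · intro _
      rw [real_inner_comm]; exact fo5 j
    · intro _; exact fo5 i
    · intro h0
      rw [fc, fc]
      exact ho i j (fun h1 => h0 (by rw [h1]))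
  have fsp : ∀ y, (∀ i, inner ℝ (f i) y = 0) → y = 0 := by
    intro y hy
    apply hsp
    · intro i
      have h1 := hy i.castSucc
      rwa [fc] at h1
    · have h1 := hy 5
      rw [f5, inner_smul_left] at h1
      simp only [conj_trivial] at h1
      rcases mul_eq_zero.1 h1 with h2 | h2
      · exact absurd h2 (div_ne_zero two_ne_zero h30)
      · exact h2
  have hval : ∀ s : Fin 6 → ℝ, stdMap f ((1 / 2 : ℝ) •
      (∑ i : Fin 5, s i.castSucc • EuclideanSpace.single i.castSucc 1 +
        (s 5 * √3) • EuclideanSpace.single 5 1)) =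
      (1 / 2 : ℝ) • ∑ i : Fin 5, s i.castSucc • e i + s 5 • x := by
    intro s
    rw [map_smul, map_add, map_sum, map_smul, stdMap_single, f5, smul_add]
    congr 1
    · congr 1
      apply sum_congr rfl
      intro i _
      rw [map_smul, stdMap_single, fc]
    · rw [smul_smul, smul_smul]
      congr 1
      field_simp
  obtain ⟨T, _, h4, h5⟩ := similar_of_linear (R := typeE6) (R' := E6set e x) (stdMap f)
    (half_pos hc) (inner_stdMap fn fo) (stdMap_surjective hc fn fo fsp) (by
      ext v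
      constructor
      · rintro ⟨_, ⟨i, j, hij, s, t, hs, ht, rfl⟩ | ⟨s, hs, hp, rfl⟩, rfl⟩
        · left
          refine ⟨i, j, hij, s, t, hs, ht, ?_⟩
          rw [map_add, map_smul, map_smul, stdMap_single, stdMap_single, fc, fc]
        · right
          rw [hval]
          rw [Fin.prod_univ_castSucc] at hp
          have hs5 : s (Fin.last 5) = s 5 := rfl
          rw [hs5] at hp
          rcases hs 5 with h6 | h6
          · rw [h6, mul_one] at hp
            refine ⟨_, even_of_prod (fun i => hs i.castSucc) hp, Or.inl ?_⟩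
            rw [hv_signs e x (fun i => hs i.castSucc), h6, one_smul]
          · have hs' : ∀ i : Fin 5, -s i.castSucc = 1 ∨ -s i.castSucc = -1 := by
              intro i
              rcases hs i.castSucc with h7 | h7 <;> rw [h7]
              · right; rfl
              · left; norm_num
            have hp' : ∏ i : Fin 5, -s i.castSucc = 1 := by
              rw [prod_neg, card_univ, Fintype.card_fin]
              rw [h6] at hp
              linarith
            refine ⟨_, even_of_prod hs' hp', Or.inr ?_⟩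
            rw [hv_signs e x hs', h6]
            simp only [neg_smul, sum_neg_distrib]
            module
      · rintro (⟨i, j, hij, s, t, hs, ht, rfl⟩ | ⟨P, hP, hv'⟩)
        · refine ⟨_, Or.inl ⟨i, j, hij, s, t, hs, ht, rfl⟩, ?_⟩
          rw [map_add, map_smul, map_smul, stdMap_single, stdMap_single, fc, fc]
        · let s : Fin 6 → ℝ := Fin.snoc (fun i => if i ∈ P then (-1 : ℝ) else 1) (1 : ℝ)
          have sc : ∀ i : Fin 5, s i.castSucc = if i ∈ P then (-1 : ℝ) else 1 :=
            fun i => Fin.snoc_castSucc _ _ _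
          have s5 : s 5 = 1 := Fin.snoc_last (α := fun _ => ℝ) _ _
          have hs : ∀ i, s i = 1 ∨ s i = -1 := by
            intro i
            refine Fin.lastCases ?_ (fun i => ?_) i
            · left; exact s5
            · rw [sc]; split_ifs
              · right; rfl
              · left; rfl
          have hsP : univ.filter (fun i : Fin 5 => s i.castSucc = -1) = P := by
            ext i
            rw [mem_filter, sc]
            constructor
            · rintro ⟨_, h6⟩
              by_contra h7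
              rw [if_neg h7] at h6
              norm_num at h6
            · intro h6
              exact ⟨mem_univ _, by rw [if_pos h6]⟩
          have hp5 : ∏ i : Fin 5, s i.castSucc = 1 := by
            rw [prod_signs (fun i => hs i.castSucc), hsP]
            exact hP.neg_one_pow
          have hp : ∏ i, s i = 1 := by
            rw [Fin.prod_univ_castSucc, hp5]
            have h6 : s (Fin.last 5) = 1 := s5
            rw [h6, mul_one]
          have hvs : hv e x P = (1 / 2 : ℝ) • ∑ i : Fin 5, s i.castSucc • e i + x := by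
            rw [← hv_signs e x (fun i => hs i.castSucc), hsP]
          rcases hv' with h6 | h6
          · refine ⟨_, Or.inr ⟨s, hs, hp, rfl⟩, ?_⟩
            rw [hval, h6, hvs, s5, one_smul]
          · refine ⟨_, Or.inr ⟨fun i => -s i, ?_, ?_, rfl⟩, ?_⟩
            · intro i
              change -s i = 1 ∨ -s i = -1
              rcases hs i with h7 | h7 <;> rw [h7]
              · right; rfl
              · left; norm_num
            · rw [prod_neg, card_univ, Fintype.card_fin, hp]; norm_num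
            · rw [hval (fun i => -s i), h6, hvs, s5]
              simp only [neg_smul, sum_neg_distrib]
              module)
  exact ⟨T, h4, h5⟩

end Concrete

/-! ### Assembly -/

section Assembly

variable {E : Type*} [NormedAddCommGroup E] [InnerProductSpace ℝ E] {R : Set E} {c : ℝ}

/-- the vertices span -/
theorem span_sosSums (h : SL R c) (hi : IsIrred R) (hR : Submodule.span ℝ R = ⊤) {m : ℕ}
    (hm : 0 < m) (hne : (sosSums R m).Nonempty) : Submodule.span ℝ (sosSums R m) = ⊤ := by
  have hc := h.pos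
  let A : Set E := {b ∈ R | b ∈ Submodule.span ℝ (sosSums R m)}
  let B : Set E := {b ∈ R | ∀ v ∈ sosSums R m, inner ℝ v b = 0}
  have hAB : A ∪ B = R := by
    ext b
    constructor
    · rintro (hb | hb)
      · exact hb.1
      · exact hb.1
    · intro hb
      by_cases h1 : ∀ v ∈ sosSums R m, inner ℝ v b = 0
      · exact Or.inr ⟨hb, h1⟩
      · left
        refine ⟨hb, ?_⟩
        push Not at h1
        obtain ⟨v, hv, hvb⟩ := h1
        have h2 := h.refl_mem_sosSums hb hv
        have h3 : (2 * inner ℝ v b / c) • b ∈ Submodule.span ℝ (sosSums R m) := by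
          have h4 := Submodule.sub_mem (Submodule.span ℝ (sosSums R m))
            (Submodule.subset_span hv) (Submodule.subset_span h2)
          rwa [sub_sub_cancel] at h4
        have h5 : 2 * inner ℝ v b / c ≠ 0 := div_ne_zero (mul_ne_zero two_ne_zero hvb) hc.ne'
        exact (Submodule.smul_mem_iff (Submodule.span ℝ (sosSums R m)) h5).1 h3
  have hort' : ∀ b ∈ B, ∀ a ∈ Submodule.span ℝ (sosSums R m), inner ℝ a b = 0 := by
    intro b hb a ha
    induction ha using Submodule.span_induction with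
    | mem s hs => exact hb.2 s hs
    | zero => rw [inner_zero_left]
    | add x y _ _ hx hy => rw [inner_add_left, hx, hy, add_zero]
    | smul r x _ hx => rw [inner_smul_left, hx, mul_zero]
  have hort : ∀ a ∈ A, ∀ b ∈ B, inner ℝ a b = 0 := fun a ha b hb => hort' b hb a ha.2
  rcases hi.2 A B hAB hort with h1 | h1
  · exfalso
    obtain ⟨v, hv⟩ := hne
    have h2 := h.norm_sosSums hv
    obtain ⟨S, _, hS, hsum⟩ := hv
    have h3 : inner ℝ v v = 0 := by
      conv_lhs => rw [← hsum]
      rw [inner_sum]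
      apply sum_eq_zero
      intro a ha
      have haB : a ∈ B := by
        have : a ∈ A ∪ B := by rw [hAB]; exact hS.1 a ha
        rw [h1, Set.empty_union] at this
        exact this
      rw [hsum]
      exact haB.2 v ⟨S, by assumption, hS, hsum⟩
    rw [h3] at h2
    have h4 : (0 : ℝ) < m * c := mul_pos (by exact_mod_cast hm) hc
    linarith
  · rw [h1, Set.union_empty] at hAB
    rw [eq_top_iff, ← hR]
    apply Submodule.span_le.2
    intro b hb
    rw [← hAB] at hb
    exact hb.2

variable {E₁ : Type*} [NormedAddCommGroup E₁] [InnerProductSpace ℝ E₁]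
  {E₂ : Type*} [NormedAddCommGroup E₂] [InnerProductSpace ℝ E₂]
  {R₁ : Set E₁} {R₂ : Set E₂} {c₁ c₂ : ℝ}

/-- an isomorphism is the restriction of a bijective similarity -/
theorem rigid' (h₁ : SL R₁ c₁) (hi₁ : IsIrred R₁) (hR₁ : Submodule.span ℝ R₁ = ⊤)
    (h₂ : SL R₂ c₂) (hi₂ : IsIrred R₂) (hR₂ : Submodule.span ℝ R₂ = ⊤) {m : ℕ} (hm : 0 < m)
    (φ : sosGraph R₁ 1 ≃g sosGraph R₂ m) :
    ∃ T : E₁ ≃ₗ[ℝ] E₂, (∀ a : sosSums R₁ 1, T a = φ a) ∧ T '' R₁ = sosSums R₂ m ∧
      ∀ u v, inner ℝ (T u) (T v) = (m * c₂ / c₁) * inner ℝ u v := by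
  obtain ⟨L, hL1, hL2⟩ := rigid h₁ hi₁ hR₁ h₂ hm φ
  have hmc : (0 : ℝ) < m * c₂ / c₁ :=
    div_pos (mul_pos (by exact_mod_cast hm) h₂.pos) h₁.pos
  have him : L '' R₁ = sosSums R₂ m := by
    ext v
    constructor
    · rintro ⟨a, ha, rfl⟩
      have h3 := hL1 ⟨a, mem_one.2 ha⟩
      rw [show L a = _ from h3]
      exact (φ _).2
    · intro hv
      refine ⟨(φ.symm ⟨v, hv⟩ : sosSums R₁ 1), mem_one.1 (φ.symm ⟨v, hv⟩).2, ?_⟩
      rw [hL1, RelIso.apply_symm_apply]
  have hne : (sosSums R₂ m).Nonempty := by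
    rw [← him]
    exact hi₁.1.image _
  have hsurj : Function.Surjective L := by
    rw [← LinearMap.range_eq_top, eq_top_iff, ← span_sosSums h₂ hi₂ hR₂ hm hne, ← him]
    apply Submodule.span_le.2
    rintro _ ⟨a, _, rfl⟩
    exact LinearMap.mem_range_self L a
  have hinj : Function.Injective L := by
    intro u v huv
    have h1 := hL2 (u - v) (u - v)
    rw [map_sub, huv, sub_self, inner_zero_left] at h1
    rcases mul_eq_zero.1 h1.symm with h2 | h2
    · exact absurd h2 hmc.ne'
    · exact sub_eq_zero.1 (inner_self_eq_zero.1 h2)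
  exact ⟨LinearEquiv.ofBijective L ⟨hinj, hsurj⟩, hL1, him, hL2⟩

theorem IsIrred.image (hi : IsIrred R₁) (T : E₁ ≃ₗ[ℝ] E₂) {s : ℝ}
    (hT : ∀ u v, inner ℝ (T u) (T v) = s * inner ℝ u v) (hs : s ≠ 0) :
    IsIrred (T '' R₁) := by
  refine ⟨hi.1.image _, ?_⟩
  intro A B hAB hort
  have h1 : T ⁻¹' A ∪ T ⁻¹' B = R₁ := by
    rw [← Set.preimage_union, hAB, Set.preimage_image_eq _ T.injective]
  have h2 : ∀ a ∈ T ⁻¹' A, ∀ b ∈ T ⁻¹' B, inner ℝ a b = 0 := by
    intro a ha b hb
    have h3 := hort (T a) ha (T b) hb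
    rw [hT] at h3
    exact (mul_eq_zero.1 h3).resolve_left hs
  rcases hi.2 _ _ h1 h2 with h3 | h3
  · left
    rw [← Set.image_preimage_eq A T.surjective, h3, Set.image_empty]
  · right
    rw [← Set.image_preimage_eq B T.surjective, h3, Set.image_empty]

/-- the classification -/
theorem classify (h₁ : SL R₁ c₁) (hi₁ : IsIrred R₁) (hR₁ : Submodule.span ℝ R₁ = ⊤)
    (h₂ : SL R₂ c₂) (hi₂ : IsIrred R₂) (hR₂ : Submodule.span ℝ R₂ = ⊤) {m : ℕ} (hm : 0 < m)
    (hedge : ∃ v w, (sosGraph R₁ 1).Adj v w) (φ : sosGraph R₁ 1 ≃g sosGraph R₂ m) :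
    (m = 1 ∧ Similar R₁ R₂) ∨ (m = 2 ∧ Similar R₁ (typeD 4) ∧ Similar R₂ (typeD 4)) ∨
      (m = 4 ∧ Similar R₁ R₂ ∧
        (Similar R₂ (typeD 4) ∨ Similar R₂ (typeD 5) ∨ Similar R₂ typeE6)) := by
  obtain ⟨T, hT1, hT2, hT3⟩ := rigid' h₁ hi₁ hR₁ h₂ hi₂ hR₂ hm φ
  have hc₁ := h₁.pos
  have hc₂ := h₂.pos
  have hs : (0 : ℝ) < m * c₂ / c₁ := div_pos (mul_pos (by exact_mod_cast hm) hc₂) hc₁
  have hV : SL (sosSums R₂ m) (m * c₂) := by
    have h3 := h₁.image (T : E₁ →ₗ[ℝ] E₂) hs hT3
    have h4 : m * c₂ / c₁ * c₁ = m * c₂ := by field_simp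
    rw [h4] at h3
    rwa [show ((T : E₁ →ₗ[ℝ] E₂) : E₁ → E₂) '' R₁ = sosSums R₂ m from hT2] at h3
  have hVi : IsIrred (sosSums R₂ m) := by
    rw [← hT2]; exact hi₁.image T hT3 hs.ne'
  have hsim : Similar R₁ (sosSums R₂ m) := ⟨T, hT2, _, hs, hT3⟩
  rcases m_cases h₂ hm hV hVi.1 with rfl | rfl | rfl
  · left
    refine ⟨rfl, ?_⟩
    rwa [sosSums_one] at hsim
  · right; left
    obtain ⟨v, w, hvw⟩ := hedge
    have h3 : inner ℝ (T v) (T w) = c₂ := by
      rw [hT3, (h₁.adj_one v w).1 hvw]
      push_cast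
      field_simp
    have hmem : ∀ a : sosSums R₁ 1, T a ∈ sosSums R₂ 2 := by
      intro a
      rw [hT1]; exact (φ a).2
    obtain ⟨e, F, hRD⟩ := class_two h₂ hi₂ hR₂ hV ⟨_, hmem v, _, hmem w, h3⟩
    obtain ⟨f, G, hVD, hfsp⟩ := sums_two_of_four h₂ hR₂ hV F hRD
    have hesp : ∀ x, (∀ i, inner ℝ (e i) x = 0) → x = 0 := by
      intro x hx
      apply eq_zero_of_orth hR₂
      intro r hr
      rw [hRD] at hr
      exact inner_dset (fun i => by rw [real_inner_comm]; exact hx i) hr
    refine ⟨rfl, ?_, ?_⟩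
    · rw [hVD] at hsim
      exact hsim.trans (similar_typeD hV.pos G.norm G.orth hfsp).symm
    · rw [hRD]
      exact (similar_typeD hc₂ F.norm F.orth hesp).symm
  · right; right
    obtain ⟨hcl, hVR⟩ := class_four h₂ hi₂ hR₂ hV hVi
    refine ⟨rfl, ?_, ?_⟩
    · -- scale by one half
      obtain ⟨T', _, h4, h5⟩ := similar_of_linear (R := R₁) (R' := R₂)
        ((1 / 2 : ℝ) • (T : E₁ →ₗ[ℝ] E₂)) (s := (1 / 4) * (((4 : ℕ) : ℝ) * c₂ / c₁))
        (mul_pos (by norm_num) hs) (by
          intro u v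
          rw [LinearMap.smul_apply, LinearMap.smul_apply, inner_smul_left, inner_smul_right]
          have h6 : inner ℝ ((T : E₁ →ₗ[ℝ] E₂) u) ((T : E₁ →ₗ[ℝ] E₂) v) = _ := hT3 u v
          rw [h6]
          simp only [conj_trivial]
          ring) (by
          intro y
          obtain ⟨x, hx⟩ := T.surjective ((2 : ℝ) • y)
          refine ⟨x, ?_⟩
          rw [LinearMap.smul_apply]
          have h6 : (T : E₁ →ₗ[ℝ] E₂) x = (2 : ℝ) • y := hx
          rw [h6, smul_smul]
          norm_num) (by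
          ext v
          constructor
          · rintro ⟨a, ha, rfl⟩
            have h6 : T a ∈ sosSums R₂ 4 := by rw [← hT2]; exact ⟨a, ha, rfl⟩
            obtain ⟨r, hr, hra⟩ := (hVR _).1 h6
            rw [LinearMap.smul_apply]
            have h7 : (T : E₁ →ₗ[ℝ] E₂) a = (2 : ℝ) • r := hra
            rw [h7, smul_smul]
            norm_num
            exact hr
          · intro hv
            have h6 : (2 : ℝ) • v ∈ sosSums R₂ 4 := (hVR _).2 ⟨v, hv, rfl⟩
            rw [← hT2] at h6
            obtain ⟨a, ha, hav⟩ := h6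
            refine ⟨a, ha, ?_⟩
            rw [LinearMap.smul_apply]
            have h7 : (T : E₁ →ₗ[ℝ] E₂) a = (2 : ℝ) • v := hav
            rw [h7, smul_smul]
            norm_num)
      exact ⟨T', h4, h5⟩
    · rcases hcl with ⟨e, F, hRD⟩ | ⟨e, F, hRD⟩ | ⟨e, x, F, hx, hxx, hRE⟩
      · left
        rw [hRD]
        refine (similar_typeD hc₂ F.norm F.orth ?_).symm
        intro x hx
        apply eq_zero_of_orth hR₂
        intro r hr
        rw [hRD] at hr
        exact inner_dset (fun i => by rw [real_inner_comm]; exact hx i) hr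
      · right; left
        rw [hRD]
        refine (similar_typeD hc₂ F.norm F.orth ?_).symm
        intro x hx
        apply eq_zero_of_orth hR₂
        intro r hr
        rw [hRD] at hr
        exact inner_dset (fun i => by rw [real_inner_comm]; exact hx i) hr
      · right; right
        rw [hRE]
        refine (similar_typeE6 hc₂ F.norm F.orth hx hxx ?_).symm
        intro y hy hxy
        apply eq_zero_of_orth hR₂
        intro r hr
        rw [hRE] at hr
        have hin : ∀ P : Finset (Fin 5), inner ℝ (hv e x P) y = 0 := by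
          intro P
          unfold hv
          have h3 : ∀ S : Finset (Fin 5), inner ℝ (∑ i ∈ S, e i) y = 0 := by
            intro S
            rw [sum_inner]
            exact sum_eq_zero (fun i _ => hy i)
          rw [inner_add_left, inner_sub_left, inner_smul_left, h3, h3, hxy]
          ring
        rcases hr with hr | ⟨P, _, rfl | rfl⟩
        · exact inner_dset (fun i => by rw [real_inner_comm]; exact hy i) hr
        · exact hin P
        · rw [inner_neg_left, hin P, neg_zero]

end Assembly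

end Pool.Agent.helper54.SOG
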