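import Pool.Agent.helper54.SOG.Abs
import Pool.Agent.helper54.SOG.G2

/-!
Isomorphisms of the root graph of an irreducible simply laced root system onto a strongly
orthogonal sum graph of a simply laced root system are linear similarities.
-/

namespace Pool.Agent.helper54.SOG

open Finset

section Lin

variable {E₁ : Type*} [NormedAddCommGroup E₁] [InnerProductSpace ℝ E₁]
  {E₂ : Type*} [NormedAddCommGroup E₂] [InnerProductSpace ℝ E₂]

theorem lin_ext {S : Set E₁} (hS : Submodule.span ℝ S = ⊤) (x : E₁) (y : E₂) (T : E₁ →ₗ[ℝ] E₂)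
    (lam : ℝ) (h : ∀ s ∈ S, inner ℝ y (T s) = lam * inner ℝ x s) :
    ∀ u, inner ℝ y (T u) = lam * inner ℝ x u := by
  intro u
  have hu : u ∈ Submodule.span ℝ S := by rw [hS]; exact Submodule.mem_top
  induction hu using Submodule.span_induction with
  | mem s hs => exact h s hs
  | zero => rw [map_zero, inner_zero_right, inner_zero_right, mul_zero]
  | add a b _ _ ha hb => rw [map_add, inner_add_right, ha, hb, inner_add_right]; ring
  | smul r a _ ha => rw [map_smul, inner_smul_right, ha, inner_smul_right]; ring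

/-- A map on a spanning set which multiplies all inner products by `lam` is the restriction of
a linear map with this property. -/
theorem exists_linear {R : Set E₁} (hR : Submodule.span ℝ R = ⊤) (F : E₁ → E₂) (lam : ℝ)
    (hF : ∀ a ∈ R, ∀ b ∈ R, inner ℝ (F a) (F b) = lam * inner ℝ a b) :
    ∃ T : E₁ →ₗ[ℝ] E₂, (∀ a ∈ R, T a = F a) ∧
      ∀ u v, inner ℝ (T u) (T v) = lam * inner ℝ u v := by
  let b := Module.Basis.ofSpan (K := ℝ) (s := R) hR.ge
  have hb : ∀ i, b i ∈ R := fun i => Module.Basis.ofSpan_subset hR.ge ⟨i, rfl⟩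
  have hspan : Submodule.span ℝ (Set.range b) = ⊤ := b.span_eq
  let T : E₁ →ₗ[ℝ] E₂ := b.constr ℝ (fun i => F (b i))
  have hTb : ∀ i, T (b i) = F (b i) := fun i => b.constr_basis ℝ _ i
  have h1 : ∀ r ∈ R, ∀ u, inner ℝ (F r) (T u) = lam * inner ℝ r u := by
    intro r hr
    apply lin_ext hspan
    rintro _ ⟨i, rfl⟩
    rw [hTb]
    exact hF r hr _ (hb i)
  have h2 : ∀ v u, inner ℝ (T v) (T u) = lam * inner ℝ v u := by
    intro v
    apply lin_ext hspan
    rintro _ ⟨i, rfl⟩
    rw [hTb, real_inner_comm, h1 _ (hb i), real_inner_comm]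
  refine ⟨T, ?_, h2⟩
  intro r hr
  have h3 : inner ℝ (T r - F r) (T r - F r) = 0 := by
    rw [real_inner_sub_sub_self, h2, real_inner_comm (F r) (T r), h1 r hr, hF r hr r hr]
    ring
  exact sub_eq_zero.1 (inner_self_eq_zero.1 h3)

end Lin

section One

variable {E : Type*} [NormedAddCommGroup E] [InnerProductSpace ℝ E] {R : Set E} {c : ℝ}

theorem mem_one {E : Type*} [AddCommGroup E] {R : Set E} {x : E} : x ∈ sosSums R 1 ↔ x ∈ R := by
  rw [sosSums_one]

/-- adjacency in the root graph -/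
theorem SL.adj_one (h : SL R c) (a b : sosSums R 1) :
    (sosGraph R 1).Adj a b ↔ inner ℝ (a : E) (b : E) = c / 2 := by
  have ha : (a : E) ∈ R := mem_one.1 a.2
  have hb : (b : E) ∈ R := mem_one.1 b.2
  rw [h.adj_iff', mem_one]
  constructor
  · rintro ⟨_, h2⟩
    exact h.inner_of_sub_mem ha hb h2
  · intro h1
    refine ⟨?_, h.sub_mem ha hb h1⟩
    rintro rfl
    rw [h.norm _ ha] at h1
    have := h.pos
    linarith

/-- In the root graph only `-a` is at distance greater than two from `a`. -/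
theorem SL.eq_neg_of_far (h : SL R c) (hi : IsIrred R) (a b : sosSums R 1) (hab : a ≠ b)
    (h1 : ¬ (sosGraph R 1).Adj a b)
    (h2 : ∀ g, (sosGraph R 1).Adj a g → (sosGraph R 1).Adj b g → False) : (b : E) = -a := by
  have ha : (a : E) ∈ R := mem_one.1 a.2
  have hb : (b : E) ∈ R := mem_one.1 b.2
  rcases h.inner_cases ha hb with h3 | h3 | h3 | h3 | h3
  · exfalso
    obtain ⟨g, hg, hga, hgb⟩ := h.exists_common hi ha hb h3
    refine h2 ⟨g, mem_one.2 hg⟩ ?_ ?_
    · rw [h.adj_one, real_inner_comm]; exact hga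
    · rw [h.adj_one, real_inner_comm]; exact hgb
  · exact absurd ((h.adj_one a b).2 h3) h1
  · exfalso
    have hg := h.add_mem ha hb h3
    refine h2 ⟨(a : E) + b, mem_one.2 hg⟩ ?_ ?_
    · rw [h.adj_one]
      change inner ℝ (a : E) ((a : E) + b) = c / 2
      rw [inner_add_right, h.norm _ ha, h3]; ring
    · rw [h.adj_one]
      change inner ℝ (b : E) ((a : E) + b) = c / 2
      rw [inner_add_right, h.norm _ hb, real_inner_comm, h3]; ring
  · exact absurd (Subtype.ext h3) hab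
  · rw [h3, neg_neg]

end One

section Rigid

variable {E₁ : Type*} [NormedAddCommGroup E₁] [InnerProductSpace ℝ E₁]
  {E₂ : Type*} [NormedAddCommGroup E₂] [InnerProductSpace ℝ E₂]
  {R₁ : Set E₁} {R₂ : Set E₂} {c₁ c₂ : ℝ}

/-- An isomorphism commutes with `-1`. -/
theorem iso_neg (h₁ : SL R₁ c₁) (hi₁ : IsIrred R₁) (h₂ : SL R₂ c₂) {m : ℕ} (hm : 0 < m)
    (φ : sosGraph R₁ 1 ≃g sosGraph R₂ m) (a b : sosSums R₁ 1) (hab : (b : E₁) = -a) :
    (φ b : E₂) = -(φ a : E₂) := by
  have hmc : (0 : ℝ) < m * c₂ := mul_pos (by exact_mod_cast hm) h₂.pos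
  let w : sosSums R₂ m := ⟨-(φ a : E₂), h₂.neg_mem_sosSums (φ a).2⟩
  have hw : (w : E₂) = -(φ a : E₂) := rfl
  have hn := h₂.norm_sosSums (φ a).2
  have hbeta : ((φ.symm w : sosSums R₁ 1) : E₁) = -a := by
    apply h₁.eq_neg_of_far hi₁
    · intro h0
      have h3 : φ a = w := by rw [h0, RelIso.apply_symm_apply]
      have h4 : (φ a : E₂) = -(φ a : E₂) := by rw [← hw, ← h3]
      have h5 := congrArg (fun x => inner ℝ (φ a : E₂) x) h4
      simp only [inner_neg_right] at h5
      linarith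
    · intro h0
      have h3 : (sosGraph R₂ m).Adj (φ a) w := by
        rw [← φ.map_adj_iff, RelIso.apply_symm_apply] at h0
        exact h0
      have h4 := h₂.inner_of_adj h3
      rw [hw, inner_neg_right] at h4
      linarith
    · intro g hg1 hg2
      rw [← φ.map_adj_iff] at hg1 hg2
      rw [RelIso.apply_symm_apply] at hg2
      have h4 := h₂.inner_of_adj hg1
      have h5 := h₂.inner_of_adj hg2
      rw [hw, inner_neg_left] at h5
      linarith
  have h6 : b = φ.symm w := Subtype.ext (by rw [hbeta, hab])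
  rw [h6, RelIso.apply_symm_apply]

/-- Rigidity: an isomorphism is the restriction of a linear similarity. -/
theorem rigid (h₁ : SL R₁ c₁) (hi₁ : IsIrred R₁) (hR₁ : Submodule.span ℝ R₁ = ⊤)
    (h₂ : SL R₂ c₂) {m : ℕ} (hm : 0 < m) (φ : sosGraph R₁ 1 ≃g sosGraph R₂ m) :
    ∃ T : E₁ →ₗ[ℝ] E₂, (∀ a : sosSums R₁ 1, T a = φ a) ∧
      ∀ u v, inner ℝ (T u) (T v) = (m * c₂ / c₁) * inner ℝ u v := by
  classical
  have hc₁ := h₁.pos
  have hmc : (0 : ℝ) < m * c₂ := mul_pos (by exact_mod_cast hm) h₂.pos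
  let F : E₁ → E₂ := fun x => if hx : x ∈ sosSums R₁ 1 then (φ ⟨x, hx⟩ : E₂) else 0
  have hF : ∀ a (ha : a ∈ R₁), F a = φ ⟨a, mem_one.2 ha⟩ := by
    intro a ha
    simp only [F]
    rw [dif_pos (mem_one.2 ha)]
  have hFV : ∀ a, a ∈ R₁ → F a ∈ sosSums R₂ m := by
    intro a ha
    rw [hF a ha]
    exact (φ _).2
  have hadj : ∀ a, a ∈ R₁ → ∀ b, b ∈ R₁ → inner ℝ a b = c₁ / 2 →
      inner ℝ (F a) (F b) = m * c₂ / 2 := by
    intro a ha b hb hab
    rw [hF a ha, hF b hb]
    apply h₂.inner_of_adj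
    rw [φ.map_adj_iff, h₁.adj_one]
    exact hab
  have hneg : ∀ a, a ∈ R₁ → F (-a) = -F a := by
    intro a ha
    rw [hF a ha, hF (-a) (h₁.neg_mem ha)]
    exact iso_neg h₁ hi₁ h₂ hm φ _ _ rfl
  have hopp : ∀ a, a ∈ R₁ → ∀ b, b ∈ R₁ → inner ℝ a b = -(c₁ / 2) →
      inner ℝ (F a) (F b) = -(m * c₂ / 2) := by
    intro a ha b hb hab
    have h3 := hadj a ha (-b) (h₁.neg_mem hb) (by rw [inner_neg_right, hab, neg_neg])
    rw [hneg b hb, inner_neg_right] at h3
    linarith
  have hadd : ∀ a, a ∈ R₁ → ∀ b, b ∈ R₁ → inner ℝ a b = -(c₁ / 2) → F (a + b) = F a + F b := by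
    intro a ha b hb hab
    have hz := h₁.add_mem ha hb hab
    have e1 : inner ℝ (a + b) a = c₁ / 2 := by
      rw [inner_add_left, h₁.norm a ha, real_inner_comm, hab]; ring
    have e2 : inner ℝ (a + b) b = c₁ / 2 := by
      rw [inner_add_left, h₁.norm b hb, hab]; ring
    have f1 := hadj _ hz a ha e1
    have f2 := hadj _ hz b hb e2
    have f3 := hopp a ha b hb hab
    have n1 := h₂.norm_sosSums (hFV _ hz)
    have n2 := h₂.norm_sosSums (hFV a ha)
    have n3 := h₂.norm_sosSums (hFV b hb)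
    have h3 : inner ℝ (F (a + b) - (F a + F b)) (F (a + b) - (F a + F b)) = 0 := by
      rw [real_inner_sub_sub_self, real_inner_add_add_self, inner_add_right, n1, n2, n3, f1, f2,
        f3]
      ring
    exact sub_eq_zero.1 (inner_self_eq_zero.1 h3)
  have hgram : ∀ a ∈ R₁, ∀ b ∈ R₁, inner ℝ (F a) (F b) = (m * c₂ / c₁) * inner ℝ a b := by
    intro a ha b hb
    rcases h₁.inner_cases ha hb with h3 | h3 | h3 | h3 | h3
    · rw [h3, mul_zero]
      obtain ⟨g, hg, hga, hgb⟩ := h₁.exists_common hi₁ ha hb h3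
      have hd := h₁.sub_mem hg ha hga
      have hd' := h₁.neg_mem hd
      rw [neg_sub] at hd'
      have e1 : inner ℝ (a - g) g = -(c₁ / 2) := by
        rw [inner_sub_left, h₁.norm g hg, real_inner_comm, hga]; ring
      have e2 := hadd _ hd' g hg e1
      rw [sub_add_cancel] at e2
      have e3 : inner ℝ (a - g) b = -(c₁ / 2) := by
        rw [inner_sub_left, h3, hgb]; ring
      rw [e2, inner_add_left, hopp _ hd' b hb e3, hadj g hg b hb hgb]
      ring
    · rw [h3, hadj a ha b hb h3]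
      field_simp
    · rw [h3, hopp a ha b hb h3]
      field_simp
    · subst h3
      rw [h₁.norm a ha, h₂.norm_sosSums (hFV a ha)]
      field_simp
    · subst h3
      rw [hneg b hb, inner_neg_left, inner_neg_left, h₁.norm b hb, h₂.norm_sosSums (hFV b hb)]
      field_simp
  obtain ⟨T, hT1, hT2⟩ := exists_linear hR₁ F _ hgram
  refine ⟨T, ?_, hT2⟩
  intro a
  have ha := mem_one.1 a.2
  rw [hT1 a ha, hF a ha]

end Rigid

end Pool.Agent.helper54.SOG
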