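import Pool.Agent.helper54.SOG.Rigid

/-!
Vertices of the graphs of a simply laced root system, their invariance under reflections, and the
restriction on `m` when the vertex set is itself a simply laced root system.
-/

namespace Pool.Agent.helper54.SOG

open Finset

section

variable {E : Type*} [NormedAddCommGroup E] [InnerProductSpace ℝ E] {R : Set E} {c : ℝ}

theorem SL.mem_sosSums_iff (h : SL R c) {m : ℕ} {v : E} : v ∈ sosSums R m ↔
    ∃ S : Finset E, S.card = m ∧ (∀ a ∈ S, a ∈ R) ∧
      (∀ a ∈ S, ∀ b ∈ S, a ≠ b → inner ℝ a b = 0) ∧ ∑ a ∈ S, a = v := by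
  constructor
  · rintro ⟨S, h1, h2, h3⟩
    refine ⟨S, h1, h2.1, ?_, h3⟩
    intro a ha b hb hab
    obtain ⟨h4, h5, h6⟩ := h2.2 a ha b hb hab
    exact h.inner_of_so (h2.1 a ha) (h2.1 b hb) hab h4 h5 h6
  · rintro ⟨S, h1, h2, h3, h4⟩
    refine ⟨S, h1, ⟨h2, ?_⟩, h4⟩
    intro a ha b hb hab
    exact h.so_of_inner (h2 a ha) (h2 b hb) (h3 a ha b hb hab)

theorem SL.ne_of_orth (h : SL R c) {a b : E} (ha : a ∈ R) (hab : inner ℝ a b = 0) : a ≠ b := by
  rintro rfl
  rw [h.norm a ha] at hab
  exact h.pos.ne' hab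

theorem SL.mem_two (h : SL R c) {v : E} : v ∈ sosSums R 2 ↔
    ∃ a ∈ R, ∃ b ∈ R, inner ℝ a b = 0 ∧ a + b = v := by
  classical
  rw [h.mem_sosSums_iff]
  constructor
  · rintro ⟨S, h1, h2, h3, rfl⟩
    obtain ⟨a, b, hab, rfl⟩ := card_eq_two.1 h1
    refine ⟨a, h2 a (by simp), b, h2 b (by simp), h3 a (by simp) b (by simp) hab, ?_⟩
    rw [sum_pair hab]
  · rintro ⟨a, ha, b, hb, hab, rfl⟩
    have hne := h.ne_of_orth ha hab
    refine ⟨{a, b}, card_pair hne, ?_, ?_, sum_pair hne⟩
    · intro x hx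
      rw [mem_insert, mem_singleton] at hx
      rcases hx with rfl | rfl
      · exact ha
      · exact hb
    · intro x hx y hy hxy
      rw [mem_insert, mem_singleton] at hx hy
      rcases hx with rfl | rfl <;> rcases hy with rfl | rfl
      · exact absurd rfl hxy
      · exact hab
      · rw [real_inner_comm]; exact hab
      · exact absurd rfl hxy

theorem SL.mem_four (h : SL R c) {v : E} : v ∈ sosSums R 4 ↔
    ∃ a ∈ R, ∃ b ∈ R, ∃ x ∈ R, ∃ y ∈ R, inner ℝ a b = 0 ∧ inner ℝ a x = 0 ∧ inner ℝ a y = 0 ∧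
      inner ℝ b x = 0 ∧ inner ℝ b y = 0 ∧ inner ℝ x y = 0 ∧ a + b + x + y = v := by
  classical
  rw [h.mem_sosSums_iff]
  constructor
  · rintro ⟨S, h1, h2, h3, rfl⟩
    obtain ⟨a, T, haT, rfl, hT⟩ := card_eq_succ.1 h1
    obtain ⟨b, x, y, hbx, hby, hxy, rfl⟩ := card_eq_three.1 hT
    have hab : a ≠ b := fun h0 => haT (by rw [h0]; simp)
    have hax : a ≠ x := fun h0 => haT (by rw [h0]; simp)
    have hay : a ≠ y := fun h0 => haT (by rw [h0]; simp)
    refine ⟨a, h2 a (by simp), b, h2 b (by simp), x, h2 x (by simp), y, h2 y (by simp),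
      h3 a (by simp) b (by simp) hab, h3 a (by simp) x (by simp) hax,
      h3 a (by simp) y (by simp) hay, h3 b (by simp) x (by simp) hbx,
      h3 b (by simp) y (by simp) hby, h3 x (by simp) y (by simp) hxy, ?_⟩
    rw [sum_insert haT, sum_insert (by simp [hbx, hby]), sum_pair hxy]
    abel
  · rintro ⟨a, ha, b, hb, x, hx, y, hy, h1, h2, h3, h4, h5, h6, rfl⟩
    have n1 := h.ne_of_orth ha h1
    have n2 := h.ne_of_orth ha h2
    have n3 := h.ne_of_orth ha h3
    have n4 := h.ne_of_orth hb h4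
    have n5 := h.ne_of_orth hb h5
    have n6 := h.ne_of_orth hx h6
    refine ⟨{a, b, x, y}, ?_, ?_, ?_, ?_⟩
    · rw [card_insert_of_notMem (by simp [n1, n2, n3]), card_insert_of_notMem (by simp [n4, n5]),
        card_pair n6]
    · intro z hz
      simp only [mem_insert, mem_singleton] at hz
      rcases hz with rfl | rfl | rfl | rfl <;> assumption
    · intro z hz w hw hzw
      simp only [mem_insert, mem_singleton] at hz hw
      rcases hz with rfl | rfl | rfl | rfl <;> rcases hw with rfl | rfl | rfl | rfl <;>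
        first
          | exact absurd rfl hzw
          | assumption
          | (rw [real_inner_comm]; assumption)
    · rw [sum_insert (by simp [n1, n2, n3]), sum_insert (by simp [n4, n5]), sum_pair n6]
      abel

/-- the reflection in a vector of norm square `c`, as a linear map -/
noncomputable def rf (c : ℝ) (b : E) : E →ₗ[ℝ] E where
  toFun v := v - (2 * inner ℝ v b / c) • b
  map_add' u v := by
    rw [inner_add_left, mul_add, add_div, add_smul]
    abel
  map_smul' r u := by
    rw [inner_smul_left, RingHom.id_apply, smul_sub, smul_smul]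
    simp only [conj_trivial]
    congr 2
    ring

theorem rf_apply (c : ℝ) (b v : E) : rf c b v = v - (2 * inner ℝ v b / c) • b := rfl

theorem inner_rf {c : ℝ} (hc : c ≠ 0) {b : E} (hb : inner ℝ b b = c) (u v : E) :
    inner ℝ (rf c b u) (rf c b v) = inner ℝ u v := by
  rw [rf_apply, rf_apply, inner_sub_left, inner_sub_right, inner_sub_right, inner_smul_left,
    inner_smul_right, inner_smul_right, inner_smul_left, hb, real_inner_comm b v]
  simp only [conj_trivial]
  field_simp
  ring

theorem rf_injective {c : ℝ} (hc : c ≠ 0) {b : E} (hb : inner ℝ b b = c) :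
    Function.Injective (rf c b) := by
  intro u v huv
  have h1 : rf c b (u - v) = 0 := by rw [map_sub, huv, sub_self]
  have h2 := inner_rf hc hb (u - v) (u - v)
  rw [h1, inner_zero_left] at h2
  exact sub_eq_zero.1 (inner_self_eq_zero.1 h2.symm)

/-- the vertex set is invariant under the Weyl group -/
theorem SL.refl_mem_sosSums (h : SL R c) {m : ℕ} {v b : E} (hb : b ∈ R) (hv : v ∈ sosSums R m) :
    v - (2 * inner ℝ v b / c) • b ∈ sosSums R m := by
  classical
  have hc := h.pos.ne'
  have hbb := h.norm b hb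
  rw [h.mem_sosSums_iff] at hv ⊢
  obtain ⟨S, h1, h2, h3, rfl⟩ := hv
  refine ⟨S.image (rf c b), ?_, ?_, ?_, ?_⟩
  · rw [card_image_of_injective _ (rf_injective hc hbb), h1]
  · intro x hx
    obtain ⟨a, ha, rfl⟩ := mem_image.1 hx
    exact h.refl b hb a (h2 a ha)
  · intro x hx y hy hxy
    obtain ⟨a, ha, rfl⟩ := mem_image.1 hx
    obtain ⟨a', ha', rfl⟩ := mem_image.1 hy
    rw [inner_rf hc hbb]
    exact h3 a ha a' ha' (fun h0 => hxy (by rw [h0]))
  · rw [sum_image (fun a _ a' _ h0 => rf_injective hc hbb h0), ← map_sum, rf_apply]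

theorem SL.int_sosSums (h : SL R c) {m : ℕ} {v g : E} (hv : v ∈ sosSums R m) (hg : g ∈ R) :
    ∃ k : ℤ, inner ℝ v g = k * (c / 2) := by
  classical
  have hc := h.pos.ne'
  obtain ⟨S, h1, h2, rfl⟩ := hv
  have h3 : ∀ a ∈ S, ∃ k : ℤ, inner ℝ a g = k * (c / 2) := by
    intro a ha
    obtain ⟨z, hz⟩ := h.integral g hg a (h2.1 a ha)
    refine ⟨z, ?_⟩
    rw [← hz]
    field_simp
  choose! k hk using h3
  refine ⟨∑ a ∈ S, k a, ?_⟩
  rw [sum_inner, sum_congr rfl hk, ← sum_mul]
  push_cast
  rfl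

/-- the pairing of a vertex with a root, when the vertices form a root system -/
theorem even_cases (h : SL R c) {m : ℕ} (hV : SL (sosSums R m) (m * c)) {v g : E}
    (hv : v ∈ sosSums R m) (hg : g ∈ R) {k : ℤ} (hk : inner ℝ v g = k * (c / 2)) :
    k ^ 2 = 2 * m ∨ k ^ 2 = m ∨ k ^ 2 = 3 * m ∨ k = 0 ∨ k ^ 2 = 4 * m := by
  have hc := h.pos
  have hw := h.refl_mem_sosSums hg hv
  have e0 : 2 * inner ℝ v g / c = k := by
    rw [hk]; field_simp
  rw [e0] at hw
  have e1 : inner ℝ v (v - (k : ℝ) • g) = m * c - (k : ℝ) ^ 2 * (c / 2) := by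
    rw [inner_sub_right, inner_smul_right, hk, h.norm_sosSums hv]; ring
  have key : ∀ n : ℤ, (n * m - (k : ℝ) ^ 2) * (c / 2) = 0 → k ^ 2 = n * m := by
    intro n hn
    rcases mul_eq_zero.1 hn with h2 | h2
    · have h3 : (k : ℝ) ^ 2 = n * m := by linarith
      exact_mod_cast h3
    · linarith
  rcases hV.inner_cases hv hw with h1 | h1 | h1 | h1 | h1
  · left
    apply key
    rw [e1] at h1
    push_cast
    linarith
  · right; left
    have h3 := key 1 (by
      rw [e1] at h1
      push_cast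
      linarith)
    rw [h3]; ring
  · right; right; left
    apply key
    rw [e1] at h1
    push_cast
    linarith
  · right; right; right; left
    have h2 : (k : ℝ) • g = 0 := by
      have h3 : (k : ℝ) • g = v - (v - (k : ℝ) • g) := by abel
      rw [h3, ← h1, sub_self]
    rcases smul_eq_zero.1 h2 with h3 | h3
    · exact_mod_cast h3
    · exact absurd h3 (h.ne_zero hg)
  · right; right; right; right
    apply key
    have h2 : inner ℝ v (v - (k : ℝ) • g) = -(m * c) := by
      have h3 := congrArg (fun x => inner ℝ x (v - (k : ℝ) • g)) h1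
      simp only [inner_neg_left] at h3
      rw [h3, hV.norm _ hw]
    rw [e1] at h2
    push_cast
    linarith

/-- If the vertices form a simply laced root system then `m` is `1`, `2` or `4`. -/
theorem m_cases (h : SL R c) {m : ℕ} (hm : 0 < m) (hV : SL (sosSums R m) (m * c))
    (hne : (sosSums R m).Nonempty) : m = 1 ∨ m = 2 ∨ m = 4 := by
  classical
  obtain ⟨v, hv⟩ := hne
  obtain ⟨S, h1, h2, h3, h4⟩ := h.mem_sosSums_iff.1 hv
  have hS : S.Nonempty := card_pos.1 (by rw [h1]; exact hm)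
  obtain ⟨b, hb⟩ := hS
  have hvb : inner ℝ v b = (2 : ℤ) * (c / 2) := by
    rw [← h4, sum_inner, sum_eq_single b]
    · rw [h.norm b (h2 b hb)]; push_cast; ring
    · intro a ha hab
      exact h3 a ha b hb hab
    · intro h5; exact absurd hb h5
  rcases even_cases h hV hv (h2 b hb) hvb with h5 | h5 | h5 | h5 | h5 <;> omega

end

section Image

variable {E₁ : Type*} [NormedAddCommGroup E₁] [InnerProductSpace ℝ E₁]
  {E₂ : Type*} [NormedAddCommGroup E₂] [InnerProductSpace ℝ E₂]
  {R : Set E₁} {c : ℝ}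

theorem SL.image (h : SL R c) (T : E₁ →ₗ[ℝ] E₂) {lam : ℝ} (hlam : 0 < lam)
    (hT : ∀ u v, inner ℝ (T u) (T v) = lam * inner ℝ u v) : SL (T '' R) (lam * c) where
  pos := mul_pos hlam h.pos
  norm := by
    rintro _ ⟨a, ha, rfl⟩
    rw [hT, h.norm a ha]
  refl := by
    rintro _ ⟨a, ha, rfl⟩ _ ⟨b, hb, rfl⟩
    refine ⟨_, h.refl a ha b hb, ?_⟩
    rw [map_sub, map_smul, hT]
    congr 2
    have := h.pos.ne'
    have := hlam.ne'
    field_simp
  integral := by
    rintro _ ⟨a, ha, rfl⟩ _ ⟨b, hb, rfl⟩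
    obtain ⟨z, hz⟩ := h.integral a ha b hb
    refine ⟨z, ?_⟩
    rw [← hz, hT]
    have := h.pos.ne'
    have := hlam.ne'
    field_simp

end Image

end Pool.Agent.helper54.SOG
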